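import Pool.Agent.ThR.Deg

/-!
# Group theory and the numerical choice

`lcs N 0 = N`, `lcs N (k+1) = ⁅lcs N k, N⁆`.
`derG_le_lcs`: `⁅lcs N i, lcs N j⁆ ≤ lcs N (i + j + 1)` (induction on `j`, three subgroups lemma
`Subgroup.commutator_commutator_eq_bot_of_rotate` in `G ⧸ lcs N (i + j + 2)`, all `lcs N k` are normal in
`G`).
`ag_lcs`: `(ag N)^2 ≤ ag N` since `(r g - 1)(r h - 1) = (r (g h) - 1) - (r g - 1) - (r h - 1)`, so
`(ag N)^(k+1) ≤ (ag N)^k` for `k ≥ 1`, `(ag N)^k * r g ≤ (ag N)^k` for `g ∈ N`, and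
`r ⁅g, h⁆ - 1 = ((r g - 1)(r h - 1) - (r h - 1)(r g - 1)) r (g⁻¹ h⁻¹)`.
`num`: `2 M^M ≤ (M+1)^M` (Bernoulli), `t = 2^d - 1 = q M + s`: `2^q M^t ≤ (M+1)^t`, and `(m+1)^d ≤ 2^(m d) < 2^q` for
large `d`.
-/

set_option autoImplicit false

namespace Pool.Agent.ThR

open Pool.Agent.LgP
open scoped commutatorElement

theorem lcs_normal {G : Type} [Group G] (N : Subgroup G) (hN : N.Normal) (j : ℕ) :
    (lcs N j).Normal := by
  induction j with
  | zero => exact hN
  | succ j ih => exact Subgroup.commutator_normal _ _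

theorem lcs_phi {G : Type} [Group G] (φ : G →* G) (N : Subgroup G) (hNφ : ∀ g ∈ N, φ g ∈ N)
    (j : ℕ) : ∀ g ∈ lcs N j, φ g ∈ lcs N j := by
  have h0 : N.map φ ≤ N := by
    rintro _ ⟨x, hx, rfl⟩
    exact hNφ x hx
  have h1 : (lcs N j).map φ ≤ lcs N j := by
    induction j with
    | zero => exact h0
    | succ j ih =>
      show (⁅lcs N j, N⁆).map φ ≤ ⁅lcs N j, N⁆
      rw [Subgroup.map_commutator]
      exact Subgroup.commutator_mono ih h0
  intro g hg
  exact h1 (Subgroup.mem_map_of_mem φ hg)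

/-- the three subgroups lemma modulo a normal subgroup -/
private theorem comb_three {G : Type} [Group G] (H₁ H₂ H₃ M : Subgroup G) (hM : M.Normal)
    (h1 : ⁅⁅H₂, H₃⁆, H₁⁆ ≤ M) (h2 : ⁅⁅H₃, H₁⁆, H₂⁆ ≤ M) : ⁅⁅H₁, H₂⁆, H₃⁆ ≤ M := by
  have key : ∀ A : Subgroup G, A.map (QuotientGroup.mk' M) = ⊥ ↔ A ≤ M := by
    intro A
    rw [Subgroup.map_eq_bot_iff, QuotientGroup.ker_mk']
  rw [← key] at h1 h2 ⊢
  simp only [Subgroup.map_commutator] at h1 h2 ⊢
  exact Subgroup.commutator_commutator_eq_bot_of_rotate h1 h2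

private theorem comb_lcs {G : Type} [Group G] (N : Subgroup G) (hN : N.Normal) (j : ℕ) :
    ∀ i, ⁅lcs N i, lcs N j⁆ ≤ lcs N (i + j + 1) := by
  induction j with
  | zero => intro i; exact le_rfl
  | succ j ih =>
    intro i
    show ⁅lcs N i, ⁅lcs N j, N⁆⁆ ≤ lcs N (i + (j + 1) + 1)
    rw [Subgroup.commutator_comm]
    refine comb_three _ _ _ _ (lcs_normal N hN _) ?_ ?_
    · rw [Subgroup.commutator_comm N]
      have h := ih (i + 1)
      rwa [show i + 1 + j + 1 = i + (j + 1) + 1 by ring] at h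
    · exact Subgroup.commutator_mono (ih i) le_rfl

theorem derG_le_lcs {G : Type} [Group G] (N : Subgroup G) (hN : N.Normal) (d : ℕ) :
    derG d N ≤ lcs N (2 ^ d - 1) := by
  induction d with
  | zero => exact le_rfl
  | succ d ih =>
    have h1 : 2 ^ (d + 1) - 1 = (2 ^ d - 1) + (2 ^ d - 1) + 1 := by
      have := Nat.one_le_two_pow (n := d)
      rw [pow_succ]
      omega
    rw [h1]
    exact (Subgroup.commutator_mono ih ih).trans (comb_lcs N hN _ _)

private theorem comb_lcs_le {G : Type} [Group G] (N : Subgroup G) (j : ℕ) : lcs N j ≤ N := by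
  cases j with
  | zero => exact le_rfl
  | succ j =>
    induction j with
    | zero => exact Subgroup.commutator_le_self N
    | succ j ih => exact (Subgroup.commutator_mono ih le_rfl).trans (Subgroup.commutator_le_self N)

private theorem comb_sq {G O A : Type} [Group G] [CommRing O] [Ring A] [Algebra O A] (r : G →* A)
    (N : Subgroup G) : ag O r N * ag O r N ≤ ag O r N := by
  conv_lhs => unfold ag
  rw [Submodule.span_mul_span, Submodule.span_le]
  rintro _ ⟨_, ⟨g, hg, rfl⟩, _, ⟨h, hh, rfl⟩, rfl⟩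
  have e : (r g - 1) * (r h - 1) = (r (g * h) - 1) - (r g - 1) - (r h - 1) := by
    rw [map_mul]
    noncomm_ring
  show (r g - 1) * (r h - 1) ∈ ag O r N
  rw [e]
  have hm : ∀ k ∈ N, r k - 1 ∈ ag O r N := fun k hk => Submodule.subset_span ⟨k, hk, rfl⟩
  exact Submodule.sub_mem _ (Submodule.sub_mem _ (hm _ (N.mul_mem hg hh)) (hm _ hg)) (hm _ hh)

private theorem comb_anti {G O A : Type} [Group G] [CommRing O] [Ring A] [Algebra O A] (r : G →* A)
    (N : Subgroup G) (a b : ℕ) : (ag O r N) ^ (a + 1 + b) ≤ (ag O r N) ^ (a + 1) := by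
  induction b with
  | zero => exact le_rfl
  | succ b ih =>
    refine le_trans ?_ ih
    rw [show a + 1 + (b + 1) = (a + b) + 1 + 1 by ring, show a + 1 + b = (a + b) + 1 by ring,
      pow_succ, pow_succ, mul_assoc]
    exact mul_le_mul_right (comb_sq r N) _

theorem ag_lcs {G O A : Type} [Group G] [CommRing O] [Ring A] [Algebra O A] (r : G →* A)
    (N : Subgroup G) (j : ℕ) : ∀ g ∈ lcs N j, r g - 1 ∈ (ag O r N) ^ (j + 1) := by
  have hm : ∀ k ∈ N, r k - 1 ∈ ag O r N := fun k hk => Submodule.subset_span ⟨k, hk, rfl⟩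
  induction j with
  | zero =>
    intro g hg
    rw [zero_add, pow_one]
    exact hm g hg
  | succ j ih =>
    have hmul : ∀ x ∈ (ag O r N) ^ (j + 1 + 1), ∀ k ∈ N, x * (r k - 1) ∈
        (ag O r N) ^ (j + 1 + 1) := by
      intro x hx k hk
      have h1 : x * (r k - 1) ∈ (ag O r N) ^ (j + 1 + 1 + 1) := by
        rw [pow_succ]
        exact Submodule.mul_mem_mul hx (hm k hk)
      exact comb_anti r N (j + 1) 1 h1
    intro g hg
    have hg' : g ∈ Subgroup.closure {x | ∃ g₁ ∈ lcs N j, ∃ g₂ ∈ N, ⁅g₁, g₂⁆ = x} := hg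
    have h2 : g ∈ N ∧ r g - 1 ∈ (ag O r N) ^ (j + 1 + 1) := by
      induction hg' using Subgroup.closure_induction with
      | mem x hx =>
        obtain ⟨a, ha, b, hb, rfl⟩ := hx
        have haN : a ∈ N := comb_lcs_le N j ha
        have hk : a⁻¹ * b⁻¹ ∈ N := N.mul_mem (N.inv_mem haN) (N.inv_mem hb)
        refine ⟨?_, ?_⟩
        · rw [commutatorElement_def]
          exact N.mul_mem (N.mul_mem (N.mul_mem haN hb) (N.inv_mem haN)) (N.inv_mem hb)
        · have e1 : r ⁅a, b⁆ = r a * r b * r (a⁻¹ * b⁻¹) := by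
            rw [← map_mul, ← map_mul, commutatorElement_def]
            congr 1
            group
          have e2 : r b * r a * r (a⁻¹ * b⁻¹) = 1 := by
            rw [← map_mul, ← map_mul]
            have : b * a * (a⁻¹ * b⁻¹) = 1 := by group
            rw [this, map_one]
          set X : A := (r a - 1) * (r b - 1) - (r b - 1) * (r a - 1) with hX
          have e3 : r ⁅a, b⁆ - 1 = X * (r (a⁻¹ * b⁻¹) - 1) + X := by
            have : X = r a * r b - r b * r a := by rw [hX]; noncomm_ring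
            rw [this, e1]
            conv_lhs => rw [← e2]
            noncomm_ring
          have hXm : X ∈ (ag O r N) ^ (j + 1 + 1) := by
            refine Submodule.sub_mem _ ?_ ?_
            · rw [pow_succ]
              exact Submodule.mul_mem_mul (ih a ha) (hm b hb)
            · rw [pow_succ']
              exact Submodule.mul_mem_mul (hm b hb) (ih a ha)
          rw [e3]
          exact Submodule.add_mem _ (hmul X hXm _ hk) hXm
      | one =>
        refine ⟨N.one_mem, ?_⟩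
        rw [map_one, sub_self]
        exact Submodule.zero_mem _
      | mul x y hx hy ihx ihy =>
        have ihx := ihx (by exact hx)
        have ihy := ihy (by exact hy)
        refine ⟨N.mul_mem ihx.1 ihy.1, ?_⟩
        have e : r (x * y) - 1 = (r x - 1) * (r y - 1) + (r x - 1) + (r y - 1) := by
          rw [map_mul]
          noncomm_ring
        rw [e]
        exact Submodule.add_mem _ (Submodule.add_mem _ (hmul _ ihx.2 _ ihy.1) ihx.2) ihy.2
      | inv x hx ihx =>
        have ihx := ihx (by exact hx)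
        refine ⟨N.inv_mem ihx.1, ?_⟩
        have e1 : r x * r x⁻¹ = 1 := by rw [← map_mul, mul_inv_cancel, map_one]
        have e : r x⁻¹ - 1 = -((r x - 1) * (r x⁻¹ - 1) + (r x - 1)) := by
          have : (r x - 1) * (r x⁻¹ - 1) = r x * r x⁻¹ - r x - r x⁻¹ + 1 := by noncomm_ring
          rw [this, e1]
          noncomm_ring
        rw [e]
        exact Submodule.neg_mem _ (Submodule.add_mem _ (hmul _ ihx.2 _ (N.inv_mem ihx.1)) ihx.2)
    exact h2.2

theorem num (m M : ℕ) (hM : 0 < M) :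
    ∃ d : ℕ, (m + 1) ^ d * M ^ (2 ^ d - 1) < (M + 1) ^ (2 ^ d - 1) := by
  have hMr : (0 : ℝ) < M := by exact_mod_cast hM
  have hlog : 0 < Real.log (((M : ℝ) + 1) / M) := by
    apply Real.log_pos
    rw [lt_div_iff₀ hMr]
    linarith
  set L := Real.log (((M : ℝ) + 1) / M) with hL
  have h1 := tendsto_pow_const_div_const_pow_of_one_lt 1 (r := (2 : ℝ)) (by norm_num)
  have h2 : Filter.Tendsto (fun n : ℕ => ((n : ℝ) ^ 1 / 2 ^ n) * Real.log ((m : ℝ) + 1))
      Filter.atTop (nhds (0 * Real.log ((m : ℝ) + 1))) := h1.mul_const _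
  rw [zero_mul] at h2
  have h3 := (h2.eventually (gt_mem_nhds (half_pos hlog))).and (Filter.eventually_ge_atTop 1)
  obtain ⟨d, hd, hd1⟩ := h3.exists
  refine ⟨d, ?_⟩
  have hp : (0 : ℝ) < 2 ^ d := by positivity
  have h4 : (d : ℝ) * Real.log ((m : ℝ) + 1) < 2 ^ d * (L / 2) := by
    have h5 : (d : ℝ) ^ 1 / 2 ^ d * Real.log ((m : ℝ) + 1) < L / 2 := hd
    rw [pow_one, div_mul_eq_mul_div, div_lt_iff₀ hp] at h5
    linarith
  have h5 : (2 : ℝ) ≤ 2 ^ d := by
    calc (2 : ℝ) = 2 ^ 1 := by norm_num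
      _ ≤ 2 ^ d := pow_le_pow_right₀ (by norm_num) hd1
  have h6 : (d : ℝ) * Real.log ((m : ℝ) + 1) < (2 ^ d - 1) * L := by
    have : 2 ^ d * (L / 2) ≤ (2 ^ d - 1) * L := by nlinarith
    linarith
  have hcast : (((2 ^ d - 1 : ℕ) : ℕ) : ℝ) = 2 ^ d - 1 := by
    rw [Nat.cast_sub Nat.one_le_two_pow]
    push_cast
    ring
  have h7 : ((m : ℝ) + 1) ^ d < (((M : ℝ) + 1) / M) ^ (2 ^ d - 1) := by
    rw [← Real.log_lt_log_iff (by positivity) (by positivity), Real.log_pow, Real.log_pow, hcast]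
    exact h6
  rw [div_pow, lt_div_iff₀ (by positivity)] at h7
  exact_mod_cast h7

end Pool.Agent.ThR
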