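import Pool.Agent.ThR.Deg
import Pool.Agent.LgP.Krek

/-!
# The Lie part

`Mr m 0 = 1`, `Mr m (s+1) = m * Mr m s + 1`.
CLAIM (`s`): for `B ≤ D`, both `Stab r Φ` and stable under left multiplication by `L`, with
`derL s L * D ≤ B`: `(Xs r L N)^(Mr m s) * D ≤ B`. Induction on `s`.
`s = 0`: `Xs ≤ L = derL 0 L`.
`s + 1`: `c = derL s L` (`≤ L`, Lie closed, stable under conjugation by `r g`, `Φ`, an ideal of `L`:
`[L, c] ≤ c`). `Op n r Φ Ψ c D B` holds: `comm` because `ab - ba ∈ derL (s+1) L`; `tr`: the trace is `0`; `nil`: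
`c^k ≤ L^k = ⊥`. Let `D_a = B ⊔ c^a * D` (`a ≤ m`): stable under `r g`, `Φ` and `L` (`L c^a ≤ c^a L + c^a`), and
`c * D_a ≤ D_(a+1)`. By induction `Xs^(Mr m s) * D_a ≤ D_(a+1)`, so `Xs^(m * Mr m s) * D ≤ D_m`. Finally
`Xs * D_m ≤ B`: for `x ∈ L`, `g ∈ N`, `y ∈ c^m * D`,
`(r g * x * r g⁻¹ - x) * y = r g * x * ((r g⁻¹ - 1) * y) + (r g - 1) * (x * y)`, both terms are in `B` by
`Good` (`x * y ∈ c^m * D`), and `Xs * B ≤ B`.
RESULT: `D = ⊤`, `B = ⊥`, `s = 2^(n-1) - 1`: `derL s L = ⊥` by `LgP.kreknin` with `σ` = conjugation by `Φ`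
(an algebra endomorphism, `σ^j a = Φ^j a Ψ^j`, `σ^n = 1`).
-/

set_option autoImplicit false

namespace Pool.Agent.ThR

open Pool.Agent.LgP

/-- the exponents -/
def Mr (m : ℕ) : ℕ → ℕ
  | 0 => 1
  | s + 1 => m * Mr m s + 1

theorem Mr_pos (m s : ℕ) : 0 < Mr m s := by
  cases s with
  | zero => exact Nat.one_pos
  | succ s => exact Nat.succ_pos _

private def Cr_conj (O : Type) {A : Type} [CommRing O] [Ring A] [Algebra O A] {p q : A}
    (hpq : p * q = 1) (hqp : q * p = 1) : A →ₐ[O] A :=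
  AlgHom.ofLinearMap ((LinearMap.mulLeft O p).comp (LinearMap.mulRight O q)) (by
    rw [LinearMap.comp_apply, LinearMap.mulLeft_apply, LinearMap.mulRight_apply, one_mul, hpq])
    (by
    intro x y
    simp only [LinearMap.comp_apply, LinearMap.mulLeft_apply, LinearMap.mulRight_apply]
    calc p * (x * y * q) = p * x * 1 * y * q := by simp only [mul_assoc, one_mul]
      _ = p * x * (q * p) * y * q := by rw [hqp]
      _ = _ := by simp only [mul_assoc])

private theorem Cr_conj_apply {O A : Type} [CommRing O] [Ring A] [Algebra O A] {p q : A}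
    (hpq : p * q = 1) (hqp : q * p = 1) (x : A) : Cr_conj O hpq hqp x = p * x * q := by
  change p * (x * q) = p * x * q
  rw [mul_assoc]

private theorem Cr_conj_iter {O A : Type} [CommRing O] [Ring A] [Algebra O A] {p q : A}
    (hpq : p * q = 1) (hqp : q * p = 1) (j : ℕ) (x : A) :
    (⇑(Cr_conj O hpq hqp))^[j] x = p ^ j * x * q ^ j := by
  induction j with
  | zero => simp
  | succ j ih =>
    rw [Function.iterate_succ_apply', ih, Cr_conj_apply, pow_succ', pow_succ]
    simp only [mul_assoc]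

section

variable {O A : Type} [CommRing O] [Ring A] [Algebra O A]

private theorem Cr_der_ideal {L : Submodule O A} (hL : IsLie L) (s : ℕ) :
    ∀ a ∈ L, ∀ b ∈ derL s L, a * b - b * a ∈ derL s L := by
  induction s with
  | zero => exact hL
  | succ s ih =>
    intro a ha b hb
    change b ∈ Submodule.span O {x | ∃ u ∈ derL s L, ∃ v ∈ derL s L, x = u * v - v * u} at hb
    have h1 : Submodule.span O {x | ∃ u ∈ derL s L, ∃ v ∈ derL s L, x = u * v - v * u} ≤
        (derL (s + 1) L).comap (LinearMap.mulLeft O a - LinearMap.mulRight O a) := by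
      refine Submodule.span_le.2 ?_
      rintro x ⟨u, hu, v, hv, rfl⟩
      rw [SetLike.mem_coe, Submodule.mem_comap, LinearMap.sub_apply, LinearMap.mulLeft_apply,
        LinearMap.mulRight_apply]
      have e : a * (u * v - v * u) - (u * v - v * u) * a =
          ((a * u - u * a) * v - v * (a * u - u * a)) +
            (u * (a * v - v * a) - (a * v - v * a) * u) := by
        noncomm_ring
      rw [e]
      refine Submodule.add_mem _ ?_ ?_
      · exact Submodule.subset_span ⟨_, ih a ha u hu, v, hv, rfl⟩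
      · exact Submodule.subset_span ⟨u, hu, _, ih a ha v hv, rfl⟩
    have h2 := h1 hb
    rw [Submodule.mem_comap, LinearMap.sub_apply, LinearMap.mulLeft_apply,
      LinearMap.mulRight_apply] at h2
    exact h2

private theorem Cr_der_le {L : Submodule O A} (hL : IsLie L) (s : ℕ) : derL s L ≤ L := by
  induction s with
  | zero => exact le_rfl
  | succ s ih =>
    refine Submodule.span_le.2 ?_
    rintro x ⟨u, hu, v, hv, rfl⟩
    exact hL u (ih hu) v (ih hv)

private theorem Cr_der_conj {L : Submodule O A} {p q : A} (hqp : q * p = 1)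
    (hLg : ∀ a ∈ L, p * a * q ∈ L) (s : ℕ) : ∀ a ∈ derL s L, p * a * q ∈ derL s L := by
  induction s with
  | zero => exact hLg
  | succ s ih =>
    intro b hb
    change b ∈ Submodule.span O {x | ∃ u ∈ derL s L, ∃ v ∈ derL s L, x = u * v - v * u} at hb
    have h1 : Submodule.span O {x | ∃ u ∈ derL s L, ∃ v ∈ derL s L, x = u * v - v * u} ≤
        (derL (s + 1) L).comap ((LinearMap.mulLeft O p).comp (LinearMap.mulRight O q)) := by
      refine Submodule.span_le.2 ?_
      rintro x ⟨u, hu, v, hv, rfl⟩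
      rw [SetLike.mem_coe, Submodule.mem_comap, LinearMap.comp_apply, LinearMap.mulLeft_apply,
        LinearMap.mulRight_apply]
      have e0 : ∀ y z : A, p * (y * z * q) = (p * y * q) * (p * z * q) := by
        intro y z
        calc p * (y * z * q) = p * y * 1 * z * q := by simp only [mul_assoc, one_mul]
          _ = p * y * (q * p) * z * q := by rw [hqp]
          _ = _ := by simp only [mul_assoc]
      have e : p * ((u * v - v * u) * q) =
          (p * u * q) * (p * v * q) - (p * v * q) * (p * u * q) := by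
        rw [sub_mul, mul_sub, e0, e0]
      rw [e]
      exact Submodule.subset_span ⟨_, ih u hu, _, ih v hv, rfl⟩
    have h2 := h1 hb
    rw [Submodule.mem_comap, LinearMap.comp_apply, LinearMap.mulLeft_apply,
      LinearMap.mulRight_apply, ← mul_assoc] at h2
    exact h2

private theorem Cr_stab {c B T : Submodule O A} {p q : A} (hqp : q * p = 1)
    (hc : ∀ a ∈ c, p * a * q ∈ c) (hB : ∀ x ∈ B, p * x ∈ B) (hT : ∀ x ∈ T, p * x ∈ T) :
    ∀ x ∈ B ⊔ c * T, p * x ∈ B ⊔ c * T := by
  have h1 : B ⊔ c * T ≤ (B ⊔ c * T).comap (LinearMap.mulLeft O p) := by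
    refine sup_le ?_ ?_
    · intro x hx
      exact Submodule.mem_sup_left (hB x hx)
    · refine Submodule.mul_le.2 ?_
      intro u hu y hy
      rw [Submodule.mem_comap, LinearMap.mulLeft_apply]
      refine Submodule.mem_sup_right ?_
      have e : p * (u * y) = (p * u * q) * (p * y) := by
        calc p * (u * y) = p * u * 1 * y := by simp only [mul_assoc, one_mul]
          _ = p * u * (q * p) * y := by rw [hqp]
          _ = _ := by simp only [mul_assoc]
      rw [e]
      exact Submodule.mul_mem_mul (hc u hu) (hT y hy)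
  intro x hx
  exact h1 hx

private theorem Cr_stabL {c B T : Submodule O A} {a : A} (hc : ∀ u ∈ c, a * u - u * a ∈ c)
    (hB : ∀ x ∈ B, a * x ∈ B) (hT : ∀ x ∈ T, a * x ∈ T) :
    ∀ x ∈ B ⊔ c * T, a * x ∈ B ⊔ c * T := by
  have h1 : B ⊔ c * T ≤ (B ⊔ c * T).comap (LinearMap.mulLeft O a) := by
    refine sup_le ?_ ?_
    · intro x hx
      exact Submodule.mem_sup_left (hB x hx)
    · refine Submodule.mul_le.2 ?_
      intro u hu y hy
      rw [Submodule.mem_comap, LinearMap.mulLeft_apply]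
      refine Submodule.mem_sup_right ?_
      have e : a * (u * y) = u * (a * y) + (a * u - u * a) * y := by
        rw [sub_mul]
        simp only [mul_assoc]
        abel
      rw [e]
      exact Submodule.add_mem _ (Submodule.mul_mem_mul hu (hT y hy))
        (Submodule.mul_mem_mul (hc u hu) hy)
  intro x hx
  exact h1 hx

private def Cr_D (c B D : Submodule O A) : ℕ → Submodule O A
  | 0 => D
  | k + 1 => B ⊔ c * Cr_D c B D k

private theorem Cr_D_le {c B D : Submodule O A} (hBD : B ≤ D) (hcB : c * B ≤ B) (k : ℕ) :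
    Cr_D c B D k ≤ B ⊔ c ^ k * D := by
  induction k with
  | zero =>
    rw [pow_zero, one_mul]
    exact le_sup_right
  | succ k ih =>
    refine sup_le le_sup_left ?_
    refine (mul_le_mul' le_rfl ih).trans ?_
    rw [Submodule.mul_sup]
    refine sup_le (hcB.trans le_sup_left) ?_
    rw [← mul_assoc, ← pow_succ']
    exact le_sup_right

end

private theorem Cr_claim {G : Type} [Group G] (n : ℕ) (φ : G →* G) (S : Set (ZMod n))
    (N : Subgroup G) (m : ℕ) (hG : Good n φ S N m) {O A : Type} [CommRing O] [Ring A]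
    [Algebra O A] (ζ : O) (Φ Ψ : A) (r : G →* A) (h : GRep n φ ζ Φ Ψ r) (hS : Sup n ζ Φ S)
    (L : Submodule O A) (hL : IsLie L) (hLg : ∀ g, ∀ a ∈ L, r g * a * r g⁻¹ ∈ L)
    (hLp : ∀ a ∈ L, Φ * a * Ψ ∈ L)
    (hLt : ∀ a ∈ L, ∑ j ∈ Finset.range n, Φ ^ j * a * Ψ ^ j = 0) (hLn : ∃ k : ℕ, L ^ k = ⊥)
    (s : ℕ) : ∀ D B : Submodule O A, B ≤ D → Stab r Φ D → Stab r Φ B →
      (∀ a ∈ L, ∀ x ∈ D, a * x ∈ D) → (∀ a ∈ L, ∀ x ∈ B, a * x ∈ B) → derL s L * D ≤ B →
      (Xs r L N) ^ (Mr m s) * D ≤ B := by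
  have hrg : ∀ g, r g⁻¹ * r g = 1 := by
    intro g
    rw [← map_mul, inv_mul_cancel, map_one]
  have hX : Xs r L N ≤ L := by
    refine Submodule.span_le.2 ?_
    rintro x ⟨y, hy, g, hg, rfl⟩
    exact Submodule.sub_mem _ (hLg g y hy) hy
  induction s with
  | zero =>
    intro D B _ sD sB lD lB hd
    change (Xs r L N) ^ 1 * D ≤ B
    rw [pow_one]
    exact (mul_le_mul' hX le_rfl).trans hd
  | succ s ih =>
    intro D B hBD sD sB lD lB hd
    obtain ⟨c, hc⟩ : ∃ c, c = derL s L := ⟨_, rfl⟩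
    have cL : c ≤ L := by rw [hc]; exact Cr_der_le hL s
    have cg : ∀ g, ∀ a ∈ c, r g * a * r g⁻¹ ∈ c := by
      intro g
      rw [hc]
      exact Cr_der_conj (hrg g) (hLg g) s
    have cp : ∀ a ∈ c, Φ * a * Ψ ∈ c := by
      rw [hc]
      exact Cr_der_conj h.qp hLp s
    have ci : ∀ a ∈ L, ∀ b ∈ c, a * b - b * a ∈ c := by
      rw [hc]
      exact Cr_der_ideal hL s
    have cB : ∀ a ∈ c, ∀ x ∈ B, a * x ∈ B := fun a ha x hx => lB a (cL ha) x hx
    have hOp : Op n r Φ Ψ c D B := by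
      refine ⟨hBD, sD, sB, cg, cp, fun a ha x hx => lD a (cL ha) x hx, cB, ?_, ?_, ?_⟩
      · intro a ha b hb x hx
        refine hd (Submodule.mul_mem_mul ?_ hx)
        rw [hc] at ha hb
        exact Submodule.subset_span ⟨a, ha, b, hb, rfl⟩
      · intro a ha
        rw [hLt a (cL ha)]
        exact Submodule.zero_mem _
      · obtain ⟨k, hk⟩ := hLn
        refine ⟨k, ?_⟩
        have h1 : c ^ k ≤ L ^ k := pow_le_pow_left' cL k
        rw [hk] at h1
        rw [le_bot_iff.1 h1, Submodule.bot_mul]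
        exact bot_le
    have hGd := hG O A ζ Φ Ψ r h hS c D B hOp
    -- the filtration
    have f1 : ∀ k, B ≤ Cr_D c B D k := by
      intro k
      cases k with
      | zero => exact hBD
      | succ k => exact le_sup_left
    have f2 : ∀ k, ∀ g, ∀ x ∈ Cr_D c B D k, r g * x ∈ Cr_D c B D k := by
      intro k
      induction k with
      | zero => exact sD.g
      | succ k ihk => exact fun g => Cr_stab (hrg g) (cg g) (sB.g g) (ihk g)
    have f3 : ∀ k, ∀ x ∈ Cr_D c B D k, Φ * x ∈ Cr_D c B D k := by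
      intro k
      induction k with
      | zero => exact sD.p
      | succ k ihk => exact Cr_stab h.qp cp sB.p ihk
    have f4 : ∀ k, ∀ a ∈ L, ∀ x ∈ Cr_D c B D k, a * x ∈ Cr_D c B D k := by
      intro k
      induction k with
      | zero => exact lD
      | succ k ihk => exact fun a ha => Cr_stabL (ci a ha) (lB a ha) (ihk a ha)
    have f5 : ∀ k, Cr_D c B D (k + 1) ≤ Cr_D c B D k := by
      intro k
      refine sup_le (f1 k) ?_
      exact Submodule.mul_le.2 fun u hu y hy => f4 k u (cL hu) y hy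
    have f6 : ∀ k, (Xs r L N) ^ (Mr m s) * Cr_D c B D k ≤ Cr_D c B D (k + 1) := by
      intro k
      refine ih _ _ (f5 k) ⟨f2 k, f3 k⟩ ⟨f2 (k + 1), f3 (k + 1)⟩ (f4 k) (f4 (k + 1)) ?_
      rw [← hc]
      exact le_sup_right
    have f7 : ∀ k, (Xs r L N) ^ (k * Mr m s) * D ≤ Cr_D c B D k := by
      intro k
      induction k with
      | zero =>
        rw [zero_mul, pow_zero, one_mul]
        exact le_rfl
      | succ k ihk =>
        have e : (k + 1) * Mr m s = Mr m s + k * Mr m s := by ring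
        rw [e, pow_add, mul_assoc]
        exact (mul_le_mul' le_rfl ihk).trans (f6 k)
    have f8 : ∀ g ∈ N, ∀ y ∈ Cr_D c B D m, (r g - 1) * y ∈ B := by
      intro g hg y hy
      have h1 := Cr_D_le hBD (Submodule.mul_le.2 cB) m hy
      obtain ⟨b, hb, z, hz, rfl⟩ := Submodule.mem_sup.1 h1
      rw [mul_add]
      refine Submodule.add_mem _ ?_ (hGd g hg z hz)
      rw [sub_mul, one_mul]
      exact Submodule.sub_mem _ (sB.g g b hb) hb
    have f9 : Xs r L N * Cr_D c B D m ≤ B := by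
      have h1 : Xs r L N ≤ Submodule.span O {a | ∃ x ∈ L, ∃ g ∈ N, a = r g * x * r g⁻¹ - x} :=
        le_rfl
      refine Submodule.mul_le.2 ?_
      intro u hu y hy
      have h2 : Submodule.span O {a | ∃ x ∈ L, ∃ g ∈ N, a = r g * x * r g⁻¹ - x} ≤
          B.comap (LinearMap.mulRight O y) := by
        refine Submodule.span_le.2 ?_
        rintro u ⟨x, hx, g, hg, rfl⟩
        rw [SetLike.mem_coe, Submodule.mem_comap, LinearMap.mulRight_apply]
        have e : (r g * x * r g⁻¹ - x) * y =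
            r g * (x * ((r g⁻¹ - 1) * y)) + (r g - 1) * (x * y) := by
          noncomm_ring
        rw [e]
        refine Submodule.add_mem _ ?_ ?_
        · exact sB.g g _ (lB x hx _ (f8 g⁻¹ (N.inv_mem hg) y hy))
        · exact f8 g hg _ (f4 m x hx y hy)
      have h3 := h2 (h1 hu)
      rw [Submodule.mem_comap, LinearMap.mulRight_apply] at h3
      exact h3
    change (Xs r L N) ^ (m * Mr m s + 1) * D ≤ B
    rw [pow_succ', mul_assoc]
    exact (mul_le_mul' le_rfl (f7 m)).trans f9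

theorem cr {G : Type} [Group G] (n : ℕ) (φ : G →* G) (S : Set (ZMod n)) (N : Subgroup G)
    (m : ℕ) (hG : Good n φ S N m) {O A : Type} [CommRing O] [Ring A] [Algebra O A] (ζ : O)
    (Φ Ψ : A) (r : G →* A) (h : GRep n φ ζ Φ Ψ r) (hS : Sup n ζ Φ S) (L : Submodule O A)
    (hL : IsLie L) (hLg : ∀ g, ∀ a ∈ L, r g * a * r g⁻¹ ∈ L) (hLp : ∀ a ∈ L, Φ * a * Ψ ∈ L)
    (hLt : ∀ a ∈ L, ∑ j ∈ Finset.range n, Φ ^ j * a * Ψ ^ j = 0) (hLn : ∃ k : ℕ, L ^ k = ⊥) :
    (Xs r L N) ^ (Mr m (2 ^ (n - 1) - 1)) = ⊥ := by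
  have h0 : derL (2 ^ (n - 1) - 1) L = ⊥ := by
    refine kreknin n ζ h.prim (Cr_conj O h.pq h.qp) ?_ L hL ?_ ?_
    · intro a
      rw [Cr_conj_iter, h.pow, h.dt.psi_pow, one_mul, mul_one]
    · intro a ha
      rw [Cr_conj_apply]
      exact hLp a ha
    · intro a ha
      rw [← hLt a ha]
      exact Finset.sum_congr rfl fun j _ => Cr_conj_iter _ _ j a
  have h1 := Cr_claim n φ S N m hG ζ Φ Ψ r h hS L hL hLg hLp hLt hLn (2 ^ (n - 1) - 1) ⊤ ⊥ bot_le
    ⟨fun _ _ _ => Submodule.mem_top, fun _ _ => Submodule.mem_top⟩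
    ⟨fun g x hx => by
      rw [Submodule.mem_bot] at hx ⊢
      rw [hx, mul_zero], fun x hx => by
      rw [Submodule.mem_bot] at hx ⊢
      rw [hx, mul_zero]⟩
    (fun _ _ _ _ => Submodule.mem_top) (fun a _ x hx => by
      rw [Submodule.mem_bot] at hx ⊢
      rw [hx, mul_zero]) (by rw [h0, Submodule.bot_mul])
  rw [eq_bot_iff]
  refine le_trans ?_ h1
  intro x hx
  have h2 := Submodule.mul_mem_mul hx (Submodule.mem_top : (1 : A) ∈ (⊤ : Submodule O A))
  rw [mul_one] at h2
  exact h2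

end Pool.Agent.ThR
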