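import Pool.Agent.ThR.Deg

/-!
# The augmentation spans of the derived series

STEP: `K ≤ N` normal in `G`, `φ`-invariant, `D` stable: `(ag K)^(m+1) * D ≤ ag ⁅K, K⁆ * D`.
Apply `Good` with `c = ag O r K`, `B = ag O r ⁅K, K⁆ * D`, and `g ∈ K ≤ N`. Check of `Op`:
`comm`: `(r k - 1)(r l - 1) - (r l - 1)(r k - 1) = (r (k l k⁻¹ l⁻¹) - 1) r (l k)`;
`tr`: `Φ^j (r k - 1) Ψ^j = r (φ^j k) - 1` and `∑ (r x_j - 1) - (r (∏ x_j) - 1) ∈ c * c` for lists in `K`
(compare `GrF_list` in `Pool/Agent/OrdS/GrF.lean`), with `∏ φ^j k = 1` (`Split`); `nil`: `c ≤ aug O r`.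
ITERATION: for `K = derG d N` (normal, `φ`-invariant, `≤ N`), `(ag K)^((m+1) a) * D ≤ (ag ⁅K,K⁆)^a * D` by
induction on `a` (with `D' = (ag ⁅K, K⁆)^a * D`, again stable), then induction on `d`.
-/

set_option autoImplicit false

namespace Pool.Agent.ThR

open Pool.Agent.LgP
open scoped commutatorElement

section Eng

variable {O A G : Type} [CommRing O] [Ring A] [Algebra O A] [Group G]

private theorem Eng_mem (r : G →* A) {K : Subgroup G} {k : G} (hk : k ∈ K) :
    r k - 1 ∈ ag O r K :=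
  Submodule.subset_span ⟨k, hk, rfl⟩

/-- a property stable under sums and multiples holds on `ag` if it holds for all `r k - 1` -/
private theorem Eng_le (r : G →* A) {K : Subgroup G} (T : Submodule O A)
    (h : ∀ k ∈ K, r k - 1 ∈ T) : ag O r K ≤ T := by
  unfold ag
  rw [Submodule.span_le]
  rintro a ⟨k, hk, rfl⟩
  exact h k hk

private theorem Eng_ag_le_aug (r : G →* A) (K : Subgroup G) : ag O r K ≤ aug O r :=
  Eng_le r _ fun k _ => Submodule.subset_span ⟨k, rfl⟩

private theorem Eng_comm_normal {K : Subgroup G} (hK : K.Normal) : (⁅K, K⁆ : Subgroup G).Normal :=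
  Subgroup.commutator_normal K K

private theorem Eng_comm_phi (φ : G →* G) {K : Subgroup G} (hK : ∀ g ∈ K, φ g ∈ K) :
    ∀ g ∈ (⁅K, K⁆ : Subgroup G), φ g ∈ (⁅K, K⁆ : Subgroup G) := by
  have h : (⁅K, K⁆ : Subgroup G) ≤ (⁅K, K⁆ : Subgroup G).comap φ := by
    rw [Subgroup.commutator_le]
    intro g hg k hk
    rw [Subgroup.mem_comap, map_commutatorElement]
    exact Subgroup.commutator_mem_commutator (hK g hg) (hK k hk)
  exact fun g hg => h hg

private theorem Eng_phi_mul {n : ℕ} {φ : G →* G} {ζ : O} {Φ Ψ : A} {r : G →* A}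
    (h : GRep n φ ζ Φ Ψ r) (k : G) : Φ * (r k - 1) = (r (φ k) - 1) * Φ := by
  have h1 : Φ * r k = r (φ k) * Φ := by
    rw [← h.eq k, mul_assoc, h.qp, mul_one]
  rw [mul_sub, sub_mul, h1, mul_one, one_mul]

private theorem Eng_g_mul (r : G →* A) (g k : G) :
    r g * (r k - 1) = (r (g * k * g⁻¹) - 1) * r g := by
  rw [mul_sub, sub_mul, mul_one, one_mul, ← map_mul, ← map_mul, inv_mul_cancel_right]

/-- `ag K * D` is stable -/
private theorem Eng_stab {n : ℕ} {φ : G →* G} {ζ : O} {Φ Ψ : A} {r : G →* A}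
    (h : GRep n φ ζ Φ Ψ r) {K : Subgroup G} (hK : K.Normal) (hKφ : ∀ g ∈ K, φ g ∈ K)
    {D : Submodule O A} (hD : Stab r Φ D) : Stab r Φ (ag O r K * D) := by
  constructor
  · intro g x hx
    induction hx using Submodule.mul_induction_on' with
    | mem_mul_mem a ha y hy =>
      unfold ag at ha
      induction ha using Submodule.span_induction with
      | mem a ha =>
        obtain ⟨k, hk, rfl⟩ := ha
        rw [← mul_assoc, Eng_g_mul, mul_assoc]
        exact Submodule.mul_mem_mul (Eng_mem r (hK.conj_mem k hk g)) (hD.g g y hy)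
      | zero => rw [zero_mul, mul_zero]; exact Submodule.zero_mem _
      | add a b _ _ h1 h2 => rw [add_mul, mul_add]; exact Submodule.add_mem _ h1 h2
      | smul c a _ h1 =>
        rw [smul_mul_assoc, mul_smul_comm]; exact Submodule.smul_mem _ c h1
    | add x _ y _ h1 h2 => rw [mul_add]; exact Submodule.add_mem _ h1 h2
  · intro x hx
    induction hx using Submodule.mul_induction_on' with
    | mem_mul_mem a ha y hy =>
      unfold ag at ha
      induction ha using Submodule.span_induction with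
      | mem a ha =>
        obtain ⟨k, hk, rfl⟩ := ha
        rw [← mul_assoc, Eng_phi_mul h, mul_assoc]
        exact Submodule.mul_mem_mul (Eng_mem r (hKφ k hk)) (hD.p y hy)
      | zero => rw [zero_mul, mul_zero]; exact Submodule.zero_mem _
      | add a b _ _ h1 h2 => rw [add_mul, mul_add]; exact Submodule.add_mem _ h1 h2
      | smul c a _ h1 =>
        rw [smul_mul_assoc, mul_smul_comm]; exact Submodule.smul_mem _ c h1
    | add x _ y _ h1 h2 => rw [mul_add]; exact Submodule.add_mem _ h1 h2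

private theorem Eng_stab_pow {n : ℕ} {φ : G →* G} {ζ : O} {Φ Ψ : A} {r : G →* A}
    (h : GRep n φ ζ Φ Ψ r) {K : Subgroup G} (hK : K.Normal) (hKφ : ∀ g ∈ K, φ g ∈ K)
    {D : Submodule O A} (hD : Stab r Φ D) (a : ℕ) : Stab r Φ ((ag O r K) ^ a * D) := by
  induction a with
  | zero => rw [pow_zero, one_mul]; exact hD
  | succ a ih =>
    rw [pow_succ', mul_assoc]
    exact Eng_stab h hK hKφ ih

/-- elements of `ag K` preserve stable submodules -/
private theorem Eng_act (r : G →* A) {Φ : A} {K : Subgroup G} {D : Submodule O A}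
    (hD : Stab r Φ D) {a : A} (ha : a ∈ ag O r K) {x : A} (hx : x ∈ D) : a * x ∈ D := by
  unfold ag at ha
  induction ha using Submodule.span_induction with
  | mem a ha =>
    obtain ⟨k, hk, rfl⟩ := ha
    rw [sub_mul, one_mul]
    exact Submodule.sub_mem _ (hD.g k x hx) hx
  | zero => rw [zero_mul]; exact Submodule.zero_mem _
  | add a b _ _ h1 h2 => rw [add_mul]; exact Submodule.add_mem _ h1 h2
  | smul c a _ h1 => rw [smul_mul_assoc]; exact Submodule.smul_mem _ c h1

private theorem Eng_list (r : G →* A) {K : Subgroup G} (L : List G) (hL : ∀ x ∈ L, x ∈ K) :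
    (L.map fun x => r x - 1).sum - (r L.prod - 1) ∈ ag O r K * ag O r K := by
  induction L with
  | nil => simp
  | cons x L ih =>
    have h2 := ih fun y hy => hL y (List.mem_cons_of_mem _ hy)
    have hx := hL x List.mem_cons_self
    have hp : L.prod ∈ K := Subgroup.list_prod_mem _ fun y hy => hL y (List.mem_cons_of_mem _ hy)
    have h3 : (r x - 1) * (r L.prod - 1) ∈ ag O r K * ag O r K :=
      Submodule.mul_mem_mul (Eng_mem r hx) (Eng_mem r hp)
    have e : r (x :: L).prod - 1 = (r x - 1) + (r L.prod - 1) + (r x - 1) * (r L.prod - 1) := by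
      rw [List.prod_cons, map_mul]; noncomm_ring
    rw [e, List.map_cons, List.sum_cons]
    have e2 : (r x - 1 + (L.map fun x => r x - 1).sum) -
        ((r x - 1) + (r L.prod - 1) + (r x - 1) * (r L.prod - 1)) =
        ((L.map fun x => r x - 1).sum - (r L.prod - 1)) - (r x - 1) * (r L.prod - 1) := by
      abel
    rw [e2]
    exact Submodule.sub_mem _ h2 h3

private theorem Eng_sum_list (f : ℕ → A) (n : ℕ) :
    ∑ j ∈ Finset.range n, f j = ((List.range n).map f).sum := by
  induction n with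
  | zero => simp
  | succ n ih => rw [Finset.sum_range_succ, List.range_succ, List.map_append, List.sum_append, ih]; simp

private theorem Eng_iter {n : ℕ} {φ : G →* G} {ζ : O} {Φ Ψ : A} {r : G →* A}
    (h : GRep n φ ζ Φ Ψ r) (k : G) (j : ℕ) :
    Φ ^ j * (r k - 1) * Ψ ^ j = r ((⇑φ)^[j] k) - 1 := by
  induction j with
  | zero => simp
  | succ j ih =>
    have e : Φ ^ (j + 1) * (r k - 1) * Ψ ^ (j + 1) = Φ * (Φ ^ j * (r k - 1) * Ψ ^ j) * Ψ := by
      rw [pow_succ', pow_succ]
      simp only [mul_assoc]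
    rw [e, ih, mul_sub, sub_mul, h.eq, mul_one, h.pq, Function.iterate_succ_apply']

private theorem Eng_tr {n : ℕ} {φ : G →* G} (hs : Split n φ) {ζ : O} {Φ Ψ : A} {r : G →* A}
    (h : GRep n φ ζ Φ Ψ r) {K : Subgroup G} (hKφ : ∀ g ∈ K, φ g ∈ K) {a : A}
    (ha : a ∈ ag O r K) :
    ∑ j ∈ Finset.range n, Φ ^ j * a * Ψ ^ j ∈ ag O r K * ag O r K := by
  unfold ag at ha
  induction ha using Submodule.span_induction with
  | mem a ha =>
    obtain ⟨k, hk, rfl⟩ := ha
    have hit : ∀ j : ℕ, (⇑φ)^[j] k ∈ K := by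
      intro j
      induction j with
      | zero => exact hk
      | succ j ih => rw [Function.iterate_succ_apply']; exact hKφ _ ih
    rw [Finset.sum_congr rfl fun j _ => Eng_iter h k j, Eng_sum_list]
    have h1 := Eng_list (O := O) r (K := K) ((List.range n).map fun j => (⇑φ)^[j] k) (by
      intro x hx
      obtain ⟨j, -, rfl⟩ := List.mem_map.mp hx
      exact hit j)
    rw [hs k, map_one, sub_self, sub_zero, List.map_map] at h1
    exact h1
  | zero =>
    simp
  | add a b _ _ h1 h2 =>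
    have e : ∑ j ∈ Finset.range n, Φ ^ j * (a + b) * Ψ ^ j =
        ∑ j ∈ Finset.range n, Φ ^ j * a * Ψ ^ j + ∑ j ∈ Finset.range n, Φ ^ j * b * Ψ ^ j := by
      rw [← Finset.sum_add_distrib]
      refine Finset.sum_congr rfl fun j _ => ?_
      rw [mul_add, add_mul]
    rw [e]
    exact Submodule.add_mem _ h1 h2
  | smul c a _ h1 =>
    have e : ∑ j ∈ Finset.range n, Φ ^ j * (c • a) * Ψ ^ j =
        c • ∑ j ∈ Finset.range n, Φ ^ j * a * Ψ ^ j := by
      rw [Finset.smul_sum]
      refine Finset.sum_congr rfl fun j _ => ?_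
      rw [mul_smul_comm, smul_mul_assoc]
    rw [e]
    exact Submodule.smul_mem _ c h1

private theorem Eng_cg (r : G →* A) {K : Subgroup G} (hK : K.Normal) (g : G) {a : A}
    (ha : a ∈ ag O r K) : r g * a * r g⁻¹ ∈ ag O r K := by
  unfold ag at ha
  induction ha using Submodule.span_induction with
  | mem a ha =>
    obtain ⟨k, hk, rfl⟩ := ha
    have e : r g * (r k - 1) * r g⁻¹ = r (g * k * g⁻¹) - 1 := by
      rw [Eng_g_mul, mul_assoc, ← map_mul, mul_inv_cancel, map_one, mul_one]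
    rw [e]
    exact Eng_mem r (hK.conj_mem k hk g)
  | zero => rw [mul_zero, zero_mul]; exact Submodule.zero_mem _
  | add a b _ _ h1 h2 => rw [mul_add, add_mul]; exact Submodule.add_mem _ h1 h2
  | smul c a _ h1 => rw [mul_smul_comm, smul_mul_assoc]; exact Submodule.smul_mem _ c h1

private theorem Eng_cp {n : ℕ} {φ : G →* G} {ζ : O} {Φ Ψ : A} {r : G →* A}
    (h : GRep n φ ζ Φ Ψ r) {K : Subgroup G} (hKφ : ∀ g ∈ K, φ g ∈ K) {a : A}
    (ha : a ∈ ag O r K) : Φ * a * Ψ ∈ ag O r K := by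
  unfold ag at ha
  induction ha using Submodule.span_induction with
  | mem a ha =>
    obtain ⟨k, hk, rfl⟩ := ha
    have e : Φ * (r k - 1) * Ψ = r (φ k) - 1 := by
      rw [Eng_phi_mul h, mul_assoc, h.pq, mul_one]
    rw [e]
    exact Eng_mem r (hKφ k hk)
  | zero => rw [mul_zero, zero_mul]; exact Submodule.zero_mem _
  | add a b _ _ h1 h2 => rw [mul_add, add_mul]; exact Submodule.add_mem _ h1 h2
  | smul c a _ h1 => rw [mul_smul_comm, smul_mul_assoc]; exact Submodule.smul_mem _ c h1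

private theorem Eng_comm (r : G →* A) {Φ : A} {K : Subgroup G} {D : Submodule O A}
    (hD : Stab r Φ D) {a b : A} (ha : a ∈ ag O r K) (hb : b ∈ ag O r K) {x : A} (hx : x ∈ D) :
    (a * b - b * a) * x ∈ ag O r ⁅K, K⁆ * D := by
  unfold ag at ha hb
  induction ha, hb using Submodule.span_induction₂ with
  | mem_mem a b ha hb =>
    obtain ⟨k, hk, rfl⟩ := ha
    obtain ⟨l, hl, rfl⟩ := hb
    have e : (r k - 1) * (r l - 1) - (r l - 1) * (r k - 1) = (r ⁅k, l⁆ - 1) * r (l * k) := by
      have e1 : ⁅k, l⁆ * (l * k) = k * l := by rw [commutatorElement_def]; group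
      rw [sub_mul (r ⁅k, l⁆), one_mul, ← map_mul, e1, map_mul, map_mul]
      noncomm_ring
    rw [e, mul_assoc]
    exact Submodule.mul_mem_mul (Eng_mem r (Subgroup.commutator_mem_commutator hk hl))
      (hD.g _ x hx)
  | zero_left b _ => simp
  | zero_right a _ => simp
  | add_left a b c _ _ _ h1 h2 =>
    have e : ((a + b) * c - c * (a + b)) * x = (a * c - c * a) * x + (b * c - c * b) * x := by
      noncomm_ring
    rw [e]
    exact Submodule.add_mem _ h1 h2
  | add_right a b c _ _ _ h1 h2 =>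
    have e : (a * (b + c) - (b + c) * a) * x = (a * b - b * a) * x + (a * c - c * a) * x := by
      noncomm_ring
    rw [e]
    exact Submodule.add_mem _ h1 h2
  | smul_left t a b _ _ h1 =>
    have e : ((t • a) * b - b * (t • a)) * x = t • ((a * b - b * a) * x) := by
      rw [smul_mul_assoc, mul_smul_comm, ← smul_sub, smul_mul_assoc]
    rw [e]
    exact Submodule.smul_mem _ t h1
  | smul_right t a b _ _ h1 =>
    have e : (a * (t • b) - (t • b) * a) * x = t • ((a * b - b * a) * x) := by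
      rw [smul_mul_assoc, mul_smul_comm, ← smul_sub, smul_mul_assoc]
    rw [e]
    exact Submodule.smul_mem _ t h1

/-- the situation `Op` for `c = ag K`, `B = ag ⁅K, K⁆ * D` -/
private theorem Eng_op {n : ℕ} {φ : G →* G} (hs : Split n φ) {ζ : O} {Φ Ψ : A} {r : G →* A}
    (h : GRep n φ ζ Φ Ψ r) {K : Subgroup G} (hK : K.Normal) (hKφ : ∀ g ∈ K, φ g ∈ K)
    {D : Submodule O A} (hD : Stab r Φ D) : Op n r Φ Ψ (ag O r K) D (ag O r ⁅K, K⁆ * D) := by
  have hB : Stab r Φ (ag O r ⁅K, K⁆ * D) :=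
    Eng_stab h (Eng_comm_normal hK) (Eng_comm_phi φ hKφ) hD
  refine
    { le := ?_
      sD := hD
      sB := hB
      cg := fun g a ha => Eng_cg r hK g ha
      cp := fun a ha => Eng_cp h hKφ ha
      cD := fun a ha x hx => Eng_act r hD ha hx
      cB := fun a ha x hx => Eng_act r hB ha hx
      comm := fun a ha b hb x hx => Eng_comm r hD ha hb hx
      tr := fun a ha => Eng_tr hs h hKφ ha
      nil := ?_ }
  · rw [Submodule.mul_le]
    intro a ha x hx
    exact Eng_act r hD ha hx
  · obtain ⟨M, hM⟩ := h.nil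
    refine ⟨M, ?_⟩
    have h1 : (ag O r K) ^ M ≤ ⊥ := by
      rw [← hM]
      exact pow_le_pow_left' (Eng_ag_le_aug r K) M
    have h2 : (ag O r K) ^ M = ⊥ := le_bot_iff.mp h1
    rw [h2, Submodule.bot_mul]
    exact bot_le

private theorem Eng_step {n : ℕ} {φ : G →* G} (hs : Split n φ) {S : Set (ZMod n)}
    {N : Subgroup G} {m : ℕ} (hG : Good n φ S N m) {ζ : O} {Φ Ψ : A} {r : G →* A}
    (h : GRep n φ ζ Φ Ψ r) (hS : Sup n ζ Φ S) {K : Subgroup G} (hK : K.Normal)
    (hKφ : ∀ g ∈ K, φ g ∈ K) (hKN : K ≤ N) {D : Submodule O A} (hD : Stab r Φ D) :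
    (ag O r K) ^ (m + 1) * D ≤ ag O r ⁅K, K⁆ * D := by
  have h1 := hG O A ζ Φ Ψ r h hS _ _ _ (Eng_op hs h hK hKφ hD)
  rw [pow_succ', mul_assoc, Submodule.mul_le]
  intro a ha x hx
  unfold ag at ha
  induction ha using Submodule.span_induction with
  | mem a ha =>
    obtain ⟨k, hk, rfl⟩ := ha
    exact h1 k (hKN hk) x hx
  | zero => rw [zero_mul]; exact Submodule.zero_mem _
  | add a b _ _ h1 h2 => rw [add_mul]; exact Submodule.add_mem _ h1 h2
  | smul c a _ h1 => rw [smul_mul_assoc]; exact Submodule.smul_mem _ c h1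

private theorem Eng_step_pow {n : ℕ} {φ : G →* G} (hs : Split n φ) {S : Set (ZMod n)}
    {N : Subgroup G} {m : ℕ} (hG : Good n φ S N m) {ζ : O} {Φ Ψ : A} {r : G →* A}
    (h : GRep n φ ζ Φ Ψ r) (hS : Sup n ζ Φ S) {K : Subgroup G} (hK : K.Normal)
    (hKφ : ∀ g ∈ K, φ g ∈ K) (hKN : K ≤ N) {D : Submodule O A} (hD : Stab r Φ D) (a : ℕ) :
    (ag O r K) ^ ((m + 1) * a) * D ≤ (ag O r ⁅K, K⁆) ^ a * D := by
  induction a with
  | zero => simp
  | succ a ih =>
    have e1 : (ag O r K) ^ ((m + 1) * (a + 1)) * D =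
        (ag O r K) ^ (m + 1) * ((ag O r K) ^ ((m + 1) * a) * D) := by
      rw [← mul_assoc, ← pow_add]
      congr 2
      ring
    have e2 : (ag O r ⁅K, K⁆) ^ (a + 1) * D = ag O r ⁅K, K⁆ * ((ag O r ⁅K, K⁆) ^ a * D) := by
      rw [pow_succ', mul_assoc]
    rw [e1, e2]
    exact (mul_le_mul_right ih _).trans (Eng_step hs hG h hS hK hKφ hKN
      (Eng_stab_pow h (Eng_comm_normal hK) (Eng_comm_phi φ hKφ) hD a))

private theorem Eng_der_normal {N : Subgroup G} (hN : N.Normal) (d : ℕ) :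
    (derG d N).Normal := by
  induction d with
  | zero => exact hN
  | succ d ih => exact Eng_comm_normal ih

private theorem Eng_der_phi (φ : G →* G) {N : Subgroup G} (hN : ∀ g ∈ N, φ g ∈ N) (d : ℕ) :
    ∀ g ∈ derG d N, φ g ∈ derG d N := by
  induction d with
  | zero => exact hN
  | succ d ih => exact Eng_comm_phi φ ih

private theorem Eng_der_le {N : Subgroup G} (d : ℕ) : derG d N ≤ N := by
  induction d with
  | zero => exact le_rfl
  | succ d ih =>
    refine le_trans ?_ ih
    show ⁅derG d N, derG d N⁆ ≤ derG d N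
    rw [Subgroup.commutator_le]
    intro g hg k hk
    rw [commutatorElement_def]
    exact Subgroup.mul_mem _ (Subgroup.mul_mem _ (Subgroup.mul_mem _ hg hk)
      (Subgroup.inv_mem _ hg)) (Subgroup.inv_mem _ hk)

end Eng

theorem eng {G : Type} [Group G] (n : ℕ) (φ : G →* G) (hs : Split n φ) (S : Set (ZMod n))
    (N : Subgroup G) (hN : N.Normal) (hNφ : ∀ g ∈ N, φ g ∈ N) (m : ℕ) (hG : Good n φ S N m)
    {O A : Type} [CommRing O] [Ring A] [Algebra O A] (ζ : O) (Φ Ψ : A) (r : G →* A)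
    (h : GRep n φ ζ Φ Ψ r) (hS : Sup n ζ Φ S) (D : Submodule O A) (hD : Stab r Φ D) (d a : ℕ) :
    (ag O r N) ^ ((m + 1) ^ d * a) * D ≤ (ag O r (derG d N)) ^ a * D := by
  induction d generalizing a with
  | zero => simp [derG]
  | succ d ih =>
    have e : (m + 1) ^ (d + 1) * a = (m + 1) ^ d * ((m + 1) * a) := by ring
    rw [e]
    exact (ih ((m + 1) * a)).trans (Eng_step_pow hs hG h hS (Eng_der_normal hN d)
      (Eng_der_phi φ hNφ d) (Eng_der_le d) hD a)

end Pool.Agent.ThR
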