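import Pool.Agent.ThR.Deg
import Pool.Agent.OrdS.GrF

/-!
# The graded algebra of the `K`-filtration

Apply `OrdS.grF_exists` with `X = K`, `E = A` and
`F j = {f | ∀ i, f * ((ag K)^i * ⊤) ≤ (ag K)^(i+j) * ⊤}` (as a submodule: `f` such that for all `i` and all
`x ∈ (ag K)^i * ⊤`, `f * x ∈ (ag K)^(i+j) * ⊤`). `Φ`, `Ψ` (`= Φ^(n-1)`), `r g` lie in `F 0` (`K` normal and
`φ`-invariant), `r k - 1 ∈ F 1` for `k ∈ K`. Since `(ag K)^k0 = ⊥` (`ag K ≤ aug`), `F j = ⊥` for `j ≥ k0`.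
`A'` = the algebra given there, `r' g = cl 0 (r g)`, `Φ' = cl 0 Φ`, `Ψ' = cl 0 Ψ`.
`GRep`: `aug O r'` is the image of `aug O r ≤ F 0` and `cl 0` is multiplicative. `Sup`:
`ide n ζ Φ' i = cl 0 (ide n ζ Φ i)`.
`L = LC (span {cl 1 (r k - 1) | k ∈ K})`: Lie closed; stable under conjugation with `r' g` and `Φ'` since
its generating space is (and conjugation is an algebra automorphism); contained in the Lie closed
submodule `S` of `grF_exists`, so the trace vanishes; nilpotent, since it lies in the span `T 1` of the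
images of all `cl k`, `k ≥ 1` (`T j` = span of the images of all `cl k` with `k ≥ j`; `T i * T j ≤ T (i + j)`,
`T j = ⊥` for `j ≥ k0`).
LAST PART. For `x ∈ ⁅K, N⁆`: `cl 1 (r x - 1) ∈ Xs r' L N`: the `x ∈ K` with this property form a subgroup
(`cl 1 (r (x y) - 1) = cl 1 (r x - 1) + cl 1 (r y - 1)` as `(r x - 1)(r y - 1) ∈ F 2`), and for `k ∈ K`, `g ∈ N`,
`r (k g k⁻¹ g⁻¹) - 1 = (r k - r (g k g⁻¹)) r (g k⁻¹ g⁻¹) ≡ r k - r (g k g⁻¹)` modulo `F 2`, which is
`(r k - 1) - r g (r k - 1) r g⁻¹`. So for `x_1, …, x_M ∈ ⁅K, N⁆` the product of the `r x_i - 1` is in `F M` and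
its class `cl M` is the product of the `cl 1 (r x_i - 1)`, hence `0`, so it lies in `F (M + 1)`.
-/

set_option autoImplicit false

open scoped commutatorElement

namespace Pool.Agent.ThR

open Pool.Agent.LgP

section fil

variable {O A : Type} [CommRing O] [Ring A] [Algebra O A]

/-- the filtration of the algebra -/
private def Gr_F (P : Submodule O A) (j : ℕ) : Submodule O A where
  carrier := {f | ∀ i : ℕ, ∀ x ∈ P ^ i * (⊤ : Submodule O A), f * x ∈ P ^ (i + j) * ⊤}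
  add_mem' := by
    intro a b ha hb i x hx
    rw [add_mul]
    exact Submodule.add_mem _ (ha i x hx) (hb i x hx)
  zero_mem' := by
    intro i x _
    rw [zero_mul]
    exact Submodule.zero_mem _
  smul_mem' := by
    intro c a ha i x hx
    rw [smul_mul_assoc]
    exact Submodule.smul_mem _ c (ha i x hx)

private theorem Gr_F_mem {P : Submodule O A} {j : ℕ} {f : A} : f ∈ Gr_F P j ↔
    ∀ i : ℕ, ∀ x ∈ P ^ i * (⊤ : Submodule O A), f * x ∈ P ^ (i + j) * ⊤ := Iff.rfl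

private theorem Gr_F_one (P : Submodule O A) : (1 : A) ∈ Gr_F P 0 := by
  intro i x hx
  rw [one_mul]
  exact hx

private theorem Gr_F_mul (P : Submodule O A) (i j : ℕ) : Gr_F P i * Gr_F P j ≤ Gr_F P (i + j) := by
  rw [Submodule.mul_le]
  intro a ha b hb l x hx
  rw [mul_assoc]
  have := ha _ _ (hb l x hx)
  have e : l + (i + j) = l + j + i := by ring
  rw [e]
  exact this

private theorem Gr_F_anti (P : Submodule O A) (i : ℕ) : Gr_F P (i + 1) ≤ Gr_F P i := by
  intro f hf l x hx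
  have h1 := hf l x hx
  have e : P ^ (l + (i + 1)) * (⊤ : Submodule O A) = P ^ (l + i) * (P * ⊤) := by
    rw [← mul_assoc, ← pow_succ]
    rfl
  rw [e] at h1
  exact (mul_le_mul_right (le_top : P * (⊤ : Submodule O A) ≤ ⊤) _) h1

private theorem Gr_F_P (P : Submodule O A) : P ≤ Gr_F P 1 := by
  intro f hf i x hx
  rw [pow_succ', mul_assoc]
  exact Submodule.mul_mem_mul hf hx

private theorem Gr_F_conj (P : Submodule O A) (u v : A) (hvu : v * u = 1)
    (hP : ∀ a ∈ P, u * a * v ∈ P) : u ∈ Gr_F P 0 := by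
  intro i
  rw [add_zero]
  induction i with
  | zero =>
    intro x _
    rw [pow_zero, one_mul]
    exact Submodule.mem_top
  | succ i ih =>
    intro x hx
    rw [pow_succ', mul_assoc] at hx ⊢
    induction hx using Submodule.mul_induction_on' with
    | mem_mul_mem a ha y hy =>
      have e : u * (a * y) = (u * a * v) * (u * y) := by
        calc u * (a * y) = u * a * (1 * y) := by rw [one_mul, mul_assoc]
          _ = u * a * (v * u * y) := by rw [hvu]
          _ = (u * a * v) * (u * y) := by simp only [mul_assoc]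
      rw [e]
      exact Submodule.mul_mem_mul (hP a ha) (ih y hy)
    | add x _ y _ h1 h2 =>
      rw [mul_add]
      exact Submodule.add_mem _ h1 h2

private theorem Gr_F_bot (P : Submodule O A) (k j : ℕ) (hk : P ^ k = ⊥) (hkj : k ≤ j) :
    Gr_F P j = ⊥ := by
  rw [eq_bot_iff]
  intro f hf
  have h1 := hf 0 1 (by rw [pow_zero, one_mul]; exact Submodule.mem_top)
  obtain ⟨l, rfl⟩ := Nat.exists_eq_add_of_le hkj
  rw [mul_one, zero_add, pow_add, hk, Submodule.bot_mul, Submodule.bot_mul] at h1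
  exact h1

end fil

section lie

variable {O A : Type} [CommRing O] [Ring A] [Algebra O A]

private theorem Gr_LC_le {P T : Submodule O A} (hT : IsLie T) (hP : P ≤ T) : LC P ≤ T :=
  sInf_le ⟨hT, hP⟩

private theorem Gr_le_LC (P : Submodule O A) : P ≤ LC P := le_sInf fun _ hT => hT.2

private theorem Gr_LC_lie (P : Submodule O A) : IsLie (LC P) := by
  intro a ha b hb
  unfold LC at ha hb ⊢
  rw [Submodule.mem_sInf] at ha hb ⊢
  intro T hT
  exact hT.1 a (ha T hT) b (hb T hT)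

private theorem Gr_LC_conj (P : Submodule O A) (u v : A) (hvu : v * u = 1)
    (hP : ∀ a ∈ P, u * a * v ∈ LC P) : ∀ a ∈ LC P, u * a * v ∈ LC P := by
  let f : A →ₗ[O] A := (LinearMap.mulRight O v).comp (LinearMap.mulLeft O u)
  have hf : ∀ a, f a = u * a * v := fun a => by simp [f]
  have h1 : LC P ≤ (LC P).comap f := by
    refine Gr_LC_le ?_ ?_
    · intro a ha b hb
      rw [Submodule.mem_comap, hf] at ha hb ⊢
      have h2 := Gr_LC_lie P _ ha _ hb
      have e : ∀ x y : A, u * (x * y) * v = (u * x * v) * (u * y * v) := by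
        intro x y
        calc u * (x * y) * v = u * x * (1 * (y * v)) := by rw [one_mul]; simp only [mul_assoc]
          _ = u * x * (v * u * (y * v)) := by rw [hvu]
          _ = (u * x * v) * (u * y * v) := by simp only [mul_assoc]
      rw [mul_sub, sub_mul, e, e]
      exact h2
    · intro a ha
      rw [Submodule.mem_comap, hf]
      exact hP a ha
  intro a ha
  have := h1 ha
  rwa [Submodule.mem_comap, hf] at this

end lie

section aug

variable {O A E G : Type} [CommRing O] [Ring A] [Algebra O A] [Ring E] [Algebra O E] [Group G]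

private theorem Gr_aug_map (θ : A →ₐ[O] E) (r : G →* A) :
    (aug O r).map θ.toLinearMap = aug O ((θ : A →* E).comp r) := by
  unfold aug
  rw [Submodule.map_span, ← Set.range_comp]
  congr 1
  ext x
  simp

private theorem Gr_aug_pow (θ : A →ₐ[O] E) (r : G →* A) (k : ℕ) (h : (aug O r) ^ k = ⊥) :
    (aug O ((θ : A →* E).comp r)) ^ k = ⊥ := by
  rw [← Gr_aug_map, ← Submodule.map_pow, h, Submodule.map_bot]

private theorem Gr_aug_pow_inj (θ : A →ₐ[O] E) (hθ : Function.Injective θ) (r : G →* A) (k : ℕ)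
    (h : (aug O ((θ : A →* E).comp r)) ^ k = ⊥) : (aug O r) ^ k = ⊥ := by
  rw [← Gr_aug_map, ← Submodule.map_pow] at h
  rw [eq_bot_iff]
  intro x hx
  have h1 : θ x ∈ ((aug O r) ^ k).map θ.toLinearMap := ⟨x, hx, rfl⟩
  rw [h, Submodule.mem_bot] at h1
  rw [Submodule.mem_bot]
  exact hθ (by rw [h1, map_zero])

end aug

section grd

variable {O A A' : Type} [CommRing O] [Ring A] [Algebra O A] [Ring A'] [Algebra O A']
  {F : ℕ → Submodule O A} (cl : (k : ℕ) → F k →ₗ[O] A')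

private theorem Gr_cl_congr {k l : ℕ} (h : k = l) (u : F k) (v : F l) (huv : (u : A) = v) :
    cl k u = cl l v := by
  subst h
  congr 1
  exact Subtype.ext huv

/-- span of the pieces of degree at least `j` -/
private def Gr_T (j : ℕ) : Submodule O A' :=
  Submodule.span O {a | ∃ (k : ℕ) (u : F k), j ≤ k ∧ a = cl k u}

private theorem Gr_T_mul (hmem : ∀ (k l : ℕ) (u : F k) (v : F l), (u : A) * v ∈ F (k + l))
    (hmul : ∀ (k l : ℕ) (u : F k) (v : F l) (w : F (k + l)), (w : A) = (u : A) * v →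
      cl k u * cl l v = cl (k + l) w) (i j : ℕ) : Gr_T cl i * Gr_T cl j ≤ Gr_T cl (i + j) := by
  unfold Gr_T
  rw [Submodule.span_mul_span, Submodule.span_le]
  rintro _ ⟨_, ⟨k, u, hk, rfl⟩, _, ⟨l, v, hl, rfl⟩, rfl⟩
  exact Submodule.subset_span ⟨k + l, ⟨_, hmem k l u v⟩, Nat.add_le_add hk hl,
    hmul k l u v ⟨_, hmem k l u v⟩ rfl⟩

private theorem Gr_T_anti {i j : ℕ} (h : i ≤ j) : Gr_T cl j ≤ Gr_T cl i := by
  unfold Gr_T
  refine Submodule.span_mono ?_
  rintro a ⟨k, u, hk, rfl⟩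
  exact ⟨k, u, h.trans hk, rfl⟩

private theorem Gr_T_bot (k0 : ℕ) (hF : ∀ j, k0 ≤ j → F j = ⊥) : Gr_T cl k0 = ⊥ := by
  unfold Gr_T
  rw [Submodule.span_eq_bot]
  rintro a ⟨k, u, hk, rfl⟩
  have h1 : (u : A) = 0 := (Submodule.mem_bot O).mp ((hF k hk).le u.2)
  have h2 : u = 0 := Subtype.ext h1
  rw [h2, map_zero]

private theorem Gr_T_pow (hmem : ∀ (k l : ℕ) (u : F k) (v : F l), (u : A) * v ∈ F (k + l))
    (hmul : ∀ (k l : ℕ) (u : F k) (v : F l) (w : F (k + l)), (w : A) = (u : A) * v →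
      cl k u * cl l v = cl (k + l) w) (L : Submodule O A') (hL : L ≤ Gr_T cl 1) (k : ℕ) :
    L ^ (k + 1) ≤ Gr_T cl (k + 1) := by
  induction k with
  | zero => simpa using hL
  | succ k ih =>
    rw [pow_succ]
    exact (mul_le_mul' ih hL).trans (Gr_T_mul cl hmem hmul _ _)

/-- elements of degree `k` with class in `Y` -/
private def Gr_V (Y : Submodule O A') (k : ℕ) : Submodule O A :=
  (Y.comap (cl k)).map (F k).subtype

private theorem Gr_V_mem {Y : Submodule O A'} {k : ℕ} {a : A} : a ∈ Gr_V cl Y k ↔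
    ∃ h : a ∈ F k, cl k ⟨a, h⟩ ∈ Y := by
  unfold Gr_V
  constructor
  · rintro ⟨u, hu, rfl⟩
    exact ⟨u.2, hu⟩
  · rintro ⟨h, hY⟩
    exact ⟨⟨a, h⟩, hY, rfl⟩

private theorem Gr_V_mul (hmem : ∀ (k l : ℕ) (u : F k) (v : F l), (u : A) * v ∈ F (k + l))
    (hmul : ∀ (k l : ℕ) (u : F k) (v : F l) (w : F (k + l)), (w : A) = (u : A) * v →
      cl k u * cl l v = cl (k + l) w) (Y Z : Submodule O A') (i j : ℕ) :
    Gr_V cl Y i * Gr_V cl Z j ≤ Gr_V cl (Y * Z) (i + j) := by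
  rw [Submodule.mul_le]
  intro a ha b hb
  rw [Gr_V_mem] at ha hb ⊢
  obtain ⟨ha, haY⟩ := ha
  obtain ⟨hb, hbZ⟩ := hb
  refine ⟨hmem i j ⟨a, ha⟩ ⟨b, hb⟩, ?_⟩
  rw [← hmul i j ⟨a, ha⟩ ⟨b, hb⟩ ⟨a * b, _⟩ rfl]
  exact Submodule.mul_mem_mul haY hbZ

private theorem Gr_V_pow (hmem : ∀ (k l : ℕ) (u : F k) (v : F l), (u : A) * v ∈ F (k + l))
    (hmul : ∀ (k l : ℕ) (u : F k) (v : F l) (w : F (k + l)), (w : A) = (u : A) * v →
      cl k u * cl l v = cl (k + l) w) (Y : Submodule O A') (U : Submodule O A)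
    (hU : U ≤ Gr_V cl Y 1) (k : ℕ) : U ^ (k + 1) ≤ Gr_V cl (Y ^ (k + 1)) (k + 1) := by
  induction k with
  | zero => simpa using hU
  | succ k ih =>
    rw [pow_succ, pow_succ Y (k + 1)]
    exact (mul_le_mul' ih hU).trans (Gr_V_mul cl hmem hmul _ _ _ _)

end grd

theorem gr {G : Type} [Group G] (n : ℕ) (φ : G →* G) (hs : Split n φ) (S : Set (ZMod n))
    {O A : Type} [CommRing O] [Ring A] [Algebra O A] (ζ : O) (Φ Ψ : A) (r : G →* A)
    (h : GRep n φ ζ Φ Ψ r) (hS : Sup n ζ Φ S) (K : Subgroup G) (hK : K.Normal)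
    (hKφ : ∀ g ∈ K, φ g ∈ K) :
    ∃ (A' : Type) (_ : Ring A') (_ : Algebra O A') (Φ' Ψ' : A') (r' : G →* A')
      (L : Submodule O A'),
      GRep n φ ζ Φ' Ψ' r' ∧ Sup n ζ Φ' S ∧ IsLie L ∧ (∀ g, ∀ a ∈ L, r' g * a * r' g⁻¹ ∈ L) ∧
      (∀ a ∈ L, Φ' * a * Ψ' ∈ L) ∧
      (∀ a ∈ L, ∑ j ∈ Finset.range n, Φ' ^ j * a * Ψ' ^ j = 0) ∧ (∃ k : ℕ, L ^ k = ⊥) ∧
      ∀ (N : Subgroup G) (M : ℕ), 0 < M → (Xs r' L N) ^ M = ⊥ → ∀ i : ℕ,
        (ag O r ⁅K, N⁆) ^ M * ((ag O r K) ^ i * ⊤) ≤ (ag O r K) ^ (i + M + 1) * ⊤ := by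
  obtain ⟨P, hP⟩ : ∃ P, P = ag O r K := ⟨_, rfl⟩
  rw [← hP]
  have hone := Gr_F_one P
  have hmul := Gr_F_mul P
  have hanti := Gr_F_anti P
  have hmem : ∀ (k l : ℕ) (u : Gr_F P k) (v : Gr_F P l), (u : A) * v ∈ Gr_F P (k + l) :=
    fun k l u v => hmul k l (Submodule.mul_mem_mul u.2 v.2)
  have hgP : ∀ k ∈ K, r k - 1 ∈ P := fun k hk => by
    rw [hP]; exact Submodule.subset_span ⟨k, hk, rfl⟩
  have hg1 : ∀ k ∈ K, r k - 1 ∈ Gr_F P 1 := fun k hk => Gr_F_P P (hgP k hk)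
  have hrinv : ∀ g, r g⁻¹ * r g = 1 := fun g => by rw [← map_mul, inv_mul_cancel, map_one]
  have hrinv' : ∀ g, r g * r g⁻¹ = 1 := fun g => by rw [← map_mul, mul_inv_cancel, map_one]
  have hconjr : ∀ g k, r g * (r k - 1) * r g⁻¹ = r (g * k * g⁻¹) - 1 := by
    intro g k
    rw [mul_sub, sub_mul, mul_one, hrinv', map_mul, map_mul]
  have hconjφ : ∀ k, Φ * (r k - 1) * Ψ = r (φ k) - 1 := by
    intro k
    rw [mul_sub, sub_mul, mul_one, h.pq, h.eq]
  have hrF : ∀ g, r g ∈ Gr_F P 0 := by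
    intro g
    refine Gr_F_conj P (r g) (r g⁻¹) (hrinv g) ?_
    intro a ha
    rw [hP] at ha ⊢
    unfold ag at ha
    induction ha using Submodule.span_induction with
    | mem a ha =>
      obtain ⟨k, hk, rfl⟩ := ha
      rw [hconjr]
      exact Submodule.subset_span ⟨_, hK.conj_mem k hk g, rfl⟩
    | zero => rw [mul_zero, zero_mul]; exact Submodule.zero_mem _
    | add a b _ _ h1 h2 => rw [mul_add, add_mul]; exact Submodule.add_mem _ h1 h2
    | smul c a _ h1 => rw [mul_smul_comm, smul_mul_assoc]; exact Submodule.smul_mem _ c h1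
  have hΦF : Φ ∈ Gr_F P 0 := by
    refine Gr_F_conj P Φ Ψ h.qp ?_
    intro a ha
    rw [hP] at ha ⊢
    unfold ag at ha
    induction ha using Submodule.span_induction with
    | mem a ha =>
      obtain ⟨k, hk, rfl⟩ := ha
      rw [hconjφ]
      exact Submodule.subset_span ⟨_, hKφ k hk, rfl⟩
    | zero => rw [mul_zero, zero_mul]; exact Submodule.zero_mem _
    | add a b _ _ h1 h2 => rw [mul_add, add_mul]; exact Submodule.add_mem _ h1 h2
    | smul c a _ h1 => rw [mul_smul_comm, smul_mul_assoc]; exact Submodule.smul_mem _ c h1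
  let R : Subalgebra O A :=
    { carrier := Gr_F P 0
      mul_mem' := fun {a b} ha hb => hmem 0 0 ⟨a, ha⟩ ⟨b, hb⟩
      add_mem' := fun {a b} ha hb => Submodule.add_mem _ ha hb
      algebraMap_mem' := fun c => by
        rw [Algebra.algebraMap_eq_smul_one]
        exact Submodule.smul_mem _ c hone }
  have hΨF : Ψ ∈ Gr_F P 0 := by
    rw [h.dt.psi]
    exact R.pow_mem (x := Φ) hΦF (n - 1)
  have hnilP : ∃ k, P ^ k = ⊥ := by
    obtain ⟨k, hk⟩ := h.nil
    refine ⟨k, ?_⟩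
    rw [eq_bot_iff, ← hk]
    refine pow_le_pow_left' ?_ _
    rw [hP]
    unfold ag aug
    refine Submodule.span_mono ?_
    rintro a ⟨k, hk, rfl⟩
    exact ⟨k, rfl⟩
  obtain ⟨k0, hk0⟩ := hnilP
  have hFbot : ∀ j, k0 ≤ j → Gr_F P j = ⊥ := fun j hj => Gr_F_bot P k0 j hk0 hj
  -- the restriction of `φ` to `K`
  let φK : K →* K := (φ.comp K.subtype).codRestrict K (fun k => hKφ k k.2)
  have hφK : ∀ k : K, ((φK k : K) : G) = φ k := fun k => rfl
  have hφKit : ∀ (j : ℕ) (k : K), (((⇑φK)^[j] k : K) : G) = (⇑φ)^[j] k := by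
    intro j k
    induction j with
    | zero => rfl
    | succ j ih => rw [Function.iterate_succ_apply', Function.iterate_succ_apply', hφK, ih]
  have hsK : Split n φK := by
    intro g
    apply Subtype.ext
    have h1 := hs (g : G)
    have e : (((List.range n).map fun j => (⇑φK)^[j] g).prod : G) =
        ((List.range n).map fun j => (⇑φ)^[j] (g : G)).prod := by
      rw [Subgroup.val_list_prod, List.map_map]
      congr 1
      refine List.map_congr_left fun j _ => ?_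
      exact hφKit j g
    rw [e, h1]
    rfl
  obtain ⟨A', iR, iA, cl, S', hcl0, hclmul, hclone, hSL, hScl, hStr⟩ :=
    OrdS.grF_exists n (Gr_F P) hone hmul hanti Φ Ψ hΦF hΨF h.pq h.qp φK (r.comp K.subtype)
      (fun x => hg1 x x.2) (fun x => h.eq x) hsK
  have hcl : ∀ (k : ℕ) (u v : Gr_F P k), (u : A) - v ∈ Gr_F P (k + 1) → cl k u = cl k v := by
    intro k u v huv
    rw [← sub_eq_zero, ← map_sub, hcl0]
    exact huv
  let θ : R →ₐ[O] A' := AlgHom.ofLinearMap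
    { toFun := fun u => cl 0 ⟨u.1, u.2⟩
      map_add' := fun u v => map_add (cl 0) ⟨u.1, u.2⟩ ⟨v.1, v.2⟩
      map_smul' := fun c u => map_smul (cl 0) c ⟨u.1, u.2⟩ } hclone
    (fun u v => (hclmul 0 0 ⟨u.1, u.2⟩ ⟨v.1, v.2⟩ ⟨u.1 * v.1, (u * v).2⟩ rfl).symm)
  have hθ : ∀ (u : A) (hu : u ∈ R), θ ⟨u, hu⟩ = cl 0 ⟨u, hu⟩ := fun u hu => rfl
  let rR : G →* R :=
    { toFun := fun g => ⟨r g, hrF g⟩
      map_one' := Subtype.ext (map_one r)
      map_mul' := fun a b => Subtype.ext (map_mul r a b) }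
  let ΦR : R := ⟨Φ, hΦF⟩
  let ΨR : R := ⟨Ψ, hΨF⟩
  let r' : G →* A' := (θ : R →* A').comp rR
  have hr' : ∀ g, r' g = cl 0 ⟨r g, hrF g⟩ := fun g => rfl
  have hcl3 : ∀ (k : ℕ) (u : Gr_F P 0) (v : Gr_F P k) (w : Gr_F P 0) (y : Gr_F P k),
      (y : A) = u * v * w → cl 0 u * cl k v * cl 0 w = cl k y := by
    intro k u v w y hy
    have h1 : (u : A) * v ∈ Gr_F P (0 + k) := hmem 0 k u v
    have h2 : (u : A) * v * w ∈ Gr_F P (0 + k + 0) := hmem (0 + k) 0 ⟨_, h1⟩ w
    rw [hclmul 0 k u v ⟨_, h1⟩ rfl, hclmul (0 + k) 0 ⟨_, h1⟩ w ⟨_, h2⟩ rfl]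
    exact Gr_cl_congr cl (by omega) _ _ hy.symm
  -- the Lie part
  obtain ⟨P1, hP1⟩ : ∃ P1 : Submodule O A', P1 = Submodule.span O
    {a | ∃ (k : G) (hk : k ∈ K), a = cl 1 ⟨r k - 1, hg1 k hk⟩} := ⟨_, rfl⟩
  have hP1mem : ∀ (k : G) (hk : k ∈ K), cl 1 ⟨r k - 1, hg1 k hk⟩ ∈ P1 := fun k hk => by
    rw [hP1]; exact Submodule.subset_span ⟨k, hk, rfl⟩
  have hspan : ∀ (u v : A'), (∀ (k : G) (hk : k ∈ K), u * cl 1 ⟨r k - 1, hg1 k hk⟩ * v ∈ P1) →
      ∀ a ∈ P1, u * a * v ∈ P1 := by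
    intro u v huv a ha
    rw [hP1] at ha
    induction ha using Submodule.span_induction with
    | mem a ha =>
      obtain ⟨k, hk, rfl⟩ := ha
      exact huv k hk
    | zero => rw [mul_zero, zero_mul]; exact Submodule.zero_mem _
    | add a b _ _ h1 h2 => rw [mul_add, add_mul]; exact Submodule.add_mem _ h1 h2
    | smul c a _ h1 => rw [mul_smul_comm, smul_mul_assoc]; exact Submodule.smul_mem _ c h1
  have hPg : ∀ g (k : G) (hk : k ∈ K), r' g * cl 1 ⟨r k - 1, hg1 k hk⟩ * r' g⁻¹ =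
      cl 1 ⟨r (g * k * g⁻¹) - 1, hg1 _ (hK.conj_mem k hk g)⟩ := by
    intro g k hk
    rw [hr', hr']
    exact hcl3 1 _ _ _ _ (hconjr g k).symm
  have hPφ : ∀ (k : G) (hk : k ∈ K), θ ΦR * cl 1 ⟨r k - 1, hg1 k hk⟩ * θ ΨR =
      cl 1 ⟨r (φ k) - 1, hg1 _ (hKφ k hk)⟩ := by
    intro k hk
    exact hcl3 1 ⟨Φ, hΦF⟩ _ ⟨Ψ, hΨF⟩ _ (hconjφ k).symm
  have hr'inv : ∀ g, r' g⁻¹ * r' g = 1 := fun g => by rw [← map_mul, inv_mul_cancel, map_one]
  have hqp' : θ ΨR * θ ΦR = 1 := by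
    rw [← map_mul, show ΨR * ΦR = 1 from Subtype.ext h.qp, map_one]
  have hpq' : θ ΦR * θ ΨR = 1 := by
    rw [← map_mul, show ΦR * ΨR = 1 from Subtype.ext h.pq, map_one]
  have hLS : LC P1 ≤ S' := by
    refine Gr_LC_le hSL ?_
    rw [hP1, Submodule.span_le]
    rintro a ⟨k, hk, rfl⟩
    exact hScl 0 ⟨k, hk⟩ (hg1 k hk)
  have hLT : LC P1 ≤ Gr_T cl 1 := by
    refine Gr_LC_le ?_ ?_
    · intro a ha b hb
      have h1 := Gr_T_mul cl hmem hclmul 1 1
      have h2 := Gr_T_anti cl (i := 1) (j := 1 + 1) (by omega)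
      exact Submodule.sub_mem _ (h2 (h1 (Submodule.mul_mem_mul ha hb)))
        (h2 (h1 (Submodule.mul_mem_mul hb ha)))
    · rw [hP1]
      unfold Gr_T
      refine Submodule.span_mono ?_
      rintro a ⟨k, hk, rfl⟩
      exact ⟨1, _, le_rfl, rfl⟩
  refine ⟨A', iR, iA, θ ΦR, θ ΨR, r', LC P1, ?_, ?_, Gr_LC_lie P1, ?_, ?_, ?_, ?_, ?_⟩
  · -- GRep
    refine ⟨h.prim, hpq', hqp', ?_, ?_, ?_⟩
    · rw [← map_pow, show ΦR ^ n = 1 from Subtype.ext (by simpa [ΦR] using h.pow), map_one]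
    · intro g
      show θ ΦR * θ (rR g) * θ ΨR = θ (rR (φ g))
      rw [← map_mul, ← map_mul]
      congr 1
      exact Subtype.ext (h.eq g)
    · obtain ⟨k, hk⟩ := h.nil
      refine ⟨k, Gr_aug_pow θ rR k ?_⟩
      refine Gr_aug_pow_inj R.val Subtype.val_injective rR k ?_
      exact hk
  · -- Sup
    intro i hi
    have h1 : ide n ζ (θ ΦR) i = θ (ide n ζ ΦR i) := by
      unfold ide
      rw [map_smul, map_sum]
      simp only [map_smul, map_pow]
    have h2 : ide n ζ ΦR i = 0 := by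
      apply Subtype.val_injective
      have h3 : ((ide n ζ ΦR i : R) : A) = ide n ζ Φ i := by
        show R.val (ide n ζ ΦR i) = ide n ζ Φ i
        unfold ide
        rw [map_smul, map_sum]
        simp only [map_smul, map_pow]
        rfl
      rw [h3, hS i hi]
      rfl
    rw [h1, h2, map_zero]
  · intro g
    refine Gr_LC_conj P1 _ _ (hr'inv g) fun a ha => Gr_le_LC P1 ?_
    refine hspan _ _ ?_ a ha
    intro k hk
    rw [hPg g k hk]
    exact hP1mem _ (hK.conj_mem k hk g)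
  · refine Gr_LC_conj P1 _ _ hqp' fun a ha => Gr_le_LC P1 ?_
    refine hspan _ _ ?_ a ha
    intro k hk
    rw [hPφ k hk]
    exact hP1mem _ (hKφ k hk)
  · intro a ha
    exact hStr a (hLS ha)
  · refine ⟨k0 + 1, ?_⟩
    rw [eq_bot_iff]
    refine (Gr_T_pow cl hmem hclmul (LC P1) hLT k0).trans ?_
    rw [Gr_T_bot cl (k0 + 1) fun j hj => hFbot j (by omega)]
  · -- last part
    intro N M hM hX i
    have hKN : ⁅K, N⁆ ≤ K := Subgroup.commutator_le_left K N
    have hprod : ∀ x ∈ K, ∀ y ∈ K, (r x - 1) * (r y - 1) ∈ Gr_F P (1 + 1) := fun x hx y hy =>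
      hmem 1 1 ⟨_, hg1 x hx⟩ ⟨_, hg1 y hy⟩
    have hXcl : ∀ (x : G) (hx : x ∈ K), x ∈ ⁅K, N⁆ →
        cl 1 ⟨r x - 1, hg1 x hx⟩ ∈ Xs r' (LC P1) N := by
      let Y : Subgroup G :=
        { carrier := {x | ∃ hx : x ∈ K, cl 1 ⟨r x - 1, hg1 x hx⟩ ∈ Xs r' (LC P1) N}
          mul_mem' := by
            rintro x y ⟨hx, hx'⟩ ⟨hy, hy'⟩
            refine ⟨K.mul_mem hx hy, ?_⟩
            have h1 : cl 1 ⟨r (x * y) - 1, hg1 _ (K.mul_mem hx hy)⟩ =
                cl 1 (⟨r x - 1, hg1 x hx⟩ + ⟨r y - 1, hg1 y hy⟩) := by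
              apply hcl
              have e : (r (x * y) - 1) - ((r x - 1) + (r y - 1)) = (r x - 1) * (r y - 1) := by
                rw [map_mul]; noncomm_ring
              show (r (x * y) - 1) - ((r x - 1) + (r y - 1)) ∈ _
              rw [e]
              exact hprod x hx y hy
            rw [h1, map_add]
            exact Submodule.add_mem _ hx' hy'
          one_mem' := by
            refine ⟨K.one_mem, ?_⟩
            have h1 : (⟨r 1 - 1, hg1 1 K.one_mem⟩ : Gr_F P 1) = 0 := by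
              apply Subtype.ext
              show r 1 - 1 = 0
              rw [map_one, sub_self]
            rw [h1, map_zero]
            exact Submodule.zero_mem _
          inv_mem' := by
            rintro x ⟨hx, hx'⟩
            refine ⟨K.inv_mem hx, ?_⟩
            have h1 : cl 1 ⟨r x⁻¹ - 1, hg1 _ (K.inv_mem hx)⟩ =
                cl 1 (-⟨r x - 1, hg1 x hx⟩) := by
              apply hcl
              have e : (r x⁻¹ - 1) - (-(r x - 1)) = -((r x - 1) * (r x⁻¹ - 1)) := by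
                have e2 : (r x - 1) * (r x⁻¹ - 1) = r x * r x⁻¹ - r x - r x⁻¹ + 1 := by
                  noncomm_ring
                rw [e2, hrinv']
                noncomm_ring
              show (r x⁻¹ - 1) - (-(r x - 1)) ∈ _
              rw [e]
              exact Submodule.neg_mem _ (hprod x hx _ (K.inv_mem hx))
            rw [h1, map_neg]
            exact Submodule.neg_mem _ hx' }
      have hY : ⁅K, N⁆ ≤ Y := by
        rw [Subgroup.commutator_le]
        intro k hk g hg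
        have hkg : g * k * g⁻¹ ∈ K := hK.conj_mem k hk g
        have hkg' : g * k⁻¹ * g⁻¹ ∈ K := hK.conj_mem _ (K.inv_mem hk) g
        have hx : ⁅k, g⁆ ∈ K := hKN (Subgroup.commutator_mem_commutator hk hg)
        refine ⟨hx, ?_⟩
        have e1 : r ⁅k, g⁆ = r k * r (g * k⁻¹ * g⁻¹) := by
          rw [← map_mul]
          congr 1
          rw [commutatorElement_def]
          group
        have e2 : r (g * k * g⁻¹) * r (g * k⁻¹ * g⁻¹) = 1 := by
          rw [← map_mul]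
          have : g * k * g⁻¹ * (g * k⁻¹ * g⁻¹) = 1 := by group
          rw [this, map_one]
        have h1 : cl 1 ⟨r ⁅k, g⁆ - 1, hg1 _ hx⟩ =
            cl 1 (⟨r k - 1, hg1 k hk⟩ - ⟨r (g * k * g⁻¹) - 1, hg1 _ hkg⟩) := by
          apply hcl
          have e : (r ⁅k, g⁆ - 1) - ((r k - 1) - (r (g * k * g⁻¹) - 1)) =
              (r k - 1) * (r (g * k⁻¹ * g⁻¹) - 1) -
                (r (g * k * g⁻¹) - 1) * (r (g * k⁻¹ * g⁻¹) - 1) := by
            have e3 : (r k - 1) * (r (g * k⁻¹ * g⁻¹) - 1) -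
                (r (g * k * g⁻¹) - 1) * (r (g * k⁻¹ * g⁻¹) - 1) =
                r k * r (g * k⁻¹ * g⁻¹) - r (g * k * g⁻¹) * r (g * k⁻¹ * g⁻¹) -
                  r k + r (g * k * g⁻¹) := by noncomm_ring
            rw [e3, e2, e1]
            noncomm_ring
          show (r ⁅k, g⁆ - 1) - ((r k - 1) - (r (g * k * g⁻¹) - 1)) ∈ _
          rw [e]
          exact Submodule.sub_mem _ (hprod k hk _ hkg') (hprod _ hkg _ hkg')
        rw [h1, map_sub, ← hPg g k hk, ← neg_sub]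
        refine Submodule.neg_mem _ ?_
        exact Submodule.subset_span ⟨_, Gr_le_LC P1 (hP1mem k hk), g, hg, rfl⟩
      intro x hx hxKN
      obtain ⟨hx1, hx2⟩ := hY hxKN
      exact hx2
    have hU : ag O r ⁅K, N⁆ ≤ Gr_V cl (Xs r' (LC P1) N) 1 := by
      unfold ag
      rw [Submodule.span_le]
      rintro a ⟨x, hx, rfl⟩
      exact (Gr_V_mem cl).mpr ⟨hg1 x (hKN hx), hXcl x (hKN hx) hx⟩
    obtain ⟨M', rfl⟩ : ∃ M', M = M' + 1 := ⟨M - 1, by omega⟩
    have hV := Gr_V_pow cl hmem hclmul (Xs r' (LC P1) N) (ag O r ⁅K, N⁆) hU M'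
    rw [hX] at hV
    rw [Submodule.mul_le]
    intro u hu x hx
    obtain ⟨hu1, hu2⟩ := (Gr_V_mem cl).mp (hV hu)
    rw [Submodule.mem_bot, hcl0] at hu2
    have := hu2 i x hx
    have e : i + (M' + 1) + 1 = i + (M' + 1 + 1) := by ring
    rw [e]
    exact this

end Pool.Agent.ThR
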