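import Pool.Agent.ThR.GoodT
import Pool.Agent.ThR.Eng
import Pool.Agent.ThR.Gr
import Pool.Agent.ThR.Cr
import Pool.Agent.ThR.Comb

/-!
# Theorem R

`thR_good`: if `Good n φ S N m` then `derG w N` acts trivially on all graded algebras with support in `S`,
`w` depending on `n` and `m` only. `thR`: if `N` acts trivially on all graded algebras with support in
`Per n S` then `derG w N` acts trivially on all graded algebras with support in `S`.
-/

set_option autoImplicit false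

namespace Pool.Agent.ThR

open Pool.Agent.LgP

private theorem Main_ag_mono {O A G : Type} [CommRing O] [Ring A] [Algebra O A] [Group G]
    (r : G →* A) {K N : Subgroup G} (h : K ≤ N) : ag O r K ≤ ag O r N := by
  unfold ag
  refine Submodule.span_mono ?_
  rintro a ⟨k, hk, rfl⟩
  exact ⟨k, h hk, rfl⟩

private theorem Main_ag_le_aug {O A G : Type} [CommRing O] [Ring A] [Algebra O A] [Group G]
    (r : G →* A) (K : Subgroup G) : ag O r K ≤ aug O r := by
  unfold ag aug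
  refine Submodule.span_mono ?_
  rintro a ⟨k, hk, rfl⟩
  exact ⟨k, rfl⟩

private theorem Main_iter {O A : Type} [CommRing O] [Ring A] [Algebra O A] (P Q : Submodule O A)
    (M : ℕ) (h : ∀ i : ℕ, Q ^ M * (P ^ i * ⊤) ≤ P ^ (i + M + 1) * ⊤) (a : ℕ) :
    Q ^ (M * a) * ⊤ ≤ P ^ ((M + 1) * a) * ⊤ := by
  induction a with
  | zero => simp
  | succ a ih =>
    have e1 : Q ^ (M * (a + 1)) * ⊤ = Q ^ M * (Q ^ (M * a) * (⊤ : Submodule O A)) := by
      rw [← mul_assoc, ← pow_add]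
      congr 2
      ring
    have e2 : (M + 1) * (a + 1) = (M + 1) * a + M + 1 := by ring
    rw [e1, e2]
    exact (mul_le_mul_right ih _).trans (h _)

private theorem Main_chain {O A G : Type} [CommRing O] [Ring A] [Algebra O A] [Group G]
    (r : G →* A) (N : Subgroup G) (M : ℕ)
    (h : ∀ j i : ℕ, (ag O r (lcs N (j + 1))) ^ M * ((ag O r (lcs N j)) ^ i * ⊤) ≤
      (ag O r (lcs N j)) ^ (i + M + 1) * ⊤) (j : ℕ) : ∀ a : ℕ,
    (ag O r (lcs N j)) ^ (M ^ j * a) * ⊤ ≤ (ag O r N) ^ ((M + 1) ^ j * a) * ⊤ := by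
  induction j with
  | zero =>
    intro a
    simp [lcs]
  | succ j ih =>
    intro a
    have h1 := Main_iter _ _ M (h j) (M ^ j * a)
    have h2 := ih ((M + 1) * a)
    have e1 : M * (M ^ j * a) = M ^ (j + 1) * a := by ring
    have e2 : (M + 1) * (M ^ j * a) = M ^ j * ((M + 1) * a) := by ring
    have e3 : (M + 1) ^ j * ((M + 1) * a) = (M + 1) ^ (j + 1) * a := by ring
    rw [e1, e2] at h1
    rw [e3] at h2
    exact h1.trans h2

private theorem Main_bot {O A : Type} [CommRing O] [Ring A] [Algebra O A] (P : Submodule O A)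
    (hP : ∃ K : ℕ, P ^ K = ⊥) (W V : ℕ) (hWV : W < V) (h : P ^ W * ⊤ ≤ P ^ V * ⊤) :
    P ^ W = ⊥ := by
  have hanti : ∀ k j : ℕ, P ^ (k + j) * (⊤ : Submodule O A) ≤ P ^ k * ⊤ := by
    intro k j
    rw [pow_add, mul_assoc]
    exact mul_le_mul_right le_top _
  have h1 : P ^ W * (⊤ : Submodule O A) ≤ P ^ (W + 1) * ⊤ := by
    obtain ⟨j, rfl⟩ := Nat.exists_eq_add_of_lt hWV
    refine h.trans ?_
    have e : W + j + 1 = (W + 1) + j := by ring
    rw [e]
    exact hanti _ _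
  have h2 : ∀ j : ℕ, P ^ W * (⊤ : Submodule O A) ≤ P ^ (W + j) * ⊤ := by
    intro j
    induction j with
    | zero => exact le_rfl
    | succ j ih =>
      refine ih.trans ?_
      have e1 : P ^ (W + j) * (⊤ : Submodule O A) = P ^ j * (P ^ W * ⊤) := by
        rw [← mul_assoc, ← pow_add, add_comm]
      have e2 : P ^ (W + (j + 1)) * (⊤ : Submodule O A) = P ^ j * (P ^ (W + 1) * ⊤) := by
        rw [← mul_assoc, ← pow_add]
        congr 2
        ring
      rw [e1, e2]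
      exact mul_le_mul_right h1 _
  obtain ⟨K, hK⟩ := hP
  have h3 : P ^ W * (⊤ : Submodule O A) ≤ ⊥ := by
    refine (h2 K).trans ?_
    rw [pow_add, hK, Submodule.mul_bot, Submodule.bot_mul]
  rw [eq_bot_iff]
  intro x hx
  have h4 := h3 (Submodule.mul_mem_mul hx (Submodule.mem_top (x := (1 : A))))
  rwa [mul_one] at h4

theorem thR_good (n m : ℕ) : ∃ w : ℕ, ∀ (G : Type) [Group G] (φ : G →* G),
    Split n φ → ∀ (S : Set (ZMod n)) (N : Subgroup G), N.Normal → (∀ g ∈ N, φ g ∈ N) →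
    Good n φ S N m → Triv n φ S (derG w N) := by
  obtain ⟨M, hMdef⟩ : ∃ M, M = Mr m (2 ^ (n - 1) - 1) := ⟨_, rfl⟩
  have hM : 0 < M := hMdef ▸ Mr_pos _ _
  obtain ⟨d, hd⟩ := num m M hM
  obtain ⟨t, ht⟩ : ∃ t, t = 2 ^ d - 1 := ⟨_, rfl⟩
  rw [← ht] at hd
  obtain ⟨W, hW⟩ : ∃ W, W = (m + 1) ^ d * M ^ t := ⟨_, rfl⟩
  rw [← hW] at hd
  refine ⟨W, ?_⟩
  intro G _ φ hs S N hN hNφ hG O A _ _ _ ζ Φ Ψ r h hS
  have hsix : ∀ j i : ℕ, (ag O r (lcs N (j + 1))) ^ M * ((ag O r (lcs N j)) ^ i * ⊤) ≤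
      (ag O r (lcs N j)) ^ (i + M + 1) * ⊤ := by
    intro j i
    obtain ⟨A', _, _, Φ', Ψ', r', L, h', hS', hL, hLg, hLp, hLt, hLn, hfin⟩ :=
      gr n φ hs S ζ Φ Ψ r h hS (lcs N j) (lcs_normal N hN j) (lcs_phi φ N hNφ j)
    have hX := cr n φ S N m hG ζ Φ' Ψ' r' h' hS' L hL hLg hLp hLt hLn
    rw [← hMdef] at hX
    exact hfin N M hM hX i
  have hchain := Main_chain r N M hsix t 1
  rw [mul_one, mul_one] at hchain
  have hen := eng n φ hs S N hN hNφ m hG ζ Φ Ψ r h hS ⊤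
    ⟨fun _ _ _ => Submodule.mem_top, fun _ _ => Submodule.mem_top⟩ d (M ^ t)
  rw [← hW] at hen
  have hmono : (ag O r (derG d N)) ^ (M ^ t) * (⊤ : Submodule O A) ≤
      (ag O r (lcs N t)) ^ (M ^ t) * ⊤ := by
    refine mul_le_mul_left ?_ _
    refine pow_le_pow_left' ?_ _
    rw [ht]
    exact Main_ag_mono r (derG_le_lcs N hN d)
  have hnil : ∃ K : ℕ, (ag O r N) ^ K = ⊥ := by
    obtain ⟨K, hK⟩ := h.nil
    refine ⟨K, ?_⟩
    rw [eq_bot_iff, ← hK]
    exact pow_le_pow_left' (Main_ag_le_aug r N) _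
  have hbot := Main_bot (ag O r N) hnil W ((M + 1) ^ t) hd ((hen.trans hmono).trans hchain)
  intro g hg
  have h1 := ag_lcs (O := O) r N (2 ^ W - 1) g (derG_le_lcs N hN W hg)
  have e : 2 ^ W - 1 + 1 = W + (2 ^ W - W) := by
    have h3 : W < 2 ^ W := Nat.lt_two_pow_self
    omega
  rw [e, pow_add, hbot, Submodule.bot_mul, Submodule.mem_bot] at h1
  exact sub_eq_zero.mp h1

theorem thR (n : ℕ) (hn : 0 < n) : ∃ w : ℕ, ∀ (G : Type) [Group G] (φ : G →* G),
    Split n φ → ∀ (S : Set (ZMod n)) (N : Subgroup G), N.Normal → (∀ g ∈ N, φ g ∈ N) →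
    Triv n φ (Per n S) N → Triv n φ S (derG w N) := by
  obtain ⟨w, hw⟩ := thR_good n (n * n)
  exact ⟨w, fun G _ φ hs S N hN hNφ h => hw G φ hs S N hN hNφ (good_of_triv n hn φ S N h)⟩

end Pool.Agent.ThR
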