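import Mathlib
import Pool.Agent.LgP.Defs

/-!
# ThR: Theorem R (helper84, note 2151) for MP_2cd00b_al

`G` is a group, `φ : G →* G` with `φ^n = 1`, `Split n φ`. A graded `G`-algebra is an `O`-algebra `A` with a
homomorphism `r : G →* A` (into the multiplicative monoid) and `Φ, Ψ : A`, `Φ Ψ = Ψ Φ = 1`, `Φ^n = 1`,
`Φ r(g) Ψ = r(φ g)`, the augmentation span `aug O r` being nilpotent (`GRep`). All modules are left ideals
(more generally submodules of `A` stable under left multiplication by `r(g)` and `Φ`), or quotients of such.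
`ide n ζ Φ i` is the projection to the degree `i` part (eigenvalue `ζ^i` of `Φ`).
-/

set_option autoImplicit false

namespace Pool.Agent.ThR

open Pool.Agent.LgP

/-- the projection onto the eigenspace of `Φ` with eigenvalue `ζ^i` -/
noncomputable def ide {O A : Type} [CommRing O] [Ring A] [Algebra O A] (n : ℕ) (ζ : O) (Φ : A)
    (i : ℕ) : A :=
  Ring.inverse (n : O) • ∑ j ∈ Finset.range n, ζ ^ ((n - 1) * i * j) • Φ ^ j

/-- graded `G`-algebras -/
structure GRep {O A G : Type} [CommRing O] [Ring A] [Algebra O A] [Group G] (n : ℕ) (φ : G →* G)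
    (ζ : O) (Φ Ψ : A) (r : G →* A) : Prop where
  prim : Prim O n ζ
  pq : Φ * Ψ = 1
  qp : Ψ * Φ = 1
  pow : Φ ^ n = 1
  eq : ∀ g, Φ * r g * Ψ = r (φ g)
  nil : ∃ K : ℕ, (aug O r) ^ K = ⊥

/-- all degrees which occur lie in `S` -/
def Sup {O A : Type} [CommRing O] [Ring A] [Algebra O A] (n : ℕ) (ζ : O) (Φ : A)
    (S : Set (ZMod n)) : Prop :=
  ∀ i : ℕ, (i : ZMod n) ∉ S → ide n ζ Φ i = 0

/-- `N` acts trivially on all graded `G`-algebras with support in `S` -/
def Triv {G : Type} [Group G] (n : ℕ) (φ : G →* G) (S : Set (ZMod n)) (N : Subgroup G) : Prop :=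
  ∀ (O A : Type) [CommRing O] [Ring A] [Algebra O A] (ζ : O) (Φ Ψ : A) (r : G →* A),
    GRep n φ ζ Φ Ψ r → Sup n ζ Φ S → ∀ g ∈ N, r g = 1

/-- the union of all cosets of nonzero subgroups contained in `S` -/
def Per (n : ℕ) (S : Set (ZMod n)) : Set (ZMod n) :=
  {c | ∃ b : ZMod n, b ≠ 0 ∧ ∀ k : ℕ, c + k • b ∈ S}

/-- the span of the elements `r k - 1`, `k` in the subgroup `K` -/
def ag (O : Type) {A G : Type} [CommRing O] [Ring A] [Algebra O A] [Group G] (r : G →* A)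
    (K : Subgroup G) : Submodule O A :=
  Submodule.span O {a | ∃ k ∈ K, a = r k - 1}

/-- `D` is a graded `G`-submodule of `A` (for left multiplication) -/
structure Stab {O A G : Type} [CommRing O] [Ring A] [Algebra O A] [Group G] (r : G →* A) (Φ : A)
    (D : Submodule O A) : Prop where
  g : ∀ g, ∀ x ∈ D, r g * x ∈ D
  p : ∀ x ∈ D, Φ * x ∈ D

/-- `c` is a `G`-invariant graded space of operators on `D`, commuting and nilpotent modulo `B`,
whose degree `0` parts lie in `c * c`. -/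
structure Op {O A G : Type} [CommRing O] [Ring A] [Algebra O A] [Group G] (n : ℕ) (r : G →* A)
    (Φ Ψ : A) (c D B : Submodule O A) : Prop where
  le : B ≤ D
  sD : Stab r Φ D
  sB : Stab r Φ B
  cg : ∀ g, ∀ a ∈ c, r g * a * r g⁻¹ ∈ c
  cp : ∀ a ∈ c, Φ * a * Ψ ∈ c
  cD : ∀ a ∈ c, ∀ x ∈ D, a * x ∈ D
  cB : ∀ a ∈ c, ∀ x ∈ B, a * x ∈ B
  comm : ∀ a ∈ c, ∀ b ∈ c, ∀ x ∈ D, (a * b - b * a) * x ∈ B
  tr : ∀ a ∈ c, ∑ j ∈ Finset.range n, Φ ^ j * a * Ψ ^ j ∈ c * c
  nil : ∃ K : ℕ, c ^ K * D ≤ B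

/-- `N` acts trivially on `c^m D / B` in the situation `Op`, for all graded algebras with support in
`S`. -/
def Good {G : Type} [Group G] (n : ℕ) (φ : G →* G) (S : Set (ZMod n)) (N : Subgroup G) (m : ℕ) :
    Prop :=
  ∀ (O A : Type) [CommRing O] [Ring A] [Algebra O A] (ζ : O) (Φ Ψ : A) (r : G →* A),
    GRep n φ ζ Φ Ψ r → Sup n ζ Φ S → ∀ c D B : Submodule O A, Op n r Φ Ψ c D B →
    ∀ g ∈ N, ∀ x ∈ c ^ m * D, (r g - 1) * x ∈ B

/-- the smallest Lie closed submodule containing `P` -/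
def LC {O A : Type} [CommRing O] [Ring A] [Algebra O A] (P : Submodule O A) : Submodule O A :=
  sInf {T | IsLie T ∧ P ≤ T}

/-- the space `[L, N]` -/
def Xs {O A G : Type} [CommRing O] [Ring A] [Algebra O A] [Group G] (r : G →* A)
    (L : Submodule O A) (N : Subgroup G) : Submodule O A :=
  Submodule.span O {a | ∃ x ∈ L, ∃ g ∈ N, a = r g * x * r g⁻¹ - x}

/-- lower central type series: `N, [N, N], [[N, N], N], …` -/
def lcs {G : Type} [Group G] (N : Subgroup G) : ℕ → Subgroup G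
  | 0 => N
  | k + 1 => ⁅lcs N k, N⁆

end Pool.Agent.ThR
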