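import Pool.Agent.ThR.Defs

/-!
# Idempotents and homogeneous components

`Dt n ζ Φ Ψ`: `ζ` is a principal `n`-th root of unity, `Φ Ψ = Ψ Φ = 1`, `Φ^n = 1`. `ide n ζ Φ i` are
orthogonal idempotents with sum `1`. `Hm ζ Φ d a`: `a` is homogeneous of degree `d`. `cmp n ζ Φ Ψ i a` is
the homogeneous component of degree `i` of `a`.
-/

set_option autoImplicit false

namespace Pool.Agent.ThR

open Pool.Agent.LgP

variable {O A : Type} [CommRing O] [Ring A] [Algebra O A] {n : ℕ} {ζ : O} {Φ Ψ : A}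

/-- an algebra with an inner automorphism of order `n` -/
structure Dt (n : ℕ) (ζ : O) (Φ Ψ : A) : Prop where
  prim : Prim O n ζ
  pq : Φ * Ψ = 1
  qp : Ψ * Φ = 1
  pow : Φ ^ n = 1

theorem GRep.dt {G : Type} [Group G] {φ : G →* G} {r : G →* A} (h : GRep n φ ζ Φ Ψ r) :
    Dt n ζ Φ Ψ := ⟨h.prim, h.pq, h.qp, h.pow⟩

/-- `a` is homogeneous of degree `i` -/
def Hm (ζ : O) (Φ : A) (i : ℕ) (a : A) : Prop :=
  Φ * a = ζ ^ i • (a * Φ)

theorem zpow_mod (hP : Prim O n ζ) (k : ℕ) : ζ ^ k = ζ ^ (k % n) := by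
  conv_lhs => rw [← Nat.mod_add_div k n, pow_add, pow_mul, hP.pow, one_pow, mul_one]

theorem zpow_congr (hP : Prim O n ζ) {k l : ℕ} (h : k % n = l % n) : ζ ^ k = ζ ^ l := by
  rw [zpow_mod hP k, zpow_mod hP l, h]

theorem zinv (hP : Prim O n ζ) (a : A) : Ring.inverse (n : O) • (n : O) • a = a := by
  rw [smul_smul, Ring.inverse_mul_cancel _ hP.unit, one_smul]

theorem pred_mul (hn : 0 < n) (a : ℕ) : (n - 1) * a + a = n * a := by
  obtain ⟨k, rfl⟩ := Nat.exists_eq_succ_of_ne_zero (Nat.pos_iff_ne_zero.mp hn)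
  simp only [Nat.succ_eq_add_one, Nat.add_sub_cancel]
  ring

theorem Dt.psi (h : Dt n ζ Φ Ψ) : Ψ = Φ ^ (n - 1) := by
  have h1 : Φ ^ (n - 1) * Φ = 1 := by
    rw [← pow_succ, Nat.sub_add_cancel h.prim.pos]; exact h.pow
  calc Ψ = (Φ ^ (n - 1) * Φ) * Ψ := by rw [h1, one_mul]
    _ = Φ ^ (n - 1) := by rw [mul_assoc, h.pq, mul_one]

theorem Dt.psi_pow (h : Dt n ζ Φ Ψ) : Ψ ^ n = 1 := by
  rw [h.psi, ← pow_mul, mul_comm, pow_mul, h.pow, one_pow]

theorem Dt.pow_pq (h : Dt n ζ Φ Ψ) (j : ℕ) : Φ ^ j * Ψ ^ j = 1 := by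
  induction j with
  | zero => simp
  | succ j ih =>
    rw [pow_succ, pow_succ', mul_assoc, ← mul_assoc Φ, h.pq, one_mul, ih]

theorem Dt.pow_qp (h : Dt n ζ Φ Ψ) (j : ℕ) : Ψ ^ j * Φ ^ j = 1 := by
  induction j with
  | zero => simp
  | succ j ih =>
    rw [pow_succ, pow_succ', mul_assoc, ← mul_assoc Ψ, h.qp, one_mul, ih]

theorem ide_congr (h : Dt n ζ Φ Ψ) {i j : ℕ} (hij : i % n = j % n) :
    ide n ζ Φ i = ide n ζ Φ j := by
  unfold ide
  congr 1
  refine Finset.sum_congr rfl fun k _ => ?_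
  congr 1
  apply zpow_congr h.prim
  have : ((n - 1) * i * k) ≡ ((n - 1) * j * k) [MOD n] := by
    apply Nat.ModEq.mul_right
    exact Nat.ModEq.mul_left _ hij
  exact this

theorem ide_phi (h : Dt n ζ Φ Ψ) (i : ℕ) : Φ * ide n ζ Φ i = ζ ^ i • ide n ζ Φ i := by
  have hn := h.prim.pos
  obtain ⟨N, hN⟩ : ∃ N, n = N + 1 := ⟨n - 1, by omega⟩
  have key : Φ * ∑ j ∈ Finset.range n, ζ ^ ((n - 1) * i * j) • Φ ^ j =
      ζ ^ i • ∑ j ∈ Finset.range n, ζ ^ ((n - 1) * i * j) • Φ ^ j := by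
    rw [Finset.mul_sum, Finset.smul_sum]
    have h1 : ∀ j, Φ * ζ ^ ((n - 1) * i * j) • Φ ^ j = ζ ^ ((n - 1) * i * j) • Φ ^ (j + 1) := by
      intro j
      rw [mul_smul_comm, pow_succ']
    have h2 : ∀ j, ζ ^ i • ζ ^ ((n - 1) * i * j) • Φ ^ j = ζ ^ (i + (n - 1) * i * j) • Φ ^ j := by
      intro j
      rw [smul_smul, ← pow_add]
    simp only [h1, h2]
    rw [hN, Finset.sum_range_succ,
      Finset.sum_range_succ' (fun j => ζ ^ (i + (N + 1 - 1) * i * j) • Φ ^ j)]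
    congr 1
    · refine Finset.sum_congr rfl fun k _ => ?_
      congr 1
      apply zpow_congr h.prim
      have : i + (N + 1 - 1) * i * (k + 1) = (N + 1 - 1) * i * k + n * i := by
        rw [hN]; simp only [Nat.add_sub_cancel]; ring
      rw [this, Nat.add_mul_mod_self_left]
    · have e : Φ ^ (N + 1) = 1 := by rw [← hN]; exact h.pow
      rw [e, pow_zero]
      congr 1
      apply zpow_congr h.prim
      have e2 : (N + 1 - 1) * i * N + n * i = i + (N + 1 - 1) * i * 0 + n * (N * i) := by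
        rw [hN]; simp only [Nat.add_sub_cancel]; ring
      have e3 := congrArg (· % n) e2
      simpa [Nat.add_mul_mod_self_left] using e3
  unfold ide
  rw [mul_smul_comm, key, smul_comm]

theorem ide_comm (i : ℕ) : Φ * ide n ζ Φ i = ide n ζ Φ i * Φ := by
  unfold ide
  rw [mul_smul_comm, smul_mul_assoc, Finset.mul_sum, Finset.sum_mul]
  congr 1
  refine Finset.sum_congr rfl fun j _ => ?_
  rw [mul_smul_comm, smul_mul_assoc, ← pow_succ, ← pow_succ']

theorem ide_phi_pow (h : Dt n ζ Φ Ψ) (i k : ℕ) : Φ ^ k * ide n ζ Φ i = ζ ^ (i * k) • ide n ζ Φ i := by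
  induction k with
  | zero => simp
  | succ k ih => rw [pow_succ', mul_assoc, ih, mul_smul_comm, ide_phi h, smul_smul, ← pow_add]; ring_nf

theorem ide_mul (h : Dt n ζ Φ Ψ) (i j : ℕ) :
    ide n ζ Φ i * ide n ζ Φ j = if i % n = j % n then ide n ζ Φ i else 0 := by
  have hn := h.prim.pos
  have h1 : ide n ζ Φ i * ide n ζ Φ j = Ring.inverse (n : O) •
      (∑ k ∈ Finset.range n, ζ ^ (((n - 1) * i + j) * k)) • ide n ζ Φ j := by
    conv_lhs => rw [ide]
    rw [smul_mul_assoc, Finset.sum_mul, Finset.sum_smul]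
    congr 1
    refine Finset.sum_congr rfl fun k _ => ?_
    rw [smul_mul_assoc, ide_phi_pow h, smul_smul, ← pow_add]
    congr 2
    ring
  rw [h1]
  split_ifs with hij
  · have h2 : ∀ k, ζ ^ (((n - 1) * i + j) * k) = 1 := by
      intro k
      have : ζ ^ (((n - 1) * i + j) * k) = ζ ^ (n * (i * k)) := by
        apply zpow_congr h.prim
        have h3 : ((n - 1) * i + j) * k ≡ ((n - 1) * i + i) * k [MOD n] :=
          Nat.ModEq.mul_right _ (Nat.ModEq.add_left _ hij.symm)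
        have h4 : ((n - 1) * i + i) * k = n * (i * k) := by
          rw [pred_mul hn]; ring
        rw [h4] at h3
        exact h3
      rw [this, pow_mul, h.prim.pow, one_pow]
    simp only [h2]
    rw [Finset.sum_const, Finset.card_range, nsmul_eq_mul, mul_one]
    have := zinv h.prim (ide n ζ Φ j)
    rw [ide_congr h hij]
    exact this
  · have h3 : ¬ n ∣ ((n - 1) * i + j) := by
      intro h4
      apply hij
      have h5 : (n - 1) * i + j ≡ (n - 1) * i + i [MOD n] := by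
        rw [pred_mul hn]
        exact (Nat.modEq_zero_iff_dvd.mpr h4).trans
          (Nat.modEq_zero_iff_dvd.mpr (dvd_mul_right n i)).symm
      exact (Nat.ModEq.add_left_cancel' _ h5).symm
    rw [h.prim.sum _ h3, zero_smul, smul_zero]

theorem ide_sum (h : Dt n ζ Φ Ψ) : ∑ i ∈ Finset.range n, ide n ζ Φ i = 1 := by
  have hn := h.prim.pos
  unfold ide
  rw [← Finset.smul_sum, Finset.sum_comm]
  have h1 : ∀ j ∈ Finset.range n, ∑ i ∈ Finset.range n, ζ ^ ((n - 1) * i * j) • Φ ^ j =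
      if j = 0 then (n : O) • (1 : A) else 0 := by
    intro j hj
    rw [← Finset.sum_smul]
    have e : ∀ i, ζ ^ ((n - 1) * i * j) = ζ ^ (((n - 1) * j) * i) := fun i => by congr 1; ring
    simp only [e]
    split_ifs with h0
    · subst h0
      simp
    · rw [h.prim.sum, zero_smul]
      rw [Finset.mem_range] at hj
      intro h4
      have h5 : n ∣ (n - 1) * j + j := by rw [pred_mul hn]; exact dvd_mul_right n j
      have h6 : n ∣ j := (Nat.dvd_add_right h4).mp h5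
      exact absurd (Nat.le_of_dvd (Nat.pos_of_ne_zero h0) h6) (by omega)
  rw [Finset.sum_congr rfl h1, Finset.sum_ite_eq']
  rw [if_pos (by simpa using hn)]
  exact zinv h.prim 1

theorem Hm.pow_phi (h : Dt n ζ Φ Ψ) {d : ℕ} {a : A} (ha : Hm ζ Φ d a) (j : ℕ) :
    a * Φ ^ j = ζ ^ ((n - 1) * d * j) • (Φ ^ j * a) := by
  have h1 : a * Φ = ζ ^ ((n - 1) * d) • (Φ * a) := by
    unfold Hm at ha
    rw [ha, smul_smul, ← pow_add, pred_mul h.prim.pos, pow_mul, h.prim.pow, one_pow, one_smul]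
  induction j with
  | zero => simp
  | succ j ih =>
    rw [pow_succ, ← mul_assoc, ih, smul_mul_assoc, mul_assoc (Φ ^ j) a Φ, h1, mul_smul_comm,
      smul_smul, ← pow_add, ← mul_assoc]
    congr 2

/-- an element of degree `d` moves the projections -/
theorem Hm.ide (h : Dt n ζ Φ Ψ) {d : ℕ} {a : A} (ha : Hm ζ Φ d a) (i : ℕ) :
    a * ide n ζ Φ i = ThR.ide n ζ Φ (i + d) * a := by
  unfold ThR.ide
  rw [mul_smul_comm, smul_mul_assoc, Finset.mul_sum, Finset.sum_mul]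
  congr 1
  refine Finset.sum_congr rfl fun j _ => ?_
  rw [mul_smul_comm, ha.pow_phi h, smul_smul, ← pow_add, smul_mul_assoc]
  congr 2
  ring

/-- the homogeneous component of degree `i` -/
noncomputable def cmp (n : ℕ) (ζ : O) (Φ Ψ : A) (i : ℕ) (a : A) : A :=
  Ring.inverse (n : O) • ∑ j ∈ Finset.range n, ζ ^ ((n - 1) * i * j) • (Φ ^ j * a * Ψ ^ j)

theorem iter_mem (T : Submodule O A) (hT : ∀ a ∈ T, Φ * a * Ψ ∈ T)
    {a : A} (ha : a ∈ T) (j : ℕ) : Φ ^ j * a * Ψ ^ j ∈ T := by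
  induction j with
  | zero => simpa using ha
  | succ j ih =>
    have := hT _ ih
    have e : Φ ^ (j + 1) * a * Ψ ^ (j + 1) = Φ * (Φ ^ j * a * Ψ ^ j) * Ψ := by
      rw [pow_succ', pow_succ]
      simp only [mul_assoc]
    rw [e]
    exact this

theorem cmp_mem (T : Submodule O A) (hT : ∀ a ∈ T, Φ * a * Ψ ∈ T)
    {a : A} (ha : a ∈ T) (i : ℕ) : cmp n ζ Φ Ψ i a ∈ T := by
  unfold cmp
  refine T.smul_mem _ (T.sum_mem fun j _ => T.smul_mem _ ?_)
  exact iter_mem T hT ha j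

theorem cmp_hm (h : Dt n ζ Φ Ψ) (i : ℕ) (a : A) : Hm ζ Φ i (cmp n ζ Φ Ψ i a) := by
  have hn := h.prim.pos
  obtain ⟨N, hN⟩ : ∃ N, n = N + 1 := ⟨n - 1, by omega⟩
  have key : Φ * ∑ j ∈ Finset.range n, ζ ^ ((n - 1) * i * j) • (Φ ^ j * a * Ψ ^ j) =
      ζ ^ i • ((∑ j ∈ Finset.range n, ζ ^ ((n - 1) * i * j) • (Φ ^ j * a * Ψ ^ j)) * Φ) := by
    rw [Finset.mul_sum, Finset.sum_mul, Finset.smul_sum]
    have h1 : ∀ j, Φ * ζ ^ ((n - 1) * i * j) • (Φ ^ j * a * Ψ ^ j) =
        ζ ^ ((n - 1) * i * j) • (Φ ^ (j + 1) * a * Ψ ^ j) := by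
      intro j
      rw [mul_smul_comm, pow_succ']
      simp only [mul_assoc]
    have hp : ∀ j, Ψ ^ (j + 1) * Φ = Ψ ^ j := by
      intro j
      rw [pow_succ, mul_assoc, h.qp, mul_one]
    have h2 : ∀ j, ζ ^ i • ((ζ ^ ((n - 1) * i * j) • (Φ ^ j * a * Ψ ^ j)) * Φ) =
        ζ ^ (i + (n - 1) * i * j) • (Φ ^ j * a * (Ψ ^ j * Φ)) := by
      intro j
      rw [smul_mul_assoc, smul_smul, ← pow_add]
      simp only [mul_assoc]
    simp only [h1, h2]
    rw [hN, Finset.sum_range_succ, Finset.sum_range_succ'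
      (fun j => ζ ^ (i + (N + 1 - 1) * i * j) • (Φ ^ j * a * (Ψ ^ j * Φ)))]
    congr 1
    · refine Finset.sum_congr rfl fun k _ => ?_
      rw [hp]
      congr 1
      apply zpow_congr h.prim
      have : i + (N + 1 - 1) * i * (k + 1) = (N + 1 - 1) * i * k + n * i := by
        rw [hN]; simp only [Nat.add_sub_cancel]; ring
      rw [this, Nat.add_mul_mod_self_left]
    · have e : Φ ^ (N + 1) = 1 := by rw [← hN]; exact h.pow
      rw [e, pow_zero, pow_zero, one_mul, one_mul]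
      have e2 : Ψ ^ N = Φ := by
        have h6 : Ψ ^ (N + 1) = 1 := by rw [← hN]; exact h.psi_pow
        calc Ψ ^ N = Ψ ^ N * (Ψ * Φ) := by rw [h.qp, mul_one]
          _ = Ψ ^ (N + 1) * Φ := by rw [← mul_assoc, ← pow_succ]
          _ = Φ := by rw [h6, one_mul]
      rw [e2]
      congr 1
      apply zpow_congr h.prim
      have e2 : (N + 1 - 1) * i * N + n * i = i + (N + 1 - 1) * i * 0 + n * (N * i) := by
        rw [hN]; simp only [Nat.add_sub_cancel]; ring
      have e3 := congrArg (· % n) e2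
      simpa [Nat.add_mul_mod_self_left] using e3
  unfold Hm cmp
  rw [mul_smul_comm, key, smul_mul_assoc, smul_comm]

theorem cmp_sum (h : Dt n ζ Φ Ψ) (a : A) : ∑ i ∈ Finset.range n, cmp n ζ Φ Ψ i a = a := by
  have hn := h.prim.pos
  unfold cmp
  rw [← Finset.smul_sum, Finset.sum_comm]
  have h1 : ∀ j ∈ Finset.range n, ∑ i ∈ Finset.range n, ζ ^ ((n - 1) * i * j) •
      (Φ ^ j * a * Ψ ^ j) = if j = 0 then (n : O) • a else 0 := by
    intro j hj
    rw [← Finset.sum_smul]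
    have e : ∀ i, ζ ^ ((n - 1) * i * j) = ζ ^ (((n - 1) * j) * i) := fun i => by congr 1; ring
    simp only [e]
    split_ifs with h0
    · subst h0
      simp
    · rw [h.prim.sum, zero_smul]
      rw [Finset.mem_range] at hj
      intro h4
      have h5 : n ∣ (n - 1) * j + j := by rw [pred_mul hn]; exact dvd_mul_right n j
      have h6 : n ∣ j := (Nat.dvd_add_right h4).mp h5
      exact absurd (Nat.le_of_dvd (Nat.pos_of_ne_zero h0) h6) (by omega)
  rw [Finset.sum_congr rfl h1, Finset.sum_ite_eq', if_pos (by simpa using hn)]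
  exact zinv h.prim a

theorem cmp_zero (a : A) :
    cmp n ζ Φ Ψ 0 a = Ring.inverse (n : O) • ∑ j ∈ Finset.range n, Φ ^ j * a * Ψ ^ j := by
  unfold cmp
  simp

/-- products of homogeneous elements -/
theorem Hm.mul {i j : ℕ} {a b : A} (ha : Hm ζ Φ i a) (hb : Hm ζ Φ j b) :
    Hm ζ Φ (i + j) (a * b) := by
  unfold Hm at *
  rw [← mul_assoc, ha, smul_mul_assoc, mul_assoc a Φ b, hb, mul_smul_comm, smul_smul, ← pow_add,
    mul_assoc]

theorem Hm.congr (h : Dt n ζ Φ Ψ) {i j : ℕ} {a : A} (ha : Hm ζ Φ i a) (hij : i % n = j % n) :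
    Hm ζ Φ j a := by
  unfold Hm at *
  rw [ha, zpow_congr h.prim hij]

/-- submodules stable under left multiplication by `Φ` are stable under `ide` -/
theorem ide_stab {D : Submodule O A} (hD : ∀ x ∈ D, Φ * x ∈ D) (i : ℕ) (x : A) (hx : x ∈ D) :
    ide n ζ Φ i * x ∈ D := by
  have hp : ∀ j : ℕ, Φ ^ j * x ∈ D := by
    intro j
    induction j with
    | zero => simpa using hx
    | succ j ih => rw [pow_succ', mul_assoc]; exact hD _ ih
  unfold ide
  rw [smul_mul_assoc, Finset.sum_mul]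
  refine D.smul_mem _ (D.sum_mem fun j _ => ?_)
  rw [smul_mul_assoc]
  exact D.smul_mem _ (hp j)

/-- a submodule stable under `Φ` is the sum of its homogeneous parts -/
theorem ide_dec (h : Dt n ζ Φ Ψ) (x : A) : x = ∑ i ∈ Finset.range n, ide n ζ Φ i * x := by
  rw [← Finset.sum_mul, ide_sum h, one_mul]

end Pool.Agent.ThR
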