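import Pool.Agent.ThR.Rel

/-!
# The periodic part

`Op n r Φ Ψ c D B`. (1) `c ≤ c1 ⊔ c * c`, `c1 = span {a ∈ c | ∃ b, 0 < b < n, Hm ζ Φ b a}`: `a = ∑ cmp b a`
(`cmp_sum`, `cmp_mem`, `cmp_hm`), `cmp 0 a ∈ c * c` by `Op.tr` (`cmp_zero`). Hence
`c^m ≤ c1^m ⊔ c^(m+1)` for all `m` (induction, `c1 ≤ c`).
(2) for lists `l ~ l'` of elements of `c` (`List.Perm`) and `x ∈ D`: `(l.prod - l'.prod) * x ∈ B`.
(3) `d ∉ Per n S`, `b ≠ 0` in `ZMod n`: there is `k' ≤ n` with `d - k' b ∉ S`. A product of `n` letters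
of degree `b` (in `c`) times `y ∈ D` is killed by `ide d`: move `ide` to the right (`Hm.ide`) until it
becomes `ide (d - k' b) = 0` (`Sup`).
(4) `l` a list of `n * n` letters of `c1`: some degree `b` occurs at least `n` times (pigeonhole,
degrees in `1 .. n-1`), `l ~ filter ++ filter not`; so `ide d * l.prod * x ∈ B` for `d ∉ Per n S`.
(5) so `ide d * (c^j * D) ≤ B ⊔ ide d * (c^(j+1) * D)` for `j ≥ n * n`, hence by nilpotency (`Op.nil`)
`ide d * x ∈ B` for all `x ∈ c^(n*n) * D`, `d ∉ Per n S`.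
(6) `rel` with `P = Per n S`, `D' = c^(n*n) * D ⊔ B` (stable: `r g c r g⁻¹ ≤ c`, `Φ c Ψ ≤ c`).
For `n = 1` there are no letters `c1` and the argument still works.
-/

set_option autoImplicit false

namespace Pool.Agent.ThR

open Pool.Agent.LgP
open scoped Pointwise

section aux

variable {O A : Type} [CommRing O] [Ring A] [Algebra O A] {n : ℕ} {ζ : O} {Φ Ψ : A}

/-- the letters -/
private def GoodT_s (n : ℕ) (ζ : O) (Φ : A) (c : Submodule O A) : Set A :=
  {a | a ∈ c ∧ ∃ b, 0 < b ∧ b < n ∧ Hm ζ Φ b a}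

private theorem GoodT_c1 {G : Type} [Group G] {r : G →* A} (h : Dt n ζ Φ Ψ)
    {c D B : Submodule O A} (hO : Op n r Φ Ψ c D B) :
    c ≤ Submodule.span O (GoodT_s n ζ Φ c) ⊔ c * c := by
  intro a ha
  rw [← cmp_sum h a]
  refine Submodule.sum_mem _ fun i hi => ?_
  rcases Nat.eq_zero_or_pos i with rfl | h0
  · refine Submodule.mem_sup_right ?_
    rw [cmp_zero]
    exact Submodule.smul_mem _ _ (hO.tr a ha)
  · exact Submodule.mem_sup_left (Submodule.subset_span ⟨cmp_mem c hO.cp ha i, i, h0,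
      Finset.mem_range.1 hi, cmp_hm h i a⟩)

private theorem GoodT_pow (c c1 : Submodule O A) (h1 : c1 ≤ c) (h : c ≤ c1 ⊔ c * c) (m : ℕ) :
    c ^ m ≤ c1 ^ m ⊔ c ^ (m + 1) := by
  induction m with
  | zero =>
    rw [pow_zero, pow_zero]
    exact le_sup_left
  | succ m ih =>
    have e1 : c ^ (m + 1) ≤ (c1 ^ m ⊔ c ^ (m + 1)) * c := by
      conv_lhs => rw [pow_succ]
      exact mul_le_mul' ih le_rfl
    refine e1.trans ?_
    rw [Submodule.sup_mul]
    refine sup_le ?_ ?_
    · refine (mul_le_mul' (le_refl (c1 ^ m)) h).trans ?_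
      rw [Submodule.mul_sup, ← pow_succ]
      refine sup_le_sup le_rfl ?_
      have e2 : c ^ (m + 1 + 1) = c ^ m * (c * c) := by
        rw [pow_succ, pow_succ, mul_assoc]
      rw [e2]
      exact mul_le_mul' (pow_le_pow_left' h1 m) le_rfl
    · rw [← pow_succ]
      exact le_sup_right

private theorem GoodT_prod {G : Type} [Group G] {r : G →* A} {c D B : Submodule O A}
    (hO : Op n r Φ Ψ c D B) (l : List A) (hl : ∀ a ∈ l, a ∈ c) : ∀ x ∈ D, l.prod * x ∈ D := by
  induction l with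
  | nil =>
    intro x hx
    simpa using hx
  | cons a l ih =>
    intro x hx
    rw [List.prod_cons, mul_assoc]
    exact hO.cD a (hl a List.mem_cons_self) _ (ih (fun b hb => hl b (List.mem_cons_of_mem _ hb)) x hx)

private theorem GoodT_perm {G : Type} [Group G] {r : G →* A} {c D B : Submodule O A}
    (hO : Op n r Φ Ψ c D B) {l l' : List A} (hp : l.Perm l') :
    (∀ a ∈ l, a ∈ c) → ∀ x ∈ D, (l.prod - l'.prod) * x ∈ B := by
  induction hp with
  | nil =>
    intro _ x _
    rw [sub_self, zero_mul]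
    exact B.zero_mem
  | cons a _ ih =>
    intro hl x hx
    rw [List.prod_cons, List.prod_cons, ← mul_sub, mul_assoc]
    exact hO.cB a (hl a List.mem_cons_self) _
      (ih (fun b hb => hl b (List.mem_cons_of_mem _ hb)) x hx)
  | swap a b l =>
    intro hl x hx
    simp only [List.prod_cons]
    have e : (b * (a * l.prod) - a * (b * l.prod)) * x = (b * a - a * b) * (l.prod * x) := by
      noncomm_ring
    rw [e]
    refine hO.comm b (hl b (by simp)) a (hl a (by simp)) _ (GoodT_prod hO l ?_ x hx)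
    intro y hy
    exact hl y (by simp [hy])
  | @trans l₁ l₂ l₃ h1 h2 ih1 ih2 =>
    intro hl x hx
    have e : (l₁.prod - l₃.prod) * x = (l₁.prod - l₂.prod) * x + (l₂.prod - l₃.prod) * x := by
      noncomm_ring
    rw [e]
    exact B.add_mem (ih1 hl x hx) (ih2 (fun a ha => hl a (h1.mem_iff.2 ha)) x hx)

private theorem GoodT_hm (b : ℕ) (l : List A) (hl : ∀ a ∈ l, Hm ζ Φ b a) :
    Hm ζ Φ (l.length * b) l.prod := by
  induction l with
  | nil =>
    unfold Hm
    simp
  | cons a l ih =>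
    have h1 := (hl a List.mem_cons_self).mul (ih fun c hc => hl c (List.mem_cons_of_mem _ hc))
    rw [List.prod_cons, List.length_cons]
    have e : (l.length + 1) * b = b + l.length * b := by ring
    rw [e]
    exact h1

private theorem GoodT_deg (hn : 0 < n) {S : Set (ZMod n)} {d : ℕ} (hd : (d : ZMod n) ∉ Per n S)
    {b : ℕ} (hb : (b : ZMod n) ≠ 0) : ∃ k e : ℕ, k < n ∧ (e : ZMod n) ∉ S ∧
      (e + k * b) % n = d % n := by
  have h1 : ∃ k : ℕ, (d : ZMod n) + k • (-(b : ZMod n)) ∉ S := by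
    by_contra h
    push Not at h
    exact hd ⟨-(b : ZMod n), neg_ne_zero.2 hb, h⟩
  obtain ⟨k, hk⟩ := h1
  have hnz : NeZero n := ⟨hn.ne'⟩
  refine ⟨k % n, ((d : ZMod n) + k • (-(b : ZMod n))).val, Nat.mod_lt _ hn, ?_, ?_⟩
  · rw [ZMod.natCast_zmod_val]
    exact hk
  · have h2 : (((((d : ZMod n) + k • (-(b : ZMod n))).val + k % n * b : ℕ)) : ZMod n) =
        (d : ZMod n) := by
      rw [Nat.cast_add, ZMod.natCast_zmod_val, Nat.cast_mul, ZMod.natCast_mod, nsmul_eq_mul]
      ring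
    exact (ZMod.natCast_eq_natCast_iff' _ _ _).1 h2

private theorem GoodT_kill (h : Dt n ζ Φ Ψ) {S : Set (ZMod n)} (hS : Sup n ζ Φ S) {d : ℕ}
    (hd : (d : ZMod n) ∉ Per n S) {b : ℕ} (hb : (b : ZMod n) ≠ 0) (l : List A)
    (hln : n ≤ l.length) (hl : ∀ a ∈ l, Hm ζ Φ b a) : ide n ζ Φ d * l.prod = 0 := by
  obtain ⟨k, e, hk, he, hke⟩ := GoodT_deg h.prim.pos hd hb
  have h1 : l.prod = (l.take k).prod * (l.drop k).prod := by
    rw [← List.prod_append, List.take_append_drop]
  have h2 : (l.take k).length = k := by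
    rw [List.length_take]
    omega
  have h3 := (GoodT_hm b (l.take k) fun a ha => hl a (List.mem_of_mem_take ha)).ide h e
  rw [h2, ide_congr h hke, hS e he, mul_zero] at h3
  rw [h1, ← mul_assoc, ← h3, zero_mul]

private theorem GoodT_pigeon {X : Type} (f : X → ℕ) (N : ℕ) : ∀ (m : ℕ) (l : List X),
    (∀ a ∈ l, f a < m) → m * (N - 1) < l.length →
    ∃ b < m, N ≤ (l.filter fun a => f a = b).length := by
  intro m
  induction m with
  | zero =>
    intro l hl h
    cases l with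
    | nil => simp at h
    | cons a l => exact absurd (hl a List.mem_cons_self) (Nat.not_lt_zero _)
  | succ m ih =>
    intro l hl h
    by_cases hN : N ≤ (l.filter fun a => f a = m).length
    · exact ⟨m, Nat.lt_succ_self m, hN⟩
    have h1 := List.length_eq_length_filter_add (l := l) (fun a => decide (f a = m))
    have h2 : m * (N - 1) < (l.filter fun a => !decide (f a = m)).length := by
      have h3 : (m + 1) * (N - 1) = m * (N - 1) + (N - 1) := by ring
      omega
    obtain ⟨b, hb, hb2⟩ := ih _ (fun a ha => by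
      rw [List.mem_filter] at ha
      have h4 := hl a ha.1
      have h5 : f a ≠ m := by simpa using ha.2
      omega) h2
    refine ⟨b, hb.trans (Nat.lt_succ_self m), hb2.trans ?_⟩
    rw [List.filter_filter]
    refine List.Sublist.length_le (List.monotone_filter_right l ?_)
    intro a ha
    simp only [Bool.and_eq_true] at ha
    exact ha.1

private theorem GoodT_word {G : Type} [Group G] {r : G →* A} (h : Dt n ζ Φ Ψ)
    {S : Set (ZMod n)} (hS : Sup n ζ Φ S) {c D B : Submodule O A}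
    (hO : Op n r Φ Ψ c D B) {d : ℕ} (hd : (d : ZMod n) ∉ Per n S) (l : List A)
    (hln : l.length = n * n) (hl : ∀ a ∈ l, a ∈ GoodT_s n ζ Φ c) (x : A) (hx : x ∈ D) :
    ide n ζ Φ d * (l.prod * x) ∈ B := by
  classical
  have hn := h.prim.pos
  obtain ⟨f, hf⟩ : ∃ f : A → ℕ, ∀ a, a ∈ GoodT_s n ζ Φ c → 0 < f a ∧ f a < n ∧ Hm ζ Φ (f a) a := by
    have h0 : ∀ a : A, ∃ b : ℕ, a ∈ GoodT_s n ζ Φ c → 0 < b ∧ b < n ∧ Hm ζ Φ b a := by
      intro a
      by_cases ha : a ∈ GoodT_s n ζ Φ c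
      · obtain ⟨b, hb⟩ := ha.2
        exact ⟨b, fun _ => hb⟩
      · exact ⟨0, fun h => absurd h ha⟩
    choose f hf using h0
    exact ⟨f, hf⟩
  have hlt : n * (n - 1) < l.length := by
    rw [hln]
    exact Nat.mul_lt_mul_of_pos_left (by omega) hn
  obtain ⟨b, hbn, hb⟩ := GoodT_pigeon f n n l (fun a ha => (hf a (hl a ha)).2.1) hlt
  have hb0 : 0 < b := by
    have h1 : 0 < (l.filter fun a => f a = b).length := hn.trans_le hb
    obtain ⟨a, ha⟩ := List.exists_mem_of_length_pos h1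
    rw [List.mem_filter] at ha
    have h2 : f a = b := by simpa using ha.2
    rw [← h2]
    exact (hf a (hl a ha.1)).1
  have hbz : (b : ZMod n) ≠ 0 := by
    intro h1
    rw [ZMod.natCast_eq_zero_iff] at h1
    exact absurd (Nat.le_of_dvd hb0 h1) (by omega)
  have hp : ((l.filter fun a => f a = b) ++ (l.filter fun a => !decide (f a = b))).Perm l :=
    List.filter_append_perm _ l
  have h1 := GoodT_perm hO hp.symm (fun a ha => (hl a ha).1) x hx
  have h2 := GoodT_kill h hS hd hbz (l.filter fun a => f a = b) hb (fun a ha => by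
    rw [List.mem_filter] at ha
    have h3 : f a = b := by simpa using ha.2
    rw [← h3]
    exact (hf a (hl a ha.1)).2.2)
  have h3 : ide n ζ Φ d * (l.prod * x) = ide n ζ Φ d * ((l.prod -
      ((l.filter fun a => f a = b) ++ (l.filter fun a => !decide (f a = b))).prod) * x) := by
    rw [sub_mul, mul_sub, List.prod_append, mul_assoc (List.prod _) (List.prod _) x,
      ← mul_assoc (ide n ζ Φ d) (List.prod (l.filter fun a => f a = b)), h2, zero_mul, sub_zero]
  rw [h3]
  exact ide_stab hO.sB.p d _ h1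

private theorem GoodT_conj {c : Submodule O A} {u v : A} (hvu : v * u = 1)
    (hc : ∀ a ∈ c, u * a * v ∈ c) {D : Submodule O A} (hD : ∀ x ∈ D, u * x ∈ D) (m : ℕ) :
    ∀ x ∈ c ^ m * D, u * x ∈ c ^ m * D := by
  induction m with
  | zero =>
    intro x hx
    rw [pow_zero, one_mul] at hx ⊢
    exact hD x hx
  | succ m ih =>
    intro x hx
    rw [pow_succ', mul_assoc] at hx ⊢
    induction hx using Submodule.mul_induction_on' with
    | mem_mul_mem a ha y hy =>
      have e : u * (a * y) = (u * a * v) * (u * y) := by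
        calc u * (a * y) = u * a * (1 * y) := by rw [one_mul, mul_assoc]
          _ = u * a * (v * u * y) := by rw [hvu]
          _ = (u * a * v) * (u * y) := by simp only [mul_assoc]
      rw [e]
      exact Submodule.mul_mem_mul (hc a ha) (ih y hy)
    | add x _ y _ h1 h2 =>
      rw [mul_add]
      exact Submodule.add_mem _ h1 h2

private theorem GoodT_powD {c D : Submodule O A} (hD : ∀ a ∈ c, ∀ x ∈ D, a * x ∈ D) (m : ℕ) :
    c ^ m * D ≤ D := by
  induction m with
  | zero => rw [pow_zero, one_mul]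
  | succ m ih =>
    rw [pow_succ', mul_assoc]
    refine Submodule.mul_le.2 fun a ha x hx => hD a ha x (ih hx)

private theorem GoodT_main {G : Type} [Group G] {r : G →* A} (h : Dt n ζ Φ Ψ)
    {S : Set (ZMod n)} (hS : Sup n ζ Φ S) {c D B : Submodule O A}
    (hO : Op n r Φ Ψ c D B) {d : ℕ} (hd : (d : ZMod n) ∉ Per n S) :
    c ^ (n * n) * D ≤ B.comap (LinearMap.mulLeft O (ide n ζ Φ d)) := by
  obtain ⟨T, hT⟩ : ∃ T, T = B.comap (LinearMap.mulLeft O (ide n ζ Φ d)) := ⟨_, rfl⟩
  have hTm : ∀ x, x ∈ T ↔ ide n ζ Φ d * x ∈ B := by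
    intro x
    rw [hT]
    rfl
  rw [← hT]
  obtain ⟨c1, hc1⟩ : ∃ c1, c1 = Submodule.span O (GoodT_s n ζ Φ c) := ⟨_, rfl⟩
  have h1c : c1 ≤ c := by
    rw [hc1]
    exact Submodule.span_le.2 fun a ha => ha.1
  have hcc : c ≤ c1 ⊔ c * c := hc1 ▸ GoodT_c1 h hO
  have hw : c1 ^ (n * n) * D ≤ T := by
    refine Submodule.mul_le.2 fun u hu x hx => ?_
    rw [hc1, Submodule.span_pow] at hu
    have h1 : Submodule.span O ((GoodT_s n ζ Φ c) ^ (n * n)) ≤
        T.comap (LinearMap.mulRight O x) := by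
      refine Submodule.span_le.2 ?_
      intro u hu
      rw [Set.mem_pow] at hu
      obtain ⟨f, rfl⟩ := hu
      rw [SetLike.mem_coe, Submodule.mem_comap, LinearMap.mulRight_apply, hTm]
      refine GoodT_word h hS hO hd _ (by rw [List.length_ofFn]) ?_ x hx
      intro a ha
      rw [List.mem_ofFn] at ha
      obtain ⟨i, rfl⟩ := ha
      exact (f i).2
    exact h1 hu
  have hw2 : ∀ k : ℕ, c1 ^ (n * n + k) * D ≤ T := by
    intro k
    rw [pow_add, mul_assoc]
    refine (mul_le_mul' le_rfl (GoodT_powD (c := c1) (D := D) ?_ k)).trans hw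
    exact fun a ha x hx => hO.cD a (h1c ha) x hx
  have hstep : ∀ k : ℕ, c ^ (n * n) * D ≤ T ⊔ c ^ (n * n + k) * D := by
    intro k
    induction k with
    | zero => exact le_sup_right
    | succ k ih =>
      refine ih.trans (sup_le le_sup_left ?_)
      have h1 := GoodT_pow c c1 h1c hcc (n * n + k)
      refine (mul_le_mul' h1 (le_refl D)).trans ?_
      rw [Submodule.sup_mul]
      exact sup_le_sup (hw2 k) le_rfl
  obtain ⟨K, hK⟩ := hO.nil
  refine (hstep K).trans (sup_le le_rfl ?_)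
  have hBT : B ≤ T := fun x hx => (hTm x).2 (ide_stab hO.sB.p d x hx)
  refine le_trans ?_ hBT
  rw [pow_add, mul_assoc]
  exact (mul_le_mul' le_rfl hK).trans (GoodT_powD hO.cB (n * n))

end aux

theorem good_of_triv {G : Type} [Group G] (n : ℕ) (hn : 0 < n) (φ : G →* G) (S : Set (ZMod n))
    (N : Subgroup G) (hN : Triv n φ (Per n S) N) : Good n φ S N (n * n) := by
  intro O A _ _ _ ζ Φ Ψ r h hS c D B hO g hg x hx
  have hrg : ∀ g : G, r g⁻¹ * r g = 1 := fun g => by rw [← map_mul, inv_mul_cancel, map_one]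
  refine rel n φ (Per n S) N hN ζ Φ Ψ r h B (c ^ (n * n) * D ⊔ B) le_sup_right ⟨?_, ?_⟩ hO.sB ?_
    g hg x (Submodule.mem_sup_left hx)
  · intro g y hy
    obtain ⟨u, hu, b, hb, rfl⟩ := Submodule.mem_sup.1 hy
    rw [mul_add]
    exact Submodule.add_mem_sup (GoodT_conj (hrg g) (hO.cg g) (hO.sD.g g) _ u hu) (hO.sB.g g b hb)
  · intro y hy
    obtain ⟨u, hu, b, hb, rfl⟩ := Submodule.mem_sup.1 hy
    rw [mul_add]
    exact Submodule.add_mem_sup (GoodT_conj h.qp hO.cp hO.sD.p _ u hu) (hO.sB.p b hb)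
  · intro i hi y hy
    obtain ⟨u, hu, b, hb, rfl⟩ := Submodule.mem_sup.1 hy
    rw [mul_add]
    exact B.add_mem (GoodT_main h.dt hS hO hi hu) (ide_stab hO.sB.p i b hb)

end Pool.Agent.ThR
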