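import Pool.Agent.ThR.Plus

/-!
# Only periodic supports are left, for every `n`

Let `as = [a_1, …, a_k]` be natural numbers with sum `1` modulo `n`, and suppose that `N` acts trivially on all
graded algebras with support in `Pa n a_j S`, for every `j` (`Pa n a S` = union of the cosets `d + ⟨b⟩ ⊆ S` with
`a b ≠ 0`). Then `derG w N` acts trivially on all graded algebras with support in `S`, `w = w(n, k)`. With the
idempotents `a_q` of `Z/n` for the prime divisors `q` of `n`: if `N` acts trivially for the supports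
`S_q` = union of the cosets of the subgroup of order `q` contained in `S`, for every prime `q ∣ n`, then
`derG w N` acts trivially for the support `S`. So by induction on the support only sets `S` which are
unions of cosets of some nonzero subgroup are left.

PROOF. `c` commuting, `A_c` the algebra generated by `c`; `I(a,g)` = ideal of `A_c` generated by the `n²`-th power of
the space of letters `x^g`, `x` homogeneous of degree `b` with `a b ≠ 0`. (1) `c^M ≤ ∑ I(a_j, g_j)` for all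
`g_j` (`M = k n² + 1`). (2) a chain `x = e_(d_2)^(g_2) z_2 e_(d_3)^(g_3) z_3 ⋯ e_(d_k)^(g_k) y` with `d_j ∉ Pa n a_j S`, `z_j ∈ A_c`:
`c^(M') ≤ ∑_(j < m) I(a_j, g_j) + ann(x_m)` for all `g_j`, `x_m` the part of the chain starting at `e_(d_m)`, by downward
induction on `m`: `ann(x_m)` contains `I(a_m, g_m)` and the intersection of the `n` conjugates
of `ann(x_(m+1))` under the powers of `Φ^(g_m)`, and `(P + Q_1)(P + Q_2) ≤ P + Q_1 ∩ Q_2`. (3) so
`e_(d_1) r(g) c^(M') x = 0`, hence `(r(h_1) - 1) c^(M') (r(h_2) - 1) ⋯ (r(h_k) - 1) = 0` for `h_i ∈ N`, also with elements of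
`A_c` between the factors; telescoping gives `I(N)^k c^(M' + k - 1) = 0`.
-/

set_option autoImplicit false

open scoped commutatorElement

namespace Pool.Agent.ThR

open Pool.Agent.LgP
open scoped Pointwise

/-- exactly commuting letters -/
structure Ex {O E G : Type} [CommRing O] [Ring E] [Algebra O E] [Group G] (n : ℕ) (r : G →* E)
    (Φ Ψ : E) (c : Submodule O E) : Prop where
  cg : ∀ g, ∀ a ∈ c, r g * a * r g⁻¹ ∈ c
  cp : ∀ a ∈ c, Φ * a * Ψ ∈ c
  comm : ∀ a ∈ c, ∀ b ∈ c, a * b = b * a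
  tr : ∀ a ∈ c, ∑ j ∈ Finset.range n, Φ ^ j * a * Ψ ^ j ∈ c * c
  nil : ∃ K : ℕ, c ^ K = ⊥

section aux

variable {O E G : Type} [CommRing O] [Ring E] [Algebra O E] [Group G] {n : ℕ} {ζ : O} {Φ Ψ : E}
  {r : G →* E} {c : Submodule O E}

theorem Ex.op (h : Ex n r Φ Ψ c) : Op n r Φ Ψ c ⊤ ⊥ where
  le := bot_le
  sD := ⟨fun _ _ _ => Submodule.mem_top, fun _ _ => Submodule.mem_top⟩
  sB := ⟨fun _ x hx => by rw [Submodule.mem_bot] at hx ⊢; rw [hx, mul_zero],
    fun x hx => by rw [Submodule.mem_bot] at hx ⊢; rw [hx, mul_zero]⟩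
  cg := h.cg
  cp := h.cp
  cD := fun _ _ _ _ => Submodule.mem_top
  cB := fun _ _ x hx => by rw [Submodule.mem_bot] at hx ⊢; rw [hx, mul_zero]
  comm := fun a ha b hb x _ => by rw [h.comm a ha b hb, sub_self, zero_mul]; exact Submodule.zero_mem _
  tr := h.tr
  nil := by
    obtain ⟨K, hK⟩ := h.nil
    exact ⟨K, by rw [hK, Submodule.bot_mul]⟩

/-- the algebra generated by `c` -/
def Ac (c : Submodule O E) : Submodule O E := Subalgebra.toSubmodule (Algebra.adjoin O (c : Set E))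

theorem Ac_one (c : Submodule O E) : (1 : E) ∈ Ac c := (Algebra.adjoin O (c : Set E)).one_mem

theorem Ac_le (c : Submodule O E) : c ≤ Ac c := fun _ hx => Algebra.subset_adjoin hx

theorem Ac_mul {x y : E} (hx : x ∈ Ac c) (hy : y ∈ Ac c) : x * y ∈ Ac c :=
  (Algebra.adjoin O (c : Set E)).mul_mem hx hy

theorem Ac_pow (c : Submodule O E) (m : ℕ) : c ^ m ≤ Ac c := by
  induction m with
  | zero =>
    rw [pow_zero, Submodule.one_le]
    exact Ac_one c
  | succ m ih =>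
    rw [pow_succ, Submodule.mul_le]
    exact fun x hx y hy => Ac_mul (ih hx) (Ac_le c hy)

theorem Ac_comm (h : Ex n r Φ Ψ c) {x y : E} (hx : x ∈ Ac c) (hy : y ∈ Ac c) : x * y = y * x := by
  have h1 : ∀ a ∈ c, ∀ x ∈ Algebra.adjoin O (c : Set E), a * x = x * a := by
    intro a ha x hx
    induction hx using Algebra.adjoin_induction with
    | mem x hx => exact h.comm a ha x hx
    | algebraMap o => exact (Algebra.commutes o a).symm
    | add x y _ _ h1 h2 => rw [add_mul, mul_add, h1, h2]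
    | mul x y _ _ h1 h2 => rw [← mul_assoc, h1, mul_assoc, h2, mul_assoc]
  have hx' : x ∈ Algebra.adjoin O (c : Set E) := hx
  induction hx' using Algebra.adjoin_induction with
  | mem x hm => exact h1 x hm y hy
  | algebraMap o => exact Algebra.commutes o y
  | add x z hx1 hz1 h1 h2 => rw [add_mul, mul_add, h1 hx1, h2 hz1]
  | mul x z hx1 hz1 h1 h2 => rw [mul_assoc, h2 hz1, ← mul_assoc, h1 hx1, mul_assoc]

theorem Ac_conj {u v : E} (hvu : v * u = 1) (huv : u * v = 1) (hc : ∀ a ∈ c, u * a * v ∈ c) :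
    ∀ x ∈ Ac c, u * x * v ∈ Ac c := by
  intro x hx
  have hx' : x ∈ Algebra.adjoin O (c : Set E) := hx
  induction hx' using Algebra.adjoin_induction with
  | mem x hm => exact Ac_le c (hc x hm)
  | algebraMap o =>
    rw [Algebra.algebraMap_eq_smul_one, mul_smul_comm, smul_mul_assoc, mul_one, huv]
    exact Submodule.smul_mem _ _ (Ac_one c)
  | add x y hx1 hy1 h1 h2 =>
    rw [mul_add, add_mul]
    exact Submodule.add_mem _ (h1 hx1) (h2 hy1)
  | mul x y hx1 hy1 h1 h2 =>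
    have e : u * (x * y) * v = (u * x * v) * (u * y * v) := by
      calc u * (x * y) * v = u * x * (1 * (y * v)) := by rw [one_mul]; simp only [mul_assoc]
        _ = u * x * (v * u * (y * v)) := by rw [hvu]
        _ = (u * x * v) * (u * y * v) := by simp only [mul_assoc]
    rw [e]
    exact Ac_mul (h1 hx1) (h2 hy1)

/-- ideals of `A_c` -/
structure Idl (c P : Submodule O E) : Prop where
  le : P ≤ Ac c
  mul : ∀ a ∈ Ac c, ∀ x ∈ P, a * x ∈ P

theorem Idl.sup {P Q : Submodule O E} (hP : Idl c P) (hQ : Idl c Q) : Idl c (P ⊔ Q) := by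
  refine ⟨sup_le hP.le hQ.le, ?_⟩
  intro a ha x hx
  obtain ⟨u, hu, v, hv, rfl⟩ := Submodule.mem_sup.1 hx
  rw [mul_add]
  exact Submodule.add_mem_sup (hP.mul a ha u hu) (hQ.mul a ha v hv)

theorem Idl.inf {P Q : Submodule O E} (hP : Idl c P) (hQ : Idl c Q) : Idl c (P ⊓ Q) :=
  ⟨inf_le_left.trans hP.le, fun a ha x hx => ⟨hP.mul a ha x hx.1, hQ.mul a ha x hx.2⟩⟩

theorem Idl.bot : Idl c (⊥ : Submodule O E) :=
  ⟨bot_le, fun a _ x hx => by rw [Submodule.mem_bot] at hx ⊢; rw [hx, mul_zero]⟩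

/-- the key inclusion -/
theorem Idl.key (h : Ex n r Φ Ψ c) {P Q₁ Q₂ : Submodule O E} (hP : Idl c P) (h1 : Idl c Q₁)
    (h2 : Idl c Q₂) {a b : ℕ} (ha : c ^ a ≤ P ⊔ Q₁) (hb : c ^ b ≤ P ⊔ Q₂) :
    c ^ (a + b) ≤ P ⊔ (Q₁ ⊓ Q₂) := by
  rw [pow_add, Submodule.mul_le]
  intro x hx y hy
  obtain ⟨p, hp, q, hq, rfl⟩ := Submodule.mem_sup.1 (ha hx)
  obtain ⟨p', hp', q', hq', rfl⟩ := Submodule.mem_sup.1 (hb hy)
  have e : (p + q) * (p' + q') = (p' + q') * p + q * p' + q * q' := by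
    rw [add_mul, Ac_comm h (hP.le hp) (Submodule.add_mem _ (hP.le hp') (h2.le hq')), mul_add q,
      add_assoc]
  rw [e]
  refine Submodule.add_mem _ (Submodule.mem_sup_left (Submodule.add_mem _
    (hP.mul _ (Submodule.add_mem _ (hP.le hp') (h2.le hq')) p hp) (hP.mul q (h1.le hq) p' hp')))
    (Submodule.mem_sup_right ⟨?_, h2.mul q (h1.le hq) q' hq'⟩)
  rw [Ac_comm h (h1.le hq) (h2.le hq')]
  exact h1.mul q' (h2.le hq') q hq

/-- the ideal of the letters `x^g`, `x` of degree `b` with `a b ≠ 0` -/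
def Ia (n : ℕ) (ζ : O) (Φ : E) (r : G →* E) (c : Submodule O E) (p : ℕ × G) : Submodule O E :=
  Ac c * (Submodule.span O (Plus_t r p.2 n p.1 ζ Φ c)) ^ (n * n)

theorem Ia_idl (h : Ex n r Φ Ψ c) (p : ℕ × G) : Idl c (Ia n ζ Φ r c p) := by
  have h1 : Submodule.span O (Plus_t r p.2 n p.1 ζ Φ c) ≤ c :=
    Submodule.span_le.2 fun x hx => Plus_tc h.op p.2 p.1 hx
  constructor
  · unfold Ia
    rw [Submodule.mul_le]
    exact fun x hx y hy => Ac_mul hx (Ac_pow c _ (pow_le_pow_left' h1 _ hy))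
  · intro a ha x hx
    unfold Ia at hx ⊢
    induction hx using Submodule.mul_induction_on' with
    | mem_mul_mem u hu v hv =>
      rw [← mul_assoc]
      exact Submodule.mul_mem_mul (Ac_mul ha hu) hv
    | add u _ v _ h1 h2 =>
      rw [mul_add]
      exact Submodule.add_mem _ h1 h2

/-- sum of the ideals of a list -/
def TI (n : ℕ) (ζ : O) (Φ : E) (r : G →* E) (c : Submodule O E) : List (ℕ × G) → Submodule O E
  | [] => ⊥
  | p :: L => Ia n ζ Φ r c p ⊔ TI n ζ Φ r c L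

theorem TI_idl (h : Ex n r Φ Ψ c) (L : List (ℕ × G)) : Idl c (TI n ζ Φ r c L) := by
  induction L with
  | nil => exact Idl.bot
  | cons p L ih => exact (Ia_idl h p).sup ih

/-- letters of a list -/
def Lt (n : ℕ) (ζ : O) (Φ : E) (r : G →* E) (c : Submodule O E) (L : List (ℕ × G)) : Set E :=
  {x | ∃ p ∈ L, x ∈ Plus_t r p.2 n p.1 ζ Φ c}

theorem Lt_le (h : Ex n r Φ Ψ c) (L : List (ℕ × G)) : Lt n ζ Φ r c L ⊆ c := by
  rintro x ⟨p, _, hx⟩
  exact Plus_tc h.op p.2 p.1 hx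

theorem Ex.perm (h : Ex n r Φ Ψ c) {l l' : List E} (hp : l.Perm l') (hl : ∀ a ∈ l, a ∈ c) :
    l.prod = l'.prod := by
  have h1 := Plus_perm h.op hp hl 1 Submodule.mem_top
  rw [mul_one, Submodule.mem_bot] at h1
  exact sub_eq_zero.1 h1

theorem Ac_list (l : List E) (hl : ∀ a ∈ l, a ∈ c) : l.prod ∈ Ac c := by
  induction l with
  | nil => exact Ac_one c
  | cons a l ih =>
    rw [List.prod_cons]
    exact Ac_mul (Ac_le c (hl a List.mem_cons_self)) (ih fun b hb => hl b (List.mem_cons_of_mem _ hb))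

theorem list_pow (X : Submodule O E) (l : List E) (hl : ∀ a ∈ l, a ∈ X) : l.prod ∈ X ^ l.length := by
  induction l with
  | nil =>
    rw [List.prod_nil, List.length_nil, pow_zero]
    exact Submodule.mem_one.2 ⟨1, map_one _⟩
  | cons a l ih =>
    rw [List.prod_cons, List.length_cons, pow_succ']
    exact Submodule.mul_mem_mul (hl a List.mem_cons_self)
      (ih fun b hb => hl b (List.mem_cons_of_mem _ hb))

theorem TI_word (h : Ex n r Φ Ψ c) (L : List (ℕ × G)) : ∀ l : List E,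
    (∀ x ∈ l, x ∈ Lt n ζ Φ r c L) → L.length * (n * n) < l.length →
    l.prod ∈ TI n ζ Φ r c L := by
  classical
  induction L with
  | nil =>
    intro l hl hlen
    obtain ⟨a, ha⟩ := List.exists_mem_of_length_pos (lt_of_le_of_lt (Nat.zero_le _) hlen)
    obtain ⟨p, hp, _⟩ := hl a ha
    exact absurd hp List.not_mem_nil
  | cons p L ih =>
    intro l hl hlen
    have hlc : ∀ x ∈ l, x ∈ c := fun x hx => Lt_le h _ (hl x hx)
    obtain ⟨l1, hl1⟩ : ∃ l1, l1 = l.filter fun x => x ∈ Plus_t r p.2 n p.1 ζ Φ c := ⟨_, rfl⟩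
    obtain ⟨l2, hl2⟩ : ∃ l2, l2 = l.filter fun x => !decide (x ∈ Plus_t r p.2 n p.1 ζ Φ c) :=
      ⟨_, rfl⟩
    have hp : (l1 ++ l2).Perm l := by
      rw [hl1, hl2]
      exact List.filter_append_perm _ l
    have h1s : ∀ x ∈ l1, x ∈ Plus_t r p.2 n p.1 ζ Φ c := by
      intro x hx
      rw [hl1, List.mem_filter] at hx
      simpa using hx.2
    have h2s : ∀ x ∈ l2, x ∈ Lt n ζ Φ r c L := by
      intro x hx
      rw [hl2, List.mem_filter] at hx
      have h3 : x ∉ Plus_t r p.2 n p.1 ζ Φ c := by simpa using hx.2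
      obtain ⟨q, hq, hxq⟩ := hl x hx.1
      rcases List.mem_cons.1 hq with rfl | hq
      · exact absurd hxq h3
      · exact ⟨q, hq, hxq⟩
    have hlen2 : l1.length + l2.length = l.length := by
      rw [← List.length_append]
      exact hp.length_eq
    have h1c : ∀ x ∈ l1, x ∈ c := fun x hx => Plus_tc h.op p.2 p.1 (h1s x hx)
    have h2c : ∀ x ∈ l2, x ∈ c := fun x hx => Lt_le h _ (h2s x hx)
    rw [← h.perm hp (fun a ha => by
      rcases List.mem_append.1 ha with ha | ha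
      · exact h1c a ha
      · exact h2c a ha), List.prod_append]
    rw [List.length_cons] at hlen
    rcases Nat.lt_or_ge l1.length (n * n) with h5 | h5
    · have h6 : L.length * (n * n) < l2.length := by
        have e : (L.length + 1) * (n * n) = L.length * (n * n) + n * n := by ring
        omega
      exact Submodule.mem_sup_right ((TI_idl h L).mul _ (Ac_list l1 h1c) _ (ih l2 h2s h6))
    · refine Submodule.mem_sup_left ?_
      rw [Ac_comm h (Ac_list l1 h1c) (Ac_list l2 h2c)]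
      refine (Ia_idl h p).mul _ (Ac_list l2 h2c) _ ?_
      have h6 : l1.prod = (l1.take (l1.length - n * n)).prod * (l1.drop (l1.length - n * n)).prod := by
        rw [← List.prod_append, List.take_append_drop]
      rw [h6]
      unfold Ia
      refine Submodule.mul_mem_mul (Ac_list _ fun x hx => h1c x (List.mem_of_mem_take hx)) ?_
      have h7 := list_pow (Submodule.span O (Plus_t r p.2 n p.1 ζ Φ c))
        (l1.drop (l1.length - n * n))
        (fun x hx => Submodule.subset_span (h1s x (List.mem_of_mem_drop hx)))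
      have h8 : (l1.drop (l1.length - n * n)).length = n * n := by
        rw [List.length_drop]
        omega
      rwa [h8] at h7

/-- `Φ^a x Φ^(-a) - x` for conjugates -/
theorem Multi_diff {φ : G →* G} (h : GRep n φ ζ Φ Ψ r) (hc : Ex n r Φ Ψ c) (p : ℕ × G) (x : E)
    (hx : x ∈ c) :
    (r p.2 * Φ ^ p.1 * r p.2⁻¹) * x * (r p.2 * Ψ ^ p.1 * r p.2⁻¹) ∈ c ∧
    (r p.2 * Φ ^ p.1 * r p.2⁻¹) * x * (r p.2 * Ψ ^ p.1 * r p.2⁻¹) - x ∈
      Submodule.span O (Plus_t r p.2 n p.1 ζ Φ c) := by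
  obtain ⟨a, g⟩ := p
  obtain ⟨y, hy⟩ : ∃ y, y = r g⁻¹ * x * r g := ⟨_, rfl⟩
  have hyc : y ∈ c := by
    have h1 := hc.cg g⁻¹ x hx
    rw [inv_inv] at h1
    rw [hy]
    exact h1
  have hxy : x = r g * y * r g⁻¹ := by
    rw [hy]
    calc x = (r g * r g⁻¹) * x * (r g * r g⁻¹) := by rw [Plus_rinv', one_mul, mul_one]
      _ = _ := by simp only [mul_assoc]
  have e : (r g * Φ ^ a * r g⁻¹) * x * (r g * Ψ ^ a * r g⁻¹) =
      r g * (Φ ^ a * y * Ψ ^ a) * r g⁻¹ := by
    rw [hy]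
    simp only [mul_assoc]
  show (r g * Φ ^ a * r g⁻¹) * x * (r g * Ψ ^ a * r g⁻¹) ∈ c ∧
    (r g * Φ ^ a * r g⁻¹) * x * (r g * Ψ ^ a * r g⁻¹) - x ∈ _
  rw [e]
  refine ⟨hc.cg g _ (iter_mem c hc.cp hyc a), ?_⟩
  have e2 : r g * (Φ ^ a * y * Ψ ^ a) * r g⁻¹ - x = r g * (Φ ^ a * y * Ψ ^ a - y) * r g⁻¹ := by
    rw [mul_sub, sub_mul, ← hxy]
  rw [e2]
  exact Plus_ts r g a c _ (Plus_diff h.dt hc.op a y hyc)

/-- the product of the conjugates of the powers of `Φ` -/
def Us (Φ : E) (r : G →* E) : List (ℕ × G) → E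
  | [] => 1
  | p :: L => (r p.2 * Φ ^ p.1 * r p.2⁻¹) * Us Φ r L

/-- the inverse -/
def Vs (Ψ : E) (r : G →* E) : List (ℕ × G) → E
  | [] => 1
  | p :: L => Vs Ψ r L * (r p.2 * Ψ ^ p.1 * r p.2⁻¹)

theorem Us_rel {φ : G →* G} (h : GRep n φ ζ Φ Ψ r) (hc : Ex n r Φ Ψ c) (L : List (ℕ × G)) :
    ∀ x ∈ c, Us Φ r L * x * Vs Ψ r L ∈ c ∧
      Us Φ r L * x * Vs Ψ r L - x ∈ Submodule.span O (Lt n ζ Φ r c L) := by
  induction L with
  | nil =>
    intro x hx
    unfold Us Vs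
    rw [one_mul, mul_one, sub_self]
    exact ⟨hx, Submodule.zero_mem _⟩
  | cons p L ih =>
    intro x hx
    obtain ⟨h1, h2⟩ := ih x hx
    obtain ⟨h3, h4⟩ := Multi_diff h hc p _ h1
    have e : Us Φ r (p :: L) * x * Vs Ψ r (p :: L) = (r p.2 * Φ ^ p.1 * r p.2⁻¹) *
        (Us Φ r L * x * Vs Ψ r L) * (r p.2 * Ψ ^ p.1 * r p.2⁻¹) := by
      show (r p.2 * Φ ^ p.1 * r p.2⁻¹) * Us Φ r L * x *
        (Vs Ψ r L * (r p.2 * Ψ ^ p.1 * r p.2⁻¹)) = _
      simp only [mul_assoc]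
    rw [e]
    refine ⟨h3, ?_⟩
    have e2 : (r p.2 * Φ ^ p.1 * r p.2⁻¹) * (Us Φ r L * x * Vs Ψ r L) *
        (r p.2 * Ψ ^ p.1 * r p.2⁻¹) - x =
        ((r p.2 * Φ ^ p.1 * r p.2⁻¹) * (Us Φ r L * x * Vs Ψ r L) *
        (r p.2 * Ψ ^ p.1 * r p.2⁻¹) - Us Φ r L * x * Vs Ψ r L) +
        (Us Φ r L * x * Vs Ψ r L - x) := by abel
    rw [e2]
    refine Submodule.add_mem _ ?_ ?_
    · have h5 : Plus_t r p.2 n p.1 ζ Φ c ⊆ Lt n ζ Φ r c (p :: L) :=
        fun y hy => ⟨p, List.mem_cons_self, hy⟩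
      exact Submodule.span_mono h5 h4
    · have h5 : Lt n ζ Φ r c L ⊆ Lt n ζ Φ r c (p :: L) := by
        rintro y ⟨q, hq, hyq⟩
        exact ⟨q, List.mem_cons_of_mem _ hq, hyq⟩
      exact Submodule.span_mono h5 h2

theorem GRep.comm_pow {φ : G →* G} (h : GRep n φ ζ Φ Ψ r) (a : ℕ) (g : G) :
    Φ ^ a * r g = r ((⇑φ)^[a] g) * Φ ^ a := by
  have hΦr : ∀ g : G, Φ * r g = r (φ g) * Φ := by
    intro g
    rw [← h.eq, mul_assoc, h.qp, mul_one]
  induction a with
  | zero => simp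
  | succ a ih =>
    rw [pow_succ', mul_assoc, ih, ← mul_assoc, hΦr, mul_assoc, Function.iterate_succ_apply']

theorem Us_eq {φ : G →* G} (h : GRep n φ ζ Φ Ψ r) (L : List (ℕ × G)) :
    ∃ t : G, Us Φ r L = r t * Φ ^ (L.map Prod.fst).sum := by
  induction L with
  | nil => exact ⟨1, by unfold Us; simp⟩
  | cons p L ih =>
    obtain ⟨t, ht⟩ := ih
    refine ⟨p.2 * (⇑φ)^[p.1] (p.2⁻¹ * t), ?_⟩
    show (r p.2 * Φ ^ p.1 * r p.2⁻¹) * Us Φ r L = _
    rw [ht, List.map_cons, List.sum_cons, pow_add, map_mul]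
    calc r p.2 * Φ ^ p.1 * r p.2⁻¹ * (r t * Φ ^ (L.map Prod.fst).sum)
        = r p.2 * (Φ ^ p.1 * r (p.2⁻¹ * t)) * Φ ^ (L.map Prod.fst).sum := by
          rw [map_mul]; simp only [mul_assoc]
      _ = _ := by rw [h.comm_pow]; simp only [mul_assoc]

theorem Vs_inv {φ : G →* G} (h : GRep n φ ζ Φ Ψ r) (L : List (ℕ × G)) :
    Vs Ψ r L * Us Φ r L = 1 := by
  induction L with
  | nil => unfold Us Vs; rw [one_mul]
  | cons p L ih =>
    show Vs Ψ r L * (r p.2 * Ψ ^ p.1 * r p.2⁻¹) * ((r p.2 * Φ ^ p.1 * r p.2⁻¹) * Us Φ r L) = 1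
    calc Vs Ψ r L * (r p.2 * Ψ ^ p.1 * r p.2⁻¹) * ((r p.2 * Φ ^ p.1 * r p.2⁻¹) * Us Φ r L)
        = Vs Ψ r L * (r p.2 * (Ψ ^ p.1 * (r p.2⁻¹ * r p.2) * Φ ^ p.1) * r p.2⁻¹) * Us Φ r L := by
          simp only [mul_assoc]
      _ = 1 := by rw [Plus_rinv, mul_one, h.dt.pow_qp, mul_one, Plus_rinv', mul_one, ih]

/-- `c` is covered by the letters of a list with sum `1` -/
theorem Multi_dec {φ : G →* G} (h : GRep n φ ζ Φ Ψ r) (hL : ∀ t : G, ∃ s : G, t = s⁻¹ * φ s)
    (hc : Ex n r Φ Ψ c) (L : List (ℕ × G)) (hs : (L.map Prod.fst).sum % n = 1 % n) :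
    c ≤ Submodule.span O (Lt n ζ Φ r c L) ⊔ c * c := by
  obtain ⟨T, hT⟩ : ∃ T, T = Submodule.span O (Lt n ζ Φ r c L) := ⟨_, rfl⟩
  rw [← hT]
  obtain ⟨t, ht⟩ := Us_eq h L
  obtain ⟨s, hst⟩ := hL t
  obtain ⟨u, hu⟩ : ∃ u, u = r s⁻¹ * Φ * r s := ⟨_, rfl⟩
  obtain ⟨v, hv⟩ : ∃ v, v = r s⁻¹ * Ψ * r s := ⟨_, rfl⟩
  have hΦa : Φ ^ (L.map Prod.fst).sum = Φ := by
    have h1 : ∀ k : ℕ, Φ ^ k = Φ ^ (k % n) := by
      intro k
      conv_lhs => rw [← Nat.mod_add_div k n, pow_add, pow_mul, h.pow, one_pow, mul_one]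
    rw [h1, hs, ← h1, pow_one]
  have hu2 : u = Us Φ r L := by
    rw [ht, hΦa, hu, hst, map_mul, mul_assoc, mul_assoc]
    congr 1
    have := h.comm_pow 1 s
    simpa using this
  have huv : u * v = 1 := by
    rw [hv, hu]
    calc r s⁻¹ * Φ * r s * (r s⁻¹ * Ψ * r s) = r s⁻¹ * Φ * (r s * r s⁻¹) * Ψ * r s := by
          simp only [mul_assoc]
      _ = 1 := by rw [Plus_rinv', mul_one, mul_assoc (r s⁻¹), h.pq, mul_one, Plus_rinv]
  have hv2 : v = Vs Ψ r L := by
    symm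
    refine Plus_inv_unique (Vs_inv h L) ?_
    rw [← hu2]
    exact huv
  have hstep : ∀ x ∈ c, u * x * v ∈ c ∧ u * x * v - x ∈ T := by
    intro x hx
    rw [hu2, hv2, hT]
    exact Us_rel h hc L x hx
  intro x hx
  have hxj : ∀ j : ℕ, u ^ j * x * v ^ j ∈ c ∧ u ^ j * x * v ^ j - x ∈ T := by
    intro j
    induction j with
    | zero =>
      refine ⟨by simpa using hx, ?_⟩
      rw [pow_zero, pow_zero, one_mul, mul_one, sub_self]
      exact T.zero_mem
    | succ j ih =>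
      have e : u ^ (j + 1) * x * v ^ (j + 1) = u * (u ^ j * x * v ^ j) * v := by
        rw [pow_succ', pow_succ]
        simp only [mul_assoc]
      rw [e]
      refine ⟨(hstep _ ih.1).1, ?_⟩
      have e2 : u * (u ^ j * x * v ^ j) * v - x =
          (u * (u ^ j * x * v ^ j) * v - u ^ j * x * v ^ j) + (u ^ j * x * v ^ j - x) := by abel
      rw [e2]
      exact T.add_mem (hstep _ ih.1).2 ih.2
  have huj : ∀ j : ℕ, u ^ j = r s⁻¹ * Φ ^ j * r s := by
    intro j
    induction j with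
    | zero => rw [pow_zero, pow_zero, mul_one, Plus_rinv]
    | succ j ih =>
      rw [pow_succ, ih, hu, pow_succ]
      calc r s⁻¹ * Φ ^ j * r s * (r s⁻¹ * Φ * r s)
          = r s⁻¹ * Φ ^ j * (r s * r s⁻¹) * Φ * r s := by simp only [mul_assoc]
        _ = _ := by rw [Plus_rinv', mul_one]; simp only [mul_assoc]
  have hvj : ∀ j : ℕ, v ^ j = r s⁻¹ * Ψ ^ j * r s := by
    intro j
    induction j with
    | zero => rw [pow_zero, pow_zero, mul_one, Plus_rinv]
    | succ j ih =>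
      rw [pow_succ, ih, hv, pow_succ]
      calc r s⁻¹ * Ψ ^ j * r s * (r s⁻¹ * Ψ * r s)
          = r s⁻¹ * Ψ ^ j * (r s * r s⁻¹) * Ψ * r s := by simp only [mul_assoc]
        _ = _ := by rw [Plus_rinv', mul_one]; simp only [mul_assoc]
  have hsum : ∑ j ∈ Finset.range n, u ^ j * x * v ^ j ∈ c * c := by
    have e : ∑ j ∈ Finset.range n, u ^ j * x * v ^ j =
        r s⁻¹ * (∑ j ∈ Finset.range n, Φ ^ j * (r s * x * r s⁻¹) * Ψ ^ j) * r s := by
      rw [Finset.mul_sum, Finset.sum_mul]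
      refine Finset.sum_congr rfl fun j _ => ?_
      rw [huj, hvj]
      simp only [mul_assoc]
    rw [e]
    exact Plus_cc (c := c) (u := r s⁻¹) (v := r s) (Plus_rinv' r s) (fun a ha => by
      have := hc.cg s⁻¹ a ha
      rwa [inv_inv] at this) _ (hc.tr _ (hc.cg s x hx))
  have hn : (n : O) • x ∈ T ⊔ c * c := by
    have e : (n : O) • x = ∑ j ∈ Finset.range n, u ^ j * x * v ^ j -
        ∑ j ∈ Finset.range n, (u ^ j * x * v ^ j - x) := by
      rw [Finset.sum_sub_distrib, sub_sub_cancel, Finset.sum_const, Finset.card_range,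
        Nat.cast_smul_eq_nsmul]
    rw [e]
    exact Submodule.sub_mem _ (Submodule.mem_sup_right hsum)
      (Submodule.mem_sup_left (T.sum_mem fun j _ => (hxj j).2))
  have := Submodule.smul_mem _ (Ring.inverse (n : O)) hn
  rwa [zinv h.prim] at this

theorem Multi_cov {φ : G →* G} (h : GRep n φ ζ Φ Ψ r) (hL : ∀ t : G, ∃ s : G, t = s⁻¹ * φ s)
    (hc : Ex n r Φ Ψ c) (L : List (ℕ × G)) (hs : (L.map Prod.fst).sum % n = 1 % n) :
    c ^ (L.length * (n * n) + 1) ≤ TI n ζ Φ r c L := by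
  obtain ⟨T, hT⟩ : ∃ T, T = TI n ζ Φ r c L := ⟨_, rfl⟩
  obtain ⟨j, hj⟩ : ∃ j, j = L.length * (n * n) + 1 := ⟨_, rfl⟩
  rw [← hT, ← hj]
  obtain ⟨c1, hc1⟩ : ∃ c1, c1 = Submodule.span O (Lt n ζ Φ r c L) := ⟨_, rfl⟩
  have h1c : c1 ≤ c := by
    rw [hc1]
    exact Submodule.span_le.2 (Lt_le hc L)
  have hcc : c ≤ c1 ⊔ c * c := hc1 ▸ Multi_dec h hL hc L hs
  have hw : ∀ i, j ≤ i → c1 ^ i ≤ T := by
    intro i hi
    rw [hc1, Submodule.span_pow]
    refine Submodule.span_le.2 ?_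
    intro u hu
    rw [Set.mem_pow] at hu
    obtain ⟨f, rfl⟩ := hu
    rw [SetLike.mem_coe, hT]
    refine TI_word hc L _ ?_ (by rw [List.length_ofFn]; omega)
    intro a ha
    rw [List.mem_ofFn] at ha
    obtain ⟨i, rfl⟩ := ha
    exact (f i).2
  have hstep : ∀ k : ℕ, c ^ j ≤ T ⊔ c ^ (j + k) := by
    intro k
    induction k with
    | zero => exact le_sup_right
    | succ k ih =>
      refine ih.trans (sup_le le_sup_left ?_)
      refine (Plus_pow c c1 h1c hcc (j + k)).trans ?_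
      exact sup_le_sup (hw _ (by omega)) le_rfl
  obtain ⟨K, hK⟩ := hc.nil
  refine (hstep K).trans (sup_le le_rfl ?_)
  rw [pow_add, hK, Submodule.mul_bot]
  exact bot_le

/-- the annihilator of `x` in `A_c` -/
def An (c : Submodule O E) (x : E) : Submodule O E :=
  Ac c ⊓ LinearMap.ker (LinearMap.mulRight O x)

theorem An_mem {x z : E} : z ∈ An c x ↔ z ∈ Ac c ∧ z * x = 0 := by
  unfold An
  rw [Submodule.mem_inf, LinearMap.mem_ker, LinearMap.mulRight_apply]

theorem An_idl (x : E) : Idl c (An c x) := by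
  refine ⟨inf_le_left, fun a ha z hz => ?_⟩
  rw [An_mem] at hz ⊢
  exact ⟨Ac_mul ha hz.1, by rw [mul_assoc, hz.2, mul_zero]⟩

/-- chains of idempotents -/
def Mon (n : ℕ) (ζ : O) (Φ : E) (r : G →* E) (c : Submodule O E) (S : Set (ZMod n)) :
    List ℕ → Set E
  | [] => Set.univ
  | a :: l => {x | ∃ z ∈ Ac c, ∃ (g : G) (d : ℕ) (y : E), (d : ZMod n) ∉ Pa n a S ∧
      y ∈ Mon n ζ Φ r c S l ∧ x = z * (r g * (ide n ζ Φ d * y))}

/-- exponents -/
def NN (n : ℕ) (k : ℕ) : ℕ → ℕ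
  | 0 => k * (n * n) + 1
  | s + 1 => n * NN n k s

theorem Hm.smul {i : ℕ} {y : E} (hy : Hm ζ Φ i y) (o : O) : Hm ζ Φ i (o • y) := by
  unfold Hm at *
  rw [mul_smul_comm, hy, smul_mul_assoc, smul_comm]

/-- conjugating the letters -/
theorem Multi_tconj {φ : G →* G} (h : GRep n φ ζ Φ Ψ r) (a : ℕ) (g g' : G) (i : ℕ) {x : E}
    (hx : x ∈ Plus_t r g' n a ζ Φ c) :
    (r g * Φ ^ i) * x * (Ψ ^ i * r g⁻¹) ∈ Plus_t r (g * (⇑φ)^[i] g') n a ζ Φ c := by
  obtain ⟨y, hy, rfl⟩ := hx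
  obtain ⟨hyc, b, hbn, hb, hyb⟩ := hy
  refine ⟨ζ ^ (i * b) • y, ⟨Submodule.smul_mem _ _ hyc, b, hbn, hb, hyb.smul _⟩, ?_⟩
  rw [← Plus_hmconj h.dt hyb i]
  have e1 : ∀ g : G, Φ ^ i * r g = r ((⇑φ)^[i] g) * Φ ^ i := h.comm_pow i
  have e2 : r g'⁻¹ * Ψ ^ i = Ψ ^ i * r ((⇑φ)^[i] g'⁻¹) := by
    have h1 := e1 g'⁻¹
    calc r g'⁻¹ * Ψ ^ i = (Ψ ^ i * Φ ^ i) * r g'⁻¹ * Ψ ^ i := by rw [h.dt.pow_qp, one_mul]
      _ = Ψ ^ i * (Φ ^ i * r g'⁻¹) * Ψ ^ i := by simp only [mul_assoc]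
      _ = Ψ ^ i * (r ((⇑φ)^[i] g'⁻¹) * Φ ^ i) * Ψ ^ i := by rw [h1]
      _ = Ψ ^ i * r ((⇑φ)^[i] g'⁻¹) * (Φ ^ i * Ψ ^ i) := by simp only [mul_assoc]
      _ = Ψ ^ i * r ((⇑φ)^[i] g'⁻¹) := by rw [h.dt.pow_pq, mul_one]
  have e3 : (⇑φ)^[i] g'⁻¹ * g⁻¹ = (g * (⇑φ)^[i] g')⁻¹ := by
    rw [mul_inv_rev]
    congr 1
    have : ∀ i : ℕ, (⇑φ)^[i] g'⁻¹ = ((⇑φ)^[i] g')⁻¹ := by
      intro i
      induction i with
      | zero => rfl
      | succ i ih => rw [Function.iterate_succ_apply', ih, map_inv, Function.iterate_succ_apply']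
    exact this i
  calc (r g * Φ ^ i) * (r g' * y * r g'⁻¹) * (Ψ ^ i * r g⁻¹)
      = r g * (Φ ^ i * r g') * y * (r g'⁻¹ * Ψ ^ i) * r g⁻¹ := by simp only [mul_assoc]
    _ = r g * (r ((⇑φ)^[i] g') * Φ ^ i) * y * (Ψ ^ i * r ((⇑φ)^[i] g'⁻¹)) * r g⁻¹ := by
      rw [e1, e2]
    _ = (r g * r ((⇑φ)^[i] g')) * (Φ ^ i * y * Ψ ^ i) * (r ((⇑φ)^[i] g'⁻¹) * r g⁻¹) := by
      simp only [mul_assoc]
    _ = _ := by rw [← map_mul, ← map_mul, e3]

/-- conjugating powers of a submodule -/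
theorem Multi_powconj {u v : E} (hvu : v * u = 1) (huv : u * v = 1) {X Y : Submodule O E}
    (hXY : ∀ x ∈ X, u * x * v ∈ Y) (m : ℕ) : ∀ x ∈ X ^ m, u * x * v ∈ Y ^ m := by
  induction m with
  | zero =>
    intro x hx
    rw [pow_zero] at hx ⊢
    obtain ⟨o, rfl⟩ := Submodule.mem_one.1 hx
    rw [Algebra.algebraMap_eq_smul_one, mul_smul_comm, smul_mul_assoc, mul_one, huv]
    exact Submodule.smul_mem _ _ (Submodule.mem_one.2 ⟨1, map_one _⟩)
  | succ m ih =>
    intro x hx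
    rw [pow_succ'] at hx ⊢
    induction hx using Submodule.mul_induction_on' with
    | mem_mul_mem a ha b hb =>
      have e : u * (a * b) * v = (u * a * v) * (u * b * v) := by
        calc u * (a * b) * v = u * a * (1 * (b * v)) := by rw [one_mul]; simp only [mul_assoc]
          _ = u * a * (v * u * (b * v)) := by rw [hvu]
          _ = (u * a * v) * (u * b * v) := by simp only [mul_assoc]
      rw [e]
      exact Submodule.mul_mem_mul (hXY a ha) (ih b hb)
    | add x _ y _ h1 h2 =>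
      rw [mul_add, add_mul]
      exact Submodule.add_mem _ h1 h2

theorem Multi_spanconj {u v : E} {X Y : Set E} (hXY : ∀ x ∈ X, u * x * v ∈ Y) :
    ∀ x ∈ Submodule.span O X, u * x * v ∈ Submodule.span O Y := by
  intro x hx
  induction hx using Submodule.span_induction with
  | mem w hw => exact Submodule.subset_span (hXY w hw)
  | zero => rw [mul_zero, zero_mul]; exact Submodule.zero_mem _
  | add a b _ _ h1 h2 => rw [mul_add, add_mul]; exact Submodule.add_mem _ h1 h2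
  | smul c a _ h1 => rw [mul_smul_comm, smul_mul_assoc]; exact Submodule.smul_mem _ c h1

theorem Multi_units {φ : G →* G} (h : GRep n φ ζ Φ Ψ r) (g : G) (i : ℕ) :
    (Ψ ^ i * r g⁻¹) * (r g * Φ ^ i) = 1 ∧ (r g * Φ ^ i) * (Ψ ^ i * r g⁻¹) = 1 := by
  constructor
  · calc (Ψ ^ i * r g⁻¹) * (r g * Φ ^ i) = Ψ ^ i * (r g⁻¹ * r g) * Φ ^ i := by
          simp only [mul_assoc]
      _ = 1 := by rw [Plus_rinv, mul_one, h.dt.pow_qp]
  · calc (r g * Φ ^ i) * (Ψ ^ i * r g⁻¹) = r g * (Φ ^ i * Ψ ^ i) * r g⁻¹ := by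
          simp only [mul_assoc]
      _ = 1 := by rw [h.dt.pow_pq, mul_one, Plus_rinv']

theorem Multi_cconj (hc : Ex n r Φ Ψ c) (g : G) (i : ℕ) :
    ∀ x ∈ c, (r g * Φ ^ i) * x * (Ψ ^ i * r g⁻¹) ∈ c := by
  intro x hx
  have e : (r g * Φ ^ i) * x * (Ψ ^ i * r g⁻¹) = r g * (Φ ^ i * x * Ψ ^ i) * r g⁻¹ := by
    simp only [mul_assoc]
  rw [e]
  exact hc.cg g _ (iter_mem c hc.cp hx i)

theorem Multi_Iaconj {φ : G →* G} (h : GRep n φ ζ Φ Ψ r) (hc : Ex n r Φ Ψ c) (a : ℕ) (g g' : G)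
    (i : ℕ) : ∀ x ∈ Ia n ζ Φ r c (a, g'),
    (r g * Φ ^ i) * x * (Ψ ^ i * r g⁻¹) ∈ Ia n ζ Φ r c (a, g * (⇑φ)^[i] g') := by
  obtain ⟨hvu, huv⟩ := Multi_units h g i
  intro x hx
  unfold Ia at hx ⊢
  induction hx using Submodule.mul_induction_on' with
  | mem_mul_mem x hx y hy =>
    have e : (r g * Φ ^ i) * (x * y) * (Ψ ^ i * r g⁻¹) = ((r g * Φ ^ i) * x * (Ψ ^ i * r g⁻¹)) *
        ((r g * Φ ^ i) * y * (Ψ ^ i * r g⁻¹)) := by
      calc (r g * Φ ^ i) * (x * y) * (Ψ ^ i * r g⁻¹)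
          = (r g * Φ ^ i) * x * (1 * (y * (Ψ ^ i * r g⁻¹))) := by
            rw [one_mul]; simp only [mul_assoc]
        _ = (r g * Φ ^ i) * x * ((Ψ ^ i * r g⁻¹) * (r g * Φ ^ i) * (y * (Ψ ^ i * r g⁻¹))) := by
            rw [hvu]
        _ = _ := by simp only [mul_assoc]
    rw [e]
    refine Submodule.mul_mem_mul (Ac_conj hvu huv (Multi_cconj hc g i) x hx) ?_
    exact Multi_powconj hvu huv (Multi_spanconj fun x hx => Multi_tconj h a g g' i hx) _ y hy
  | add x _ y _ h1 h2 =>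
    rw [mul_add, add_mul]
    exact Submodule.add_mem _ h1 h2

theorem Multi_TIconj {φ : G →* G} (h : GRep n φ ζ Φ Ψ r) (hc : Ex n r Φ Ψ c) (g : G) (i : ℕ)
    (L : List (ℕ × G)) : ∀ x ∈ TI n ζ Φ r c L, (r g * Φ ^ i) * x * (Ψ ^ i * r g⁻¹) ∈
      TI n ζ Φ r c (L.map fun p => (p.1, g * (⇑φ)^[i] p.2)) := by
  induction L with
  | nil =>
    intro x hx
    have hx' : x = 0 := (Submodule.mem_bot O).1 hx
    rw [hx', mul_zero, zero_mul]
    exact Submodule.zero_mem _
  | cons p L ih =>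
    intro x hx
    obtain ⟨u, hu, v, hv, rfl⟩ := Submodule.mem_sup.1 hx
    rw [mul_add, add_mul]
    exact Submodule.add_mem_sup (Multi_Iaconj h hc p.1 g p.2 i u hu) (ih v hv)

theorem Multi_killL (h : Dt n ζ Φ Ψ) (hc : Ex n r Φ Ψ c) {S : Set (ZMod n)} (hS : Sup n ζ Φ S)
    {a d : ℕ} (hd : (d : ZMod n) ∉ Pa n a S) :
    ∀ w ∈ (Submodule.span O (Plus_s n a ζ Φ c)) ^ (n * n), ide n ζ Φ d * w = 0 := by
  have h1 : (Submodule.span O (Plus_s n a ζ Φ c)) ^ (n * n) ≤
      LinearMap.ker (LinearMap.mulLeft O (ide n ζ Φ d)) := by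
    rw [Submodule.span_pow]
    refine Submodule.span_le.2 ?_
    intro u hu
    rw [Set.mem_pow] at hu
    obtain ⟨f, rfl⟩ := hu
    rw [SetLike.mem_coe, LinearMap.mem_ker, LinearMap.mulLeft_apply]
    have h2 := Plus_wordL h hS hc.op hd (List.ofFn fun i => (f i : E))
      (by rw [List.length_ofFn]) (by
        intro a ha
        rw [List.mem_ofFn] at ha
        obtain ⟨i, rfl⟩ := ha
        exact (f i).2) 1 Submodule.mem_top
    rwa [mul_one, Submodule.mem_bot] at h2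
  intro w hw
  have h2 := h1 hw
  rwa [LinearMap.mem_ker, LinearMap.mulLeft_apply] at h2

theorem Multi_killR (h : Dt n ζ Φ Ψ) (hc : Ex n r Φ Ψ c) {S : Set (ZMod n)} (hS : Sup n ζ Φ S)
    {a d : ℕ} (hd : (d : ZMod n) ∉ Pa n a S) :
    ∀ w ∈ (Submodule.span O (Plus_s n a ζ Φ c)) ^ (n * n), w * ide n ζ Φ d = 0 := by
  have h1 : (Submodule.span O (Plus_s n a ζ Φ c)) ^ (n * n) ≤
      LinearMap.ker (LinearMap.mulRight O (ide n ζ Φ d)) := by
    rw [Submodule.span_pow]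
    refine Submodule.span_le.2 ?_
    intro u hu
    rw [Set.mem_pow] at hu
    obtain ⟨f, rfl⟩ := hu
    rw [SetLike.mem_coe, LinearMap.mem_ker, LinearMap.mulRight_apply]
    have h2 := Plus_wordR h hS hc.op hd (List.ofFn fun i => (f i : E))
      (by rw [List.length_ofFn]) (by
        intro a ha
        rw [List.mem_ofFn] at ha
        obtain ⟨i, rfl⟩ := ha
        exact (f i).2) 1 Submodule.mem_top
    rwa [mul_one, Submodule.mem_bot] at h2
  intro w hw
  have h2 := h1 hw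
  rwa [LinearMap.mem_ker, LinearMap.mulRight_apply] at h2

theorem Multi_back (g : G) (a : ℕ) : ∀ w ∈ (Submodule.span O (Plus_t r g n a ζ Φ c)) ^ (n * n),
    r g⁻¹ * w * r g ∈ (Submodule.span O (Plus_s n a ζ Φ c)) ^ (n * n) := by
  refine Multi_powconj (Plus_rinv' r g) (Plus_rinv r g) (Multi_spanconj ?_) _
  rintro x ⟨y, hy, rfl⟩
  have e : r g⁻¹ * (r g * y * r g⁻¹) * r g = y := by
    calc r g⁻¹ * (r g * y * r g⁻¹) * r g = (r g⁻¹ * r g) * y * (r g⁻¹ * r g) := by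
          simp only [mul_assoc]
      _ = y := by rw [Plus_rinv, one_mul, mul_one]
  rw [e]
  exact hy

/-- right killing -/
theorem Multi_IaR (h : Dt n ζ Φ Ψ) (hc : Ex n r Φ Ψ c) {S : Set (ZMod n)} (hS : Sup n ζ Φ S)
    {a d : ℕ} (hd : (d : ZMod n) ∉ Pa n a S) (g : G) (y : E) :
    ∀ z ∈ Ia n ζ Φ r c (a, g), z * (r g * (ide n ζ Φ d * y)) = 0 := by
  intro z hz
  unfold Ia at hz
  induction hz using Submodule.mul_induction_on' with
  | mem_mul_mem u hu w hw =>
    have h1 := Multi_killR h hc hS hd _ (Multi_back g a w hw)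
    calc u * w * (r g * (ide n ζ Φ d * y)) = u * (1 * w * r g) * (ide n ζ Φ d * y) := by
          rw [one_mul]; simp only [mul_assoc]
      _ = u * (r g * r g⁻¹ * w * r g) * (ide n ζ Φ d * y) := by rw [Plus_rinv']
      _ = u * r g * ((r g⁻¹ * w * r g) * ide n ζ Φ d) * y := by simp only [mul_assoc]
      _ = 0 := by rw [h1, mul_zero, zero_mul]
  | add x _ y _ h1 h2 => rw [add_mul, h1, h2, add_zero]

/-- left killing -/
theorem Multi_IaL {φ : G →* G} (h : GRep n φ ζ Φ Ψ r) (hc : Ex n r Φ Ψ c) {S : Set (ZMod n)}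
    (hS : Sup n ζ Φ S) {a d : ℕ} (hd : (d : ZMod n) ∉ Pa n a S) (g : G) :
    ∀ z ∈ Ia n ζ Φ r c (a, g⁻¹), ide n ζ Φ d * (r g * z) = 0 := by
  intro z hz
  unfold Ia at hz
  induction hz using Submodule.mul_induction_on' with
  | mem_mul_mem u hu w hw =>
    have h0 := Multi_back g⁻¹ a w hw
    rw [inv_inv] at h0
    have h1 := Multi_killL h.dt hc hS hd _ h0
    have hu' : r g * u * r g⁻¹ ∈ Ac c := Ac_conj (Plus_rinv r g) (Plus_rinv' r g) (hc.cg g) u hu
    have h1c : Submodule.span O (Plus_s n a ζ Φ c) ≤ c := Submodule.span_le.2 fun x hx => hx.1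
    have hw' : r g * w * r g⁻¹ ∈ Ac c := Ac_pow c _ (pow_le_pow_left' h1c _ h0)
    calc ide n ζ Φ d * (r g * (u * w)) = ide n ζ Φ d * (r g * u * 1 * w * 1) := by
          rw [mul_one, mul_one]; simp only [mul_assoc]
      _ = ide n ζ Φ d * (r g * u * (r g⁻¹ * r g) * w * (r g⁻¹ * r g)) := by rw [Plus_rinv]
      _ = ide n ζ Φ d * ((r g * u * r g⁻¹) * (r g * w * r g⁻¹)) * r g := by
          simp only [mul_assoc]
      _ = (ide n ζ Φ d * (r g * w * r g⁻¹)) * (r g * u * r g⁻¹) * r g := by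
          rw [Ac_comm hc hu' hw']; simp only [mul_assoc]
      _ = 0 := by rw [h1, zero_mul, zero_mul]
  | add x _ y _ h1 h2 => rw [mul_add, mul_add, h1, h2, add_zero]

theorem Dt.phi (h : Dt n ζ Φ Ψ) : Φ = Ψ ^ (n - 1) := by
  have h1 : Ψ ^ (n - 1) * Ψ = 1 := by
    rw [← pow_succ, Nat.sub_add_cancel h.prim.pos]; exact h.psi_pow
  calc Φ = (Ψ ^ (n - 1) * Ψ) * Φ := by rw [h1, one_mul]
    _ = Ψ ^ (n - 1) := by rw [mul_assoc, h.qp, mul_one]

theorem Multi_ann {φ : G →* G} (h : GRep n φ ζ Φ Ψ r) (hL : ∀ t : G, ∃ s : G, t = s⁻¹ * φ s)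
    (hφ : ∀ g, (⇑φ)^[n] g = g) (hc : Ex n r Φ Ψ c) {S : Set (ZMod n)} (hS : Sup n ζ Φ S)
    (l : List ℕ) : ∀ L : List (ℕ × G), ((L.map Prod.fst).sum + l.sum) % n = 1 % n →
    ∀ x ∈ Mon n ζ Φ r c S l, c ^ (NN n (L.length + l.length) l.length) ≤
      TI n ζ Φ r c L ⊔ An c x := by
  have hφi : ∀ (i : ℕ) (g : G), (⇑φ)^[n * i] g = g := by
    intro i g
    induction i with
    | zero => rfl
    | succ i ih => rw [Nat.mul_succ, Function.iterate_add_apply, hφ, ih]
  induction l with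
  | nil =>
    intro L hs x _
    have h1 := Multi_cov h hL hc L (by simpa using hs)
    exact h1.trans le_sup_left
  | cons a l ih =>
    intro L hs x hx
    obtain ⟨z, hz, g, d, y, hd, hy, rfl⟩ := hx
    obtain ⟨N', hN'⟩ : ∃ N', N' = NN n (L.length + (a :: l).length) l.length := ⟨_, rfl⟩
    have hNN : NN n (L.length + (a :: l).length) (a :: l).length = n * N' := by
      rw [hN']
      rfl
    rw [hNN]
    obtain ⟨P, hP⟩ : ∃ P, P = TI n ζ Φ r c L ⊔ Ia n ζ Φ r c (a, g) := ⟨_, rfl⟩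
    have hPi : Idl c P := hP ▸ (TI_idl hc L).sup (Ia_idl hc (a, g))
    -- the ideal `B_i`
    have hB : ∀ i : ℕ, ∃ B : Submodule O E, Idl c B ∧ c ^ N' ≤ P ⊔ B ∧
        ∀ w ∈ B, (Ψ ^ i * r g⁻¹) * w * (r g * Φ ^ i) ∈ An c y := by
      intro i
      obtain ⟨hvu, huv⟩ := Multi_units h g i
      have hcb : ∀ x ∈ c, (Ψ ^ i * r g⁻¹) * x * (r g * Φ ^ i) ∈ c := by
        intro x hx
        have h1 := hc.cg g⁻¹ x hx
        rw [inv_inv] at h1
        have h2 := iter_mem c hc.cp h1 ((n - 1) * i)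
        rw [pow_mul, ← h.dt.psi, pow_mul, ← h.dt.phi] at h2
        have e : (Ψ ^ i * r g⁻¹) * x * (r g * Φ ^ i) = Ψ ^ i * (r g⁻¹ * x * r g) * Φ ^ i := by
          simp only [mul_assoc]
        rw [e]
        exact h2
      refine ⟨Ac c ⊓ (An c y).comap ((LinearMap.mulLeft O (Ψ ^ i * r g⁻¹)).comp
        (LinearMap.mulRight O (r g * Φ ^ i))), ⟨inf_le_left, ?_⟩, ?_, ?_⟩
      · rintro u hu w ⟨hw, hw'⟩
        refine ⟨Ac_mul hu hw, ?_⟩
        have hw2 : (Ψ ^ i * r g⁻¹) * (w * (r g * Φ ^ i)) ∈ An c y := hw'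
        show (Ψ ^ i * r g⁻¹) * (u * w * (r g * Φ ^ i)) ∈ An c y
        have e : (Ψ ^ i * r g⁻¹) * (u * w * (r g * Φ ^ i)) =
            ((Ψ ^ i * r g⁻¹) * u * (r g * Φ ^ i)) * ((Ψ ^ i * r g⁻¹) * (w * (r g * Φ ^ i))) := by
          calc (Ψ ^ i * r g⁻¹) * (u * w * (r g * Φ ^ i))
              = (Ψ ^ i * r g⁻¹) * u * (1 * (w * (r g * Φ ^ i))) := by
                rw [one_mul]; simp only [mul_assoc]
            _ = (Ψ ^ i * r g⁻¹) * u * ((r g * Φ ^ i) * (Ψ ^ i * r g⁻¹) * (w * (r g * Φ ^ i))) := by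
                rw [huv]
            _ = _ := by simp only [mul_assoc]
        rw [e]
        exact (An_idl y).mul _ (Ac_conj huv hvu hcb u hu) _ hw2
      · intro w hw
        have hw' := Multi_powconj huv hvu hcb N' w hw
        have h1 := ih ((a, 1) :: L.map fun p => (p.1, (⇑φ)^[(n - 1) * i] (g⁻¹ * p.2))) (by
          have e : (((a, 1) :: L.map fun p => (p.1, (⇑φ)^[(n - 1) * i] (g⁻¹ * p.2))).map
              Prod.fst).sum = a + (L.map Prod.fst).sum := by
            rw [List.map_cons, List.sum_cons, List.map_map]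
            rfl
          rw [e, ← hs, List.sum_cons]
          congr 1
          ring) y hy
        have h2 : ((a, (1 : G)) :: L.map fun p => (p.1, (⇑φ)^[(n - 1) * i] (g⁻¹ * p.2))).length +
            l.length = L.length + (a :: l).length := by
          rw [List.length_cons, List.length_map, List.length_cons]
          ring
        rw [h2, ← hN'] at h1
        obtain ⟨t, ht, s, hs2, hts⟩ := Submodule.mem_sup.1 (h1 hw')
        have ht' := Multi_TIconj h hc g i _ t ht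
        have e3 : (((a, (1 : G)) :: L.map fun p => (p.1, (⇑φ)^[(n - 1) * i] (g⁻¹ * p.2))).map
            fun p => (p.1, g * (⇑φ)^[i] p.2)) = (a, g) :: L := by
          rw [List.map_cons, List.map_map]
          have e4 : (⇑φ)^[i] (1 : G) = 1 := by
            clear * -
            induction i with
            | zero => rfl
            | succ i ih => rw [Function.iterate_succ_apply', ih, map_one]
          rw [e4, mul_one]
          congr 1
          conv_rhs => rw [← List.map_id L]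
          refine List.map_congr_left fun p _ => ?_
          show (p.1, g * (⇑φ)^[i] ((⇑φ)^[(n - 1) * i] (g⁻¹ * p.2))) = id p
          rw [← Function.iterate_add_apply]
          have e5 : i + (n - 1) * i = n * i := by
            rw [add_comm]; exact pred_mul h.prim.pos i
          rw [e5, hφi, mul_inv_cancel_left]
          rfl
        rw [e3] at ht'
        have e6 : w = (r g * Φ ^ i) * t * (Ψ ^ i * r g⁻¹) + (r g * Φ ^ i) * s * (Ψ ^ i * r g⁻¹) := by
          rw [← add_mul, ← mul_add, hts]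
          calc w = 1 * w * 1 := by rw [one_mul, mul_one]
            _ = ((r g * Φ ^ i) * (Ψ ^ i * r g⁻¹)) * w * ((r g * Φ ^ i) * (Ψ ^ i * r g⁻¹)) := by
                rw [huv]
            _ = _ := by simp only [mul_assoc]
        rw [e6]
        refine Submodule.add_mem _ (Submodule.mem_sup_left ?_) (Submodule.mem_sup_right ?_)
        · rw [hP, sup_comm]
          exact ht'
        · refine ⟨Ac_conj hvu huv (Multi_cconj hc g i) s ((An_idl y).le hs2), ?_⟩
          show (Ψ ^ i * r g⁻¹) * ((r g * Φ ^ i) * s * (Ψ ^ i * r g⁻¹) * (r g * Φ ^ i)) ∈ An c y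
          have e7 : (Ψ ^ i * r g⁻¹) * ((r g * Φ ^ i) * s * (Ψ ^ i * r g⁻¹) * (r g * Φ ^ i)) = s := by
            calc (Ψ ^ i * r g⁻¹) * ((r g * Φ ^ i) * s * (Ψ ^ i * r g⁻¹) * (r g * Φ ^ i))
                = ((Ψ ^ i * r g⁻¹) * (r g * Φ ^ i)) * s * ((Ψ ^ i * r g⁻¹) * (r g * Φ ^ i)) := by
                  simp only [mul_assoc]
              _ = s := by rw [hvu, one_mul, mul_one]
          rw [e7]
          exact hs2
      · rintro w ⟨_, hw⟩
        have hw2 : (Ψ ^ i * r g⁻¹) * (w * (r g * Φ ^ i)) ∈ An c y := hw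
        rwa [← mul_assoc] at hw2
    -- the intersection
    have hC : ∀ j : ℕ, ∃ C : Submodule O E, Idl c C ∧ c ^ (j * N') ≤ P ⊔ C ∧
        ∀ w ∈ C, ∀ i < j, (Ψ ^ i * r g⁻¹) * w * (r g * Φ ^ i) ∈ An c y := by
      intro j
      induction j with
      | zero =>
        refine ⟨Ac c, ⟨le_rfl, fun a ha x hx => Ac_mul ha hx⟩, ?_, ?_⟩
        · exact (Ac_pow c _).trans le_sup_right
        · intro w _ i hi
          exact absurd hi (Nat.not_lt_zero _)
      | succ j ihj =>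
        obtain ⟨C, hC1, hC2, hC3⟩ := ihj
        obtain ⟨B, hB1, hB2, hB3⟩ := hB j
        refine ⟨C ⊓ B, hC1.inf hB1, ?_, ?_⟩
        · have e : (j + 1) * N' = j * N' + N' := by ring
          rw [e]
          exact Idl.key hc hPi hC1 hB1 hC2 hB2
        · rintro w ⟨hw1, hw2⟩ i hi
          rcases Nat.lt_succ_iff_lt_or_eq.1 hi with h1 | rfl
          · exact hC3 w hw1 i h1
          · exact hB3 w hw2
    obtain ⟨C, hC1, hC2, hC3⟩ := hC n
    refine hC2.trans (sup_le ?_ ?_)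
    · rw [hP]
      refine sup_le le_sup_left (le_trans ?_ le_sup_right)
      intro w hw
      rw [An_mem]
      refine ⟨(Ia_idl hc (a, g)).le hw, ?_⟩
      rw [← mul_assoc, Ac_comm hc ((Ia_idl hc (a, g)).le hw) hz, mul_assoc,
        Multi_IaR h.dt hc hS hd g y w hw, mul_zero]
    · refine le_trans ?_ le_sup_right
      intro w hw
      rw [An_mem]
      refine ⟨hC1.le hw, ?_⟩
      have h1 : w * (r g * (ide n ζ Φ d * y)) = 0 := by
        unfold ide
        rw [smul_mul_assoc, mul_smul_comm, mul_smul_comm, Finset.sum_mul, Finset.mul_sum,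
          Finset.mul_sum]
        have h2 : ∀ i ∈ Finset.range n, w * (r g * (ζ ^ ((n - 1) * d * i) • Φ ^ i * y)) = 0 := by
          intro i hi
          have h3 := (An_mem.1 (hC3 w hw i (Finset.mem_range.1 hi))).2
          rw [smul_mul_assoc, mul_smul_comm, mul_smul_comm]
          have h4 : w * (r g * (Φ ^ i * y)) =
              (r g * Φ ^ i) * ((Ψ ^ i * r g⁻¹) * w * (r g * Φ ^ i) * y) := by
            calc w * (r g * (Φ ^ i * y)) = 1 * w * (r g * Φ ^ i) * y := by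
                  rw [one_mul]; simp only [mul_assoc]
              _ = ((r g * Φ ^ i) * (Ψ ^ i * r g⁻¹)) * w * (r g * Φ ^ i) * y := by
                  rw [(Multi_units h g i).2]
              _ = _ := by simp only [mul_assoc]
          rw [h4, h3, mul_zero, smul_zero]
        rw [Finset.sum_eq_zero h2, smul_zero]
      rw [← mul_assoc, Ac_comm hc (hC1.le hw) hz, mul_assoc, h1, mul_zero]

/-- span of the chains -/
def Qs (n : ℕ) (ζ : O) (Φ : E) (r : G →* E) (c : Submodule O E) (S : Set (ZMod n))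
    (l : List ℕ) : Submodule O E := Submodule.span O (Mon n ζ Φ r c S l)

theorem Qs_g (hc : Ex n r Φ Ψ c) {S : Set (ZMod n)} (l : List ℕ) (g : G) :
    ∀ x ∈ Qs n ζ Φ r c S l, r g * x ∈ Qs n ζ Φ r c S l := by
  intro x hx
  unfold Qs at hx ⊢
  induction hx using Submodule.span_induction with
  | mem x hx =>
    refine Submodule.subset_span ?_
    cases l with
    | nil => exact Set.mem_univ _
    | cons a l =>
      obtain ⟨z, hz, g', d, y, hd, hy, rfl⟩ := hx
      refine ⟨r g * z * r g⁻¹, Ac_conj (Plus_rinv r g) (Plus_rinv' r g) (hc.cg g) z hz, g * g', d, y,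
        hd, hy, ?_⟩
      rw [map_mul]
      calc r g * (z * (r g' * (ide n ζ Φ d * y))) = r g * z * 1 * (r g' * (ide n ζ Φ d * y)) := by
            rw [mul_one]; simp only [mul_assoc]
        _ = r g * z * (r g⁻¹ * r g) * (r g' * (ide n ζ Φ d * y)) := by rw [Plus_rinv]
        _ = _ := by simp only [mul_assoc]
  | zero => rw [mul_zero]; exact Submodule.zero_mem _
  | add a b _ _ h1 h2 => rw [mul_add]; exact Submodule.add_mem _ h1 h2
  | smul o a _ h1 => rw [mul_smul_comm]; exact Submodule.smul_mem _ o h1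

theorem Qs_p {φ : G →* G} (h : GRep n φ ζ Φ Ψ r) (hc : Ex n r Φ Ψ c) {S : Set (ZMod n)}
    (l : List ℕ) : ∀ x ∈ Qs n ζ Φ r c S l, Φ * x ∈ Qs n ζ Φ r c S l := by
  intro x hx
  unfold Qs at hx ⊢
  induction hx using Submodule.span_induction with
  | mem x hx =>
    cases l with
    | nil => exact Submodule.subset_span (Set.mem_univ _)
    | cons a l =>
      obtain ⟨z, hz, g', d, y, hd, hy, rfl⟩ := hx
      have e : Φ * (z * (r g' * (ide n ζ Φ d * y))) =
          ζ ^ d • ((Φ * z * Ψ) * (r (φ g') * (ide n ζ Φ d * y))) := by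
        have h1 : Φ * r g' = r (φ g') * Φ := by
          have := h.comm_pow 1 g'
          simpa using this
        calc Φ * (z * (r g' * (ide n ζ Φ d * y)))
            = Φ * z * 1 * (r g' * (ide n ζ Φ d * y)) := by rw [mul_one]; simp only [mul_assoc]
          _ = Φ * z * (Ψ * Φ) * (r g' * (ide n ζ Φ d * y)) := by rw [h.qp]
          _ = (Φ * z * Ψ) * ((Φ * r g') * (ide n ζ Φ d * y)) := by simp only [mul_assoc]
          _ = (Φ * z * Ψ) * (r (φ g') * ((Φ * ide n ζ Φ d) * y)) := by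
              rw [h1]; simp only [mul_assoc]
          _ = _ := by rw [ide_phi h.dt, smul_mul_assoc, mul_smul_comm, mul_smul_comm]
      rw [e]
      refine Submodule.smul_mem _ _ (Submodule.subset_span ⟨Φ * z * Ψ,
        Ac_conj h.qp h.pq hc.cp z hz, φ g', d, y, hd, hy, rfl⟩)
  | zero => rw [mul_zero]; exact Submodule.zero_mem _
  | add a b _ _ h1 h2 => rw [mul_add]; exact Submodule.add_mem _ h1 h2
  | smul o a _ h1 => rw [mul_smul_comm]; exact Submodule.smul_mem _ o h1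

theorem Qs_c {S : Set (ZMod n)} (l : List ℕ) {u : E} (hu : u ∈ Ac c) :
    ∀ x ∈ Qs n ζ Φ r c S l, u * x ∈ Qs n ζ Φ r c S l := by
  intro x hx
  unfold Qs at hx ⊢
  induction hx using Submodule.span_induction with
  | mem x hx =>
    refine Submodule.subset_span ?_
    cases l with
    | nil => exact Set.mem_univ _
    | cons a l =>
      obtain ⟨z, hz, g', d, y, hd, hy, rfl⟩ := hx
      exact ⟨u * z, Ac_mul hu hz, g', d, y, hd, hy, by rw [mul_assoc]⟩
  | zero => rw [mul_zero]; exact Submodule.zero_mem _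
  | add a b _ _ h1 h2 => rw [mul_add]; exact Submodule.add_mem _ h1 h2
  | smul o a _ h1 => rw [mul_smul_comm]; exact Submodule.smul_mem _ o h1

theorem Qs_le {φ : G →* G} (h : GRep n φ ζ Φ Ψ r) (hc : Ex n r Φ Ψ c) {S : Set (ZMod n)}
    (a : ℕ) (l : List ℕ) : Qs n ζ Φ r c S (a :: l) ≤ Qs n ζ Φ r c S l := by
  refine Submodule.span_le.2 ?_
  rintro x ⟨z, hz, g', d, y, hd, hy, rfl⟩
  exact Qs_c l hz _ (Qs_g hc l g' _ (ide_stab (n := n) (ζ := ζ) (Qs_p h hc l) d y
    (Submodule.subset_span hy)))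

theorem Qs_step {φ : G →* G} (h : GRep n φ ζ Φ Ψ r) (hc : Ex n r Φ Ψ c) {S : Set (ZMod n)}
    {N : Subgroup G} (a : ℕ) (l : List ℕ) (hT : Triv n φ (Pa n a S) N) :
    ∀ g ∈ N, ∀ x ∈ Qs n ζ Φ r c S l, (r g - 1) * x ∈ Qs n ζ Φ r c S (a :: l) := by
  refine rel n φ (Pa n a S) N hT ζ Φ Ψ r h _ _ (Qs_le h hc a l) ⟨Qs_g hc l, Qs_p h hc l⟩
    ⟨Qs_g hc _, Qs_p h hc _⟩ ?_
  intro i hi x hx
  unfold Qs at hx
  induction hx using Submodule.span_induction with
  | mem x hx =>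
    refine Submodule.subset_span ⟨1, Ac_one c, 1, i, x, hi, hx, ?_⟩
    rw [map_one, one_mul, one_mul]
  | zero => rw [mul_zero]; exact Submodule.zero_mem _
  | add a b _ _ h1 h2 => rw [mul_add]; exact Submodule.add_mem _ h1 h2
  | smul o a _ h1 => rw [mul_smul_comm]; exact Submodule.smul_mem _ o h1

theorem Ex.opD (h : Ex n r Φ Ψ c) {D : Submodule O E} (hD : Stab r Φ D)
    (hcD : ∀ a ∈ c, ∀ x ∈ D, a * x ∈ D) : Op n r Φ Ψ c D ⊥ where
  le := bot_le
  sD := hD
  sB := h.op.sB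
  cg := h.cg
  cp := h.cp
  cD := hcD
  cB := h.op.cB
  comm := fun a ha b hb x _ => h.op.comm a ha b hb x Submodule.mem_top
  tr := h.tr
  nil := by
    obtain ⟨K, hK⟩ := h.nil
    exact ⟨K, by rw [hK, Submodule.bot_mul]⟩

/-- telescoping through the chain -/
theorem Multi_tel {φ : G →* G} (h : GRep n φ ζ Φ Ψ r) (hc : Ex n r Φ Ψ c) {S : Set (ZMod n)}
    {N : Subgroup G} (a : ℕ) (l : List ℕ) (hT : Triv n φ (Pa n a S) N) (j : ℕ) :
    ag O r N * (c ^ (j + 1) * Qs n ζ Φ r c S l) ≤ c ^ j * Qs n ζ Φ r c S (a :: l) := by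
  have hstep := Qs_step h hc a l hT
  have hcQ : c ^ (j + 1) * Qs n ζ Φ r c S (a :: l) ≤ c ^ j * Qs n ζ Φ r c S (a :: l) := by
    rw [pow_succ, mul_assoc]
    refine mul_le_mul' le_rfl (Submodule.mul_le.2 fun u hu x hx => Qs_c _ (Ac_le c hu) x hx)
  unfold ag
  rw [Submodule.mul_le]
  intro u hu x hx
  induction hu using Submodule.span_induction with
  | mem u hu =>
    obtain ⟨g, hg, rfl⟩ := hu
    induction hx using Submodule.mul_induction_on' with
    | mem_mul_mem z hz x hx =>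
      have e : (r g - 1) * (z * x) = (r g * z * r g⁻¹) * ((r g - 1) * x) +
          (r g * z * r g⁻¹ - z) * x := by
        have e1 : r g * z = (r g * z * r g⁻¹) * r g := by
          rw [mul_assoc, Plus_rinv, mul_one]
        calc (r g - 1) * (z * x) = (r g * z) * x - z * x := by noncomm_ring
          _ = ((r g * z * r g⁻¹) * r g) * x - z * x := by rw [← e1]
          _ = _ := by noncomm_ring
      rw [e]
      refine Submodule.add_mem _ ?_ ?_
      · exact hcQ (Submodule.mul_mem_mul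
          (Plus_cpow (Plus_rinv r g) (Plus_rinv' r g) (hc.cg g) _ z hz) (hstep g hg x hx))
      · have h1 := Plus_tel (hc.opD ⟨Qs_g hc l, Qs_p h hc l⟩
          fun a ha x hx => Qs_c l (Ac_le c ha) x hx) N (Qs n ζ Φ r c S (a :: l)) hstep g hg j z hz
            x hx
        refine (sup_le (sup_le le_rfl hcQ) bot_le) h1
    | add x _ y _ h1 h2 => rw [mul_add]; exact Submodule.add_mem _ h1 h2
  | zero => rw [zero_mul]; exact Submodule.zero_mem _
  | add a b _ _ h1 h2 => rw [add_mul]; exact Submodule.add_mem _ h1 h2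
  | smul o a _ h1 => rw [smul_mul_assoc]; exact Submodule.smul_mem _ o h1

theorem Multi_chain {φ : G →* G} (h : GRep n φ ζ Φ Ψ r) (hc : Ex n r Φ Ψ c) {S : Set (ZMod n)}
    {N : Subgroup G} (l : List ℕ) (hT : ∀ a ∈ l, Triv n φ (Pa n a S) N) : ∀ M : ℕ,
    (ag O r N) ^ l.length * (c ^ (M + l.length) * ⊤) ≤ c ^ M * Qs n ζ Φ r c S l := by
  induction l with
  | nil =>
    intro M
    rw [List.length_nil, pow_zero, one_mul, add_zero]
    refine mul_le_mul' le_rfl ?_
    intro x _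
    exact Submodule.subset_span (Set.mem_univ _)
  | cons a l ih =>
    intro M
    have h1 := ih (fun b hb => hT b (List.mem_cons_of_mem _ hb)) (M + 1)
    have e : M + (a :: l).length = (M + 1) + l.length := by
      rw [List.length_cons]; ring
    rw [e, List.length_cons, pow_succ', mul_assoc]
    exact (mul_le_mul' le_rfl h1).trans (Multi_tel h hc a l (hT a List.mem_cons_self) M)

/-- the main step in the exact case -/
theorem multi_core {φ : G →* G} (h : GRep n φ ζ Φ Ψ r) (hL : ∀ t : G, ∃ s : G, t = s⁻¹ * φ s)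
    (hφ : ∀ g, (⇑φ)^[n] g = g) (hc : Ex n r Φ Ψ c) {S : Set (ZMod n)} (hS : Sup n ζ Φ S)
    {N : Subgroup G} (a : ℕ) (l : List ℕ) (hs : (a :: l).sum % n = 1 % n)
    (hT : ∀ b ∈ a :: l, Triv n φ (Pa n b S) N) :
    (ag O r N) ^ (l.length + 1) * (c ^ (NN n (l.length + 1) l.length + l.length) * ⊤) ≤ ⊥ := by
  have h1 := Multi_chain h hc l (fun b hb => hT b (List.mem_cons_of_mem _ hb))
    (NN n (l.length + 1) l.length)
  rw [pow_succ', mul_assoc]
  refine (mul_le_mul' le_rfl h1).trans ?_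
  have hrΦ : ∀ g : G, ∃ g' : G, r g * Φ = Φ * r g' := by
    intro g
    refine ⟨(⇑φ)^[n - 1] g, ?_⟩
    have h1 := h.comm_pow (n - 1) g
    have h2 : Φ * Φ ^ (n - 1) = 1 := by rw [← h.dt.psi]; exact h.pq
    have h3 : Φ ^ (n - 1) * Φ = 1 := by rw [← h.dt.psi]; exact h.qp
    calc r g * Φ = Φ * (Φ ^ (n - 1) * r g) * Φ := by rw [← mul_assoc, h2, one_mul]
      _ = Φ * (r ((⇑φ)^[n - 1] g) * Φ ^ (n - 1)) * Φ := by rw [h1]
      _ = Φ * r ((⇑φ)^[n - 1] g) * (Φ ^ (n - 1) * Φ) := by simp only [mul_assoc]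
      _ = Φ * r ((⇑φ)^[n - 1] g) := by rw [h3, mul_one]
  obtain ⟨D1, hD1⟩ : ∃ D1 : Submodule O E, ∀ x, x ∈ D1 ↔ ∀ (g : G) (d : ℕ),
      (d : ZMod n) ∉ Pa n a S → ide n ζ Φ d * (r g * x) = 0 := by
    refine ⟨{ carrier := {x | ∀ (g : G) (d : ℕ),
        (d : ZMod n) ∉ Pa n a S → ide n ζ Φ d * (r g * x) = 0}
              add_mem' := ?_, zero_mem' := ?_, smul_mem' := ?_ }, fun x => Iff.rfl⟩
    · intro x y hx hy g d hd
      rw [mul_add, mul_add, hx g d hd, hy g d hd, add_zero]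
    · intro g d hd
      rw [mul_zero, mul_zero]
    · intro o x hx g d hd
      rw [mul_smul_comm, mul_smul_comm, hx g d hd, smul_zero]
  have hD1s : Stab r Φ D1 := by
    constructor
    · intro g x hx
      rw [hD1] at hx ⊢
      intro g' d hd
      rw [← mul_assoc (r g'), ← map_mul]
      exact hx _ d hd
    · intro x hx
      rw [hD1] at hx ⊢
      intro g' d hd
      obtain ⟨g'', hg''⟩ := hrΦ g'
      rw [← mul_assoc (r g'), hg'', mul_assoc, ← mul_assoc, ← ide_comm, mul_assoc, hx g'' d hd,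
        mul_zero]
  have hN1 : ∀ g ∈ N, ∀ x ∈ D1, (r g - 1) * x ∈ (⊥ : Submodule O E) := by
    refine rel n φ (Pa n a S) N (hT a List.mem_cons_self) ζ Φ Ψ r h ⊥ D1 bot_le hD1s hc.op.sB ?_
    intro i hi x hx
    rw [hD1] at hx
    have h1 := hx 1 i hi
    rw [map_one, one_mul] at h1
    rw [Submodule.mem_bot, h1]
  have hQD : c ^ (NN n (l.length + 1) l.length) * Qs n ζ Φ r c S l ≤ D1 := by
    rw [Submodule.mul_le]
    intro z hz x hx
    rw [hD1]
    intro g d hd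
    unfold Qs at hx
    induction hx using Submodule.span_induction with
    | mem x hx =>
      have h2 := Multi_ann h hL hφ hc hS l [(a, g⁻¹)] (by
        rw [List.map_cons, List.map_nil, List.sum_cons, List.sum_nil, add_zero]
        rw [List.sum_cons] at hs
        exact hs) x hx
      have e : [(a, g⁻¹)].length + l.length = l.length + 1 := by
        rw [List.length_cons, List.length_nil]; ring
      rw [e] at h2
      obtain ⟨u, hu, v, hv, huv⟩ := Submodule.mem_sup.1 (h2 hz)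
      have hu' : u ∈ Ia n ζ Φ r c (a, g⁻¹) := by
        have : TI n ζ Φ r c [(a, g⁻¹)] = Ia n ζ Φ r c (a, g⁻¹) := sup_bot_eq _
        rwa [this] at hu
      have h3 := Multi_IaL h hc hS hd g u hu'
      have h4 := (An_mem.1 hv).2
      rw [← huv, add_mul, h4, add_zero, ← mul_assoc (r g), ← mul_assoc, h3, zero_mul]
    | zero => rw [mul_zero, mul_zero, mul_zero]
    | add x y _ _ h1 h2 => rw [mul_add, mul_add, mul_add, h1, h2, add_zero]
    | smul o x _ h1 => rw [mul_smul_comm, mul_smul_comm, mul_smul_comm, h1, smul_zero]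
  refine (mul_le_mul' le_rfl hQD).trans ?_
  unfold ag
  rw [Submodule.mul_le]
  intro u hu x hx
  induction hu using Submodule.span_induction with
  | mem u hu =>
    obtain ⟨g, hg, rfl⟩ := hu
    exact hN1 g hg x hx
  | zero => rw [zero_mul]; exact Submodule.zero_mem _
  | add a b _ _ h1 h2 => rw [add_mul]; exact Submodule.add_mem _ h1 h2
  | smul o a _ h1 => rw [smul_mul_assoc]; exact Submodule.smul_mem _ o h1

end aux

/-- passing to the endomorphism algebra of `D / B` -/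
theorem op_exact {O A G : Type} [CommRing O] [Ring A] [Algebra O A] [Group G] {n : ℕ}
    {φ : G →* G} {ζ : O} {Φ Ψ : A} {r : G →* A} (h : GRep n φ ζ Φ Ψ r) {S : Set (ZMod n)}
    (hS : Sup n ζ Φ S) {c D B : Submodule O A} (hO : Op n r Φ Ψ c D B) :
    ∃ (E : Type) (_ : Ring E) (_ : Algebra O E) (Φ' Ψ' : E) (r' : G →* E) (c' : Submodule O E),
      GRep n φ ζ Φ' Ψ' r' ∧ Sup n ζ Φ' S ∧ Ex n r' Φ' Ψ' c' ∧
      ∀ (m : ℕ) (g : G), (∀ z ∈ c' ^ m, (r' g - 1) * z = 0) →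
        ∀ x ∈ c ^ m * D, (r g - 1) * x ∈ B := by
  have hD := hO.sD
  have hB := hO.sB
  have hΦ : Φ ∈ Rel_S D B := ⟨hD.p, hB.p⟩
  have hΨ : Ψ ∈ Rel_S D B := by
    rw [h.dt.psi]
    exact pow_mem hΦ _
  have hρ : ∀ g, r g ∈ Rel_S D B := fun g => ⟨hD.g g, hB.g g⟩
  let ρS : G →* Rel_S D B :=
    { toFun := fun g => ⟨r g, hρ g⟩
      map_one' := Subtype.ext (map_one r)
      map_mul' := fun a b => Subtype.ext (map_mul r a b) }
  let L := Rel_L D B
  let V := (Rel_S D B).val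
  have hVinj : Function.Injective V := Subtype.val_injective
  have hval : ((Rel_S D B).val : Rel_S D B →* A).comp ρS = r := by
    ext g
    rfl
  have hrep : GRep n φ ζ (L ⟨Φ, hΦ⟩) (L ⟨Ψ, hΨ⟩) ((L : Rel_S D B →* _).comp ρS) := by
    refine ⟨h.prim, ?_, ?_, ?_, ?_, ?_⟩
    · rw [← map_mul, ← map_one L]
      exact congrArg L (Subtype.ext h.pq)
    · rw [← map_mul, ← map_one L]
      exact congrArg L (Subtype.ext h.qp)
    · rw [← map_pow, ← map_one L]
      exact congrArg L (Subtype.ext h.pow)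
    · intro g
      have h1 := h.eq g
      have h' : (⟨Φ, hΦ⟩ : Rel_S D B) * ρS g * ⟨Ψ, hΨ⟩ = ρS (φ g) := Subtype.ext h1
      have := congrArg L h'
      rw [map_mul, map_mul] at this
      exact this
    · obtain ⟨K, hK⟩ := h.nil
      refine ⟨K, ?_⟩
      rw [Rel_aug L ρS]
      have h0 : (aug O ρS) ^ K = ⊥ := by
        have h1 : ((aug O ρS) ^ K).map (Rel_S D B).val.toLinearMap = ⊥ := by
          rw [Submodule.map_pow, ← Rel_aug (Rel_S D B).val ρS, hval, hK]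
        rw [eq_bot_iff]
        intro x hx
        have hx' : (Rel_S D B).val x ∈ ((aug O ρS) ^ K).map (Rel_S D B).val.toLinearMap :=
          Submodule.mem_map_of_mem hx
        rw [h1, Submodule.mem_bot] at hx'
        rw [Submodule.mem_bot]
        exact Subtype.ext hx'
      rw [← Submodule.map_pow, h0, Submodule.map_bot]
  have hsupp : Sup n ζ (L ⟨Φ, hΦ⟩) S := by
    intro i hi
    rw [← Rel_ide L (⟨Φ, hΦ⟩ : Rel_S D B) i]
    have hval2 : V (ide n ζ (⟨Φ, hΦ⟩ : Rel_S D B) i) = 0 := by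
      rw [Rel_ide V, show V (⟨Φ, hΦ⟩ : Rel_S D B) = Φ from rfl, hS i hi]
    have h3 : ide n ζ (⟨Φ, hΦ⟩ : Rel_S D B) i = 0 := hVinj (by rw [hval2, map_zero])
    rw [h3, map_zero]
  -- the operators
  obtain ⟨cS, hcS⟩ : ∃ cS : Submodule O (Rel_S D B), cS = c.comap V.toLinearMap := ⟨_, rfl⟩
  have hcSm : ∀ u : Rel_S D B, u ∈ cS ↔ (u : A) ∈ c := fun u => by rw [hcS]; exact Iff.rfl
  have hcmap : cS.map V.toLinearMap = c := by
    rw [hcS]
    refine le_antisymm (Submodule.map_comap_le _ _) ?_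
    intro a ha
    exact ⟨⟨a, hO.cD a ha, hO.cB a ha⟩, ha, rfl⟩
  have hcpow : ∀ (m : ℕ) (a : A), a ∈ c ^ m → ∃ u ∈ cS ^ m, V u = a := by
    intro m a ha
    rw [← hcmap, ← Submodule.map_pow] at ha
    exact ha
  have hLzero : ∀ u : Rel_S D B, (∀ x ∈ D, (u : A) * x ∈ B) → L u = 0 := by
    intro u hu
    apply LinearMap.ext
    intro q
    obtain ⟨x, rfl⟩ := Submodule.Quotient.mk_surjective _ q
    rw [Rel_L_apply, LinearMap.zero_apply, Submodule.Quotient.mk_eq_zero]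
    exact hu x x.2
  have hLzero' : ∀ u : Rel_S D B, L u = 0 → ∀ x ∈ D, (u : A) * x ∈ B := by
    intro u hu x hx
    have h1 : L u (Submodule.Quotient.mk (⟨x, hx⟩ : D)) = 0 := by rw [hu]; rfl
    rw [Rel_L_apply, Submodule.Quotient.mk_eq_zero] at h1
    exact h1
  refine ⟨Module.End O (↥D ⧸ B.submoduleOf D), inferInstance, inferInstance, L ⟨Φ, hΦ⟩,
    L ⟨Ψ, hΨ⟩, (L : Rel_S D B →* _).comp ρS, cS.map L.toLinearMap, hrep, hsupp, ?_, ?_⟩
  · constructor
    · rintro g _ ⟨u, hu, rfl⟩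
      refine ⟨ρS g * u * ρS g⁻¹, ?_, ?_⟩
      · rw [SetLike.mem_coe, hcSm] at hu ⊢
        exact hO.cg g _ hu
      · show L (ρS g * u * ρS g⁻¹) = L (ρS g) * L u * L (ρS g⁻¹)
        rw [map_mul, map_mul]
    · rintro _ ⟨u, hu, rfl⟩
      refine ⟨⟨Φ, hΦ⟩ * u * ⟨Ψ, hΨ⟩, ?_, ?_⟩
      · rw [SetLike.mem_coe, hcSm] at hu ⊢
        exact hO.cp _ hu
      · show L (⟨Φ, hΦ⟩ * u * ⟨Ψ, hΨ⟩) = L ⟨Φ, hΦ⟩ * L u * L ⟨Ψ, hΨ⟩
        rw [map_mul, map_mul]
    · rintro _ ⟨u, hu, rfl⟩ _ ⟨v, hv, rfl⟩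
      rw [SetLike.mem_coe, hcSm] at hu hv
      show L u * L v = L v * L u
      rw [← sub_eq_zero, ← map_mul, ← map_mul, ← map_sub]
      exact hLzero _ fun x hx => hO.comm u hu v hv x hx
    · rintro _ ⟨u, hu, rfl⟩
      rw [SetLike.mem_coe, hcSm] at hu
      have h1 := hO.tr u hu
      have h2 : ∑ j ∈ Finset.range n, (⟨Φ, hΦ⟩ : Rel_S D B) ^ j * u * (⟨Ψ, hΨ⟩ : Rel_S D B) ^ j ∈
          cS * cS := by
        have h3 : V (∑ j ∈ Finset.range n, (⟨Φ, hΦ⟩ : Rel_S D B) ^ j * u *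
            (⟨Ψ, hΨ⟩ : Rel_S D B) ^ j) ∈ (cS * cS).map V.toLinearMap := by
          rw [Submodule.map_mul, hcmap, map_sum]
          simp only [map_mul, map_pow]
          exact h1
        obtain ⟨w, hw, hw2⟩ := h3
        have h4 : w = _ := hVinj hw2
        rw [← h4]
        exact hw
      have h5 : ∑ j ∈ Finset.range n, (L ⟨Φ, hΦ⟩) ^ j * L u * (L ⟨Ψ, hΨ⟩) ^ j =
          L (∑ j ∈ Finset.range n, (⟨Φ, hΦ⟩ : Rel_S D B) ^ j * u *
            (⟨Ψ, hΨ⟩ : Rel_S D B) ^ j) := by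
        rw [map_sum]
        simp only [map_mul, map_pow]
      show ∑ j ∈ Finset.range n, (L ⟨Φ, hΦ⟩) ^ j * L u * (L ⟨Ψ, hΨ⟩) ^ j ∈ _
      rw [h5, ← Submodule.map_mul]
      exact ⟨_, h2, rfl⟩
    · obtain ⟨K, hK⟩ := hO.nil
      refine ⟨K, ?_⟩
      rw [← Submodule.map_pow, eq_bot_iff]
      rintro _ ⟨u, hu, rfl⟩
      rw [Submodule.mem_bot]
      show L u = 0
      refine hLzero u fun x hx => hK (Submodule.mul_mem_mul ?_ hx)
      have h1 : V u ∈ (cS ^ K).map V.toLinearMap := ⟨u, hu, rfl⟩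
      rw [Submodule.map_pow, hcmap] at h1
      exact h1
  · intro m g hz x hx
    induction hx using Submodule.mul_induction_on' with
    | mem_mul_mem z hz' y hy =>
      obtain ⟨u, hu, rfl⟩ := hcpow m z hz'
      have h1 : L u ∈ (cS.map L.toLinearMap) ^ m := by
        rw [← Submodule.map_pow]
        exact ⟨u, hu, rfl⟩
      have h2 : (L (ρS g) - 1) * L u = 0 := hz _ h1
      rw [← map_one L, ← map_sub, ← map_mul] at h2
      have h3 := hLzero' _ h2 y hy
      have e : (r g - 1) * (V u * y) = (((ρS g - 1) * u : Rel_S D B) : A) * y := by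
        rw [← mul_assoc]
        rfl
      rw [e]
      exact h3
    | add x _ y _ h1 h2 => rw [mul_add]; exact B.add_mem h1 h2

theorem split_iter {G : Type} [Group G] {n : ℕ} {φ : G →* G} (hs : Split n φ) (g : G) :
    (⇑φ)^[n] g = g := by
  have h1 := hs g
  have h2 := hs (φ g)
  have h3 : ((List.range (n + 1)).map fun j => (⇑φ)^[j] g).prod = (⇑φ)^[n] g := by
    rw [List.range_succ, List.map_append, List.prod_append, h1, one_mul]
    simp
  have h4 : ((List.range (n + 1)).map fun j => (⇑φ)^[j] g).prod = g := by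
    rw [List.range_succ_eq_map, List.map_cons, List.prod_cons, List.map_map]
    have e : ((List.range n).map ((fun j => (⇑φ)^[j] g) ∘ Nat.succ)) =
        (List.range n).map fun j => (⇑φ)^[j] (φ g) := by
      refine List.map_congr_left fun j _ => ?_
      show (⇑φ)^[j + 1] g = _
      rw [Function.iterate_succ_apply]
    rw [e, h2, mul_one]
    rfl
  rw [← h3, h4]

/-- the basic step for a list with sum `1` modulo `n` -/
theorem good_multi {G : Type} [Group G] (n : ℕ) (φ : G →* G) (hs : Split n φ)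
    (hL : ∀ t : G, ∃ s : G, t = s⁻¹ * φ s) (S : Set (ZMod n)) (N : Subgroup G) (hN : N.Normal)
    (a : ℕ) (l : List ℕ) (hsum : (a :: l).sum % n = 1 % n)
    (hT : ∀ b ∈ a :: l, Triv n φ (Pa n b S) N) :
    Good n φ S (derG (l.length + 1) N) (NN n (l.length + 1) l.length + l.length) := by
  intro O A _ _ _ ζ Φ Ψ r h hS c D B hO g hg x hx
  obtain ⟨E, _, _, Φ', Ψ', r', c', h', hS', hc', htr⟩ := op_exact h hS hO
  refine htr _ g ?_ x hx
  intro z hz
  have h1 := multi_core h' hL (split_iter hs) hc' hS' a l hsum hT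
  have h2 := ag_lcs (O := O) r' N _ g (derG_le_lcs N hN (l.length + 1) hg)
  have e : 2 ^ (l.length + 1) - 1 + 1 = (2 ^ (l.length + 1) - (l.length + 1)) + (l.length + 1) := by
    have h3 : l.length + 1 < 2 ^ (l.length + 1) := Nat.lt_two_pow_self
    omega
  rw [e, pow_add] at h2
  have h3 : (r' g - 1) * z ∈ (ag O r' N) ^ (2 ^ (l.length + 1) - (l.length + 1)) *
      ((ag O r' N) ^ (l.length + 1) * (c' ^ (NN n (l.length + 1) l.length + l.length) * ⊤)) := by
    rw [← mul_assoc]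
    refine Submodule.mul_mem_mul h2 ?_
    have h4 := Submodule.mul_mem_mul hz (Submodule.mem_top (x := (1 : E)))
    rwa [mul_one] at h4
  have h4 := (mul_le_mul' le_rfl h1) h3
  rw [Submodule.mul_bot] at h4
  exact h4

/-- **Reduction to periodic supports**, general form -/
theorem thR_multi (n k : ℕ) : ∃ w : ℕ, ∀ (G : Type) [Group G] (φ : G →* G),
    Split n φ → (∀ t : G, ∃ s : G, t = s⁻¹ * φ s) → ∀ (S : Set (ZMod n)) (N : Subgroup G),
    N.Normal → (∀ g ∈ N, φ g ∈ N) → ∀ l : List ℕ, l.length = k + 1 → l.sum % n = 1 % n →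
    (∀ a ∈ l, Triv n φ (Pa n a S) N) → Triv n φ S (derG w N) := by
  obtain ⟨w, hw⟩ := thR_good n (NN n (k + 1) k + k)
  refine ⟨k + 1 + w, ?_⟩
  intro G _ φ hs hL S N hN hNφ l hl hsum hT
  obtain ⟨a, l, rfl⟩ : ∃ a l', l = a :: l' := by
    cases l with
    | nil => simp at hl
    | cons a l => exact ⟨a, l, rfl⟩
  have hlk : l.length = k := by simpa using hl
  have hnorm : ∀ j, (derG j N).Normal := by
    intro j
    induction j with
    | zero => exact hN
    | succ j ih => exact Subgroup.commutator_normal _ _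
  have hphi : ∀ j, ∀ g ∈ derG j N, φ g ∈ derG j N := by
    intro j
    induction j with
    | zero => exact hNφ
    | succ j ih =>
      have h2 : ⁅derG j N, derG j N⁆ ≤ (⁅derG j N, derG j N⁆ : Subgroup G).comap φ := by
        rw [Subgroup.commutator_le]
        intro a ha b hb
        rw [Subgroup.mem_comap, map_commutatorElement]
        exact Subgroup.commutator_mem_commutator (ih a ha) (ih b hb)
      exact fun g hg => h2 hg
  have hgood := good_multi n φ hs hL S N hN a l hsum hT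
  rw [hlk] at hgood
  have h1 := hw G φ hs S (derG (k + 1) N) (hnorm _) (hphi _) hgood
  have e : ∀ w, derG w (derG (k + 1) N) = derG (k + 1 + w) N := by
    intro w
    induction w with
    | zero => rfl
    | succ w ih =>
      show ⁅derG w (derG (k + 1) N), derG w (derG (k + 1) N)⁆ =
        ⁅derG (k + 1 + w) N, derG (k + 1 + w) N⁆
      rw [ih]
  rwa [e] at h1

end Pool.Agent.ThR
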