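import Pool.Agent.ThR.Multi

/-!
# Only periodic supports are left

`thR_primes`: if `N` acts trivially on all graded algebras with support in `S_q` = union of the cosets of the
subgroup of order `q` contained in `S`, for every prime `q ∣ n`, then `derG w N` acts trivially on all graded
algebras with support in `S`. `thR_periodic`: if `derG s ⊤` acts trivially for all periodic supports `S` (unions of
cosets of a nonzero subgroup of `ZMod n`) with `0 ∉ S` then `derG (s + n * w) ⊤` acts trivially for all supports `S`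
with `0 ∉ S`.
-/

set_option autoImplicit false

open scoped commutatorElement

namespace Pool.Agent.ThR

open Pool.Agent.LgP

theorem Sup.mono {O A : Type} [CommRing O] [Ring A] [Algebra O A] {n : ℕ} {ζ : O} {Φ : A}
    {S T : Set (ZMod n)} (h : Sup n ζ Φ S) (hST : S ⊆ T) : Sup n ζ Φ T :=
  fun i hi => h i fun h1 => hi (hST h1)

theorem Triv.anti {G : Type} [Group G] {n : ℕ} {φ : G →* G} {S T : Set (ZMod n)} {N : Subgroup G}
    (h : Triv n φ T N) (hST : S ⊆ T) : Triv n φ S N :=
  fun O A _ _ _ ζ Φ Ψ r hr hS g hg => h O A ζ Φ Ψ r hr (hS.mono hST) g hg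

theorem Triv.sub {G : Type} [Group G] {n : ℕ} {φ : G →* G} {S : Set (ZMod n)} {N K : Subgroup G}
    (h : Triv n φ S N) (hK : K ≤ N) : Triv n φ S K :=
  fun O A _ _ _ ζ Φ Ψ r hr hS g hg => h O A ζ Φ Ψ r hr hS g (hK hg)

theorem Triv.empty {G : Type} [Group G] {n : ℕ} {φ : G →* G} (N : Subgroup G) :
    Triv n φ ∅ N := by
  intro O A _ _ _ ζ Φ Ψ r hr hS g _
  have h1 := ide_sum hr.dt
  rw [Finset.sum_eq_zero fun i _ => hS i (Set.notMem_empty _)] at h1
  have h2 : ∀ a : A, a = 0 := fun a => by rw [← one_mul a, ← h1, zero_mul]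
  rw [h2 (r g), h2 1]

theorem Pa_zero (n : ℕ) (S : Set (ZMod n)) : Pa n 0 S = ∅ := by
  rw [Set.eq_empty_iff_forall_notMem]
  rintro d ⟨b, hb, _⟩
  exact hb (zero_smul ℕ b)

/-- union of the cosets of the subgroup of order `q` contained in `S` -/
def Pq (n q : ℕ) (S : Set (ZMod n)) : Set (ZMod n) :=
  {d | ∀ k : ℕ, d + k • ((n / q : ℕ) : ZMod n) ∈ S}

theorem Pq_sub (n q : ℕ) (S : Set (ZMod n)) : Pq n q S ⊆ S := by
  intro d hd
  have := hd 0
  rwa [zero_smul, add_zero] at this

theorem Pa_sub_Pq (n : ℕ) (hn : 0 < n) (q : ℕ) (hq : q.Prime) (_hqn : q ∣ n) (a : ℕ)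
    (ha : n / q ^ (n.factorization q) ∣ a) (S : Set (ZMod n)) : Pa n a S ⊆ Pq n q S := by
  rintro d ⟨b, hb, hbS⟩
  have hnz : NeZero n := ⟨hn.ne'⟩
  intro k
  -- `n / q` is a multiple of `b`
  have hmul : ∃ j : ℕ, j • b = ((n / q : ℕ) : ZMod n) := by
    obtain ⟨B, hB⟩ : ∃ B : ℕ, B = b.val := ⟨_, rfl⟩
    have hbB : b = (B : ZMod n) := by rw [hB, ZMod.natCast_zmod_val]
    obtain ⟨e, he⟩ : ∃ e, e = Nat.gcd B n := ⟨_, rfl⟩
    have hen : e ∣ n := he ▸ Nat.gcd_dvd_right B n
    have heB : e ∣ B := he ▸ Nat.gcd_dvd_left B n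
    have hepos : 0 < e := Nat.pos_of_dvd_of_pos hen hn
    have hqe : q * e ∣ n := by
      by_contra hcon
      have h1 : ¬ q ∣ n / e := by
        intro h2
        apply hcon
        obtain ⟨t, ht⟩ := h2
        refine ⟨t, ?_⟩
        have h3 : n = n / e * e := (Nat.div_mul_cancel hen).symm
        rw [h3, ht]
        ring
      have h2 : (n / e).Coprime (q ^ n.factorization q) :=
        (Nat.Coprime.pow_right _ ((Nat.Prime.coprime_iff_not_dvd hq).2 h1).symm)
      have h3 : n / e ∣ q ^ n.factorization q * (n / q ^ n.factorization q) := by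
        rw [Nat.mul_div_cancel' (Nat.ordProj_dvd n q)]
        exact Nat.div_dvd_of_dvd hen
      have h4 : n / e ∣ a := (h2.dvd_of_dvd_mul_left h3).trans ha
      apply hb
      rw [hbB, nsmul_eq_mul, ← Nat.cast_mul, ZMod.natCast_eq_zero_iff]
      obtain ⟨u, hu⟩ := h4
      obtain ⟨v, hv⟩ := heB
      refine ⟨u * v, ?_⟩
      rw [hu, hv]
      have h5 : n / e * e = n := Nat.div_mul_cancel hen
      calc n / e * u * (e * v) = (n / e * e) * (u * v) := by ring
        _ = n * (u * v) := by rw [h5]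
    have hedq : e ∣ n / q := by
      obtain ⟨t, ht⟩ := hqe
      refine ⟨t, ?_⟩
      rw [ht, mul_assoc, Nat.mul_div_cancel_left _ hq.pos]
    obtain ⟨t, ht⟩ := hedq
    have h6 : ((e : ℕ) : ZMod n) = (B : ZMod n) * ((B.gcdA n : ℤ) : ZMod n) := by
      have h7 := Nat.gcd_eq_gcd_ab B n
      rw [← he] at h7
      have h8 := congrArg (fun z : ℤ => (z : ZMod n)) h7
      simp only [Int.cast_natCast, Int.cast_add, Int.cast_mul, ZMod.natCast_self, zero_mul,
        add_zero] at h8
      exact h8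
    refine ⟨(((B.gcdA n : ℤ) : ZMod n) * (t : ZMod n)).val, ?_⟩
    rw [nsmul_eq_mul, ZMod.natCast_zmod_val, hbB, ht, Nat.cast_mul, h6]
    ring
  obtain ⟨j, hj⟩ := hmul
  rw [← hj, smul_smul]
  exact hbS _

theorem idem_exists (n : ℕ) (hn : 0 < n) : ∃ a : ℕ → ℕ,
    (∑ q ∈ n.primeFactors, a q) % n = 1 % n ∧
      ∀ q ∈ n.primeFactors, n / q ^ (n.factorization q) ∣ a q := by
  have h1 : Pairwise (Function.onFun IsCoprime fun i : n.primeFactors =>
      (fun q : ℕ => ((q ^ n.factorization q : ℕ) : ℤ)) i) := by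
    intro i j hij
    show IsCoprime (((i : ℕ) ^ n.factorization i : ℕ) : ℤ) (((j : ℕ) ^ n.factorization j : ℕ) : ℤ)
    rw [Nat.isCoprime_iff_coprime]
    refine Nat.Coprime.pow _ _ ?_
    rw [Nat.coprime_primes (Nat.prime_of_mem_primeFactors i.2) (Nat.prime_of_mem_primeFactors j.2)]
    exact fun h => hij (Subtype.ext h)
  rcases Finset.eq_empty_or_nonempty n.primeFactors with h0 | h0
  · refine ⟨fun _ => 0, ?_, by rw [h0]; simp⟩
    have h2 : n = 1 := by
      rcases Nat.primeFactors_eq_empty.1 h0 with h | h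
      · omega
      · exact h
    rw [h0, h2]
    simp
  obtain ⟨μ, hμ⟩ := (exists_sum_eq_one_iff_pairwise_coprime
    (s := fun q : ℕ => ((q ^ n.factorization q : ℕ) : ℤ)) h0).2 h1
  have hprod : ∀ q ∈ n.primeFactors, (∏ j ∈ n.primeFactors \ {q}, j ^ n.factorization j) =
      n / q ^ (n.factorization q) := by
    intro q hq
    have h2 : (∏ j ∈ n.primeFactors, j ^ n.factorization j) = n := by
      have := Nat.prod_factorization_pow_eq_self hn.ne'
      rwa [Finsupp.prod, Nat.support_factorization] at this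
    rw [← Finset.prod_sdiff (Finset.singleton_subset_iff.2 hq), Finset.prod_singleton] at h2
    have h3 : 0 < q ^ n.factorization q := pow_pos (Nat.prime_of_mem_primeFactors hq).pos _
    exact (Nat.div_eq_of_eq_mul_left h3 h2.symm).symm
  refine ⟨fun q => (μ q % n).toNat * (n / q ^ (n.factorization q)), ?_, fun q _ =>
    dvd_mul_left _ _⟩
  have hnz : (n : ℤ) ≠ 0 := by exact_mod_cast hn.ne'
  have h4 : ((∑ q ∈ n.primeFactors, (μ q % n).toNat * (n / q ^ (n.factorization q)) : ℕ) : ZMod n) =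
      ((1 : ℕ) : ZMod n) := by
    have h5 := congrArg (fun z : ℤ => (z : ZMod n)) hμ
    simp only [Int.cast_sum, Int.cast_mul, Int.cast_prod, Int.cast_natCast, Int.cast_one] at h5
    rw [Nat.cast_one, ← h5, Nat.cast_sum]
    refine Finset.sum_congr rfl fun q hq => ?_
    rw [Nat.cast_mul, ← hprod q hq, Nat.cast_prod]
    congr 1
    have h6 : (((μ q % n).toNat : ℤ) : ZMod n) = ((μ q : ℤ) : ZMod n) := by
      rw [Int.toNat_of_nonneg (Int.emod_nonneg _ hnz)]
      exact ZMod.intCast_mod _ _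
    rw [← h6, Int.cast_natCast]
  exact (ZMod.natCast_eq_natCast_iff' _ _ _).1 h4

/-- **Reduction to the supports `S_q`** -/
theorem thR_primes (n : ℕ) (hn : 0 < n) : ∃ w : ℕ, ∀ (G : Type) [Group G] (φ : G →* G),
    Split n φ → (∀ t : G, ∃ s : G, t = s⁻¹ * φ s) → ∀ (S : Set (ZMod n)) (N : Subgroup G),
    N.Normal → (∀ g ∈ N, φ g ∈ N) →
    (∀ q : ℕ, q.Prime → q ∣ n → Triv n φ (Pq n q S) N) → Triv n φ S (derG w N) := by
  obtain ⟨w, hw⟩ := thR_multi n n.primeFactors.card
  obtain ⟨a, ha, ha'⟩ := idem_exists n hn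
  refine ⟨w, ?_⟩
  intro G _ φ hs hL S N hN hNφ hT
  refine hw G φ hs hL S N hN hNφ (0 :: n.primeFactors.toList.map a) (by simp) ?_ ?_
  · rw [List.sum_cons, zero_add, Finset.sum_map_toList]
    exact ha
  · intro b hb
    rcases List.mem_cons.1 hb with rfl | hb
    · rw [Pa_zero]
      exact Triv.empty N
    · obtain ⟨q, hq, rfl⟩ := List.mem_map.1 hb
      rw [Finset.mem_toList] at hq
      exact (hT q (Nat.prime_of_mem_primeFactors hq) (Nat.dvd_of_mem_primeFactors hq)).anti
        (Pa_sub_Pq n hn q (Nat.prime_of_mem_primeFactors hq) (Nat.dvd_of_mem_primeFactors hq) _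
          (ha' q hq) S)

/-- `S` is a union of cosets of a subgroup of prime order -/
def Periodic (n : ℕ) (S : Set (ZMod n)) : Prop :=
  ∃ q : ℕ, q.Prime ∧ q ∣ n ∧ ∀ d ∈ S, d + ((n / q : ℕ) : ZMod n) ∈ S

theorem derG_add {G : Type} [Group G] (N : Subgroup G) (s w : ℕ) :
    derG w (derG s N) = derG (s + w) N := by
  induction w with
  | zero => rfl
  | succ w ih =>
    show ⁅derG w (derG s N), derG w (derG s N)⁆ = ⁅derG (s + w) N, derG (s + w) N⁆
    rw [ih]

theorem derG_top_normal {G : Type} [Group G] (j : ℕ) : (derG j (⊤ : Subgroup G)).Normal := by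
  induction j with
  | zero => show (⊤ : Subgroup G).Normal; infer_instance
  | succ j ih => exact Subgroup.commutator_normal _ _

theorem derG_top_phi {G : Type} [Group G] (φ : G →* G) (j : ℕ) :
    ∀ g ∈ derG j (⊤ : Subgroup G), φ g ∈ derG j (⊤ : Subgroup G) := by
  induction j with
  | zero => exact fun _ _ => Subgroup.mem_top _
  | succ j ih =>
    have h2 : ⁅derG j (⊤ : Subgroup G), derG j (⊤ : Subgroup G)⁆ ≤
        (⁅derG j (⊤ : Subgroup G), derG j (⊤ : Subgroup G)⁆ : Subgroup G).comap φ := by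
      rw [Subgroup.commutator_le]
      intro a ha b hb
      rw [Subgroup.mem_comap, map_commutatorElement]
      exact Subgroup.commutator_mem_commutator (ih a ha) (ih b hb)
    exact fun g hg => h2 hg

theorem derG_top_le {G : Type} [Group G] (s w : ℕ) :
    derG (s + w) (⊤ : Subgroup G) ≤ derG s ⊤ := by
  induction w with
  | zero => exact le_rfl
  | succ w ih =>
    have h1 := derG_top_normal (G := G) (s + w)
    exact (Subgroup.commutator_le_left _ _).trans ih

/-- **Reduction to periodic supports** -/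
theorem thR_periodic (n : ℕ) (hn : 0 < n) : ∃ w : ℕ, ∀ (G : Type) [Group G] (φ : G →* G),
    Split n φ → (∀ t : G, ∃ s : G, t = s⁻¹ * φ s) → ∀ s : ℕ,
    (∀ S : Set (ZMod n), 0 ∉ S → Periodic n S → Triv n φ S (derG s ⊤)) →
    ∀ S : Set (ZMod n), 0 ∉ S → Triv n φ S (derG (s + n * w) ⊤) := by
  obtain ⟨w, hw⟩ := thR_primes n hn
  refine ⟨w, ?_⟩
  intro G _ φ hs hL s hper
  have hnz : NeZero n := ⟨hn.ne'⟩
  have key : ∀ j : ℕ, ∀ S : Set (ZMod n), 0 ∉ S → S.ncard ≤ j →
      Triv n φ S (derG (s + j * w) ⊤) := by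
    intro j
    induction j with
    | zero =>
      intro S _ hS
      have h1 : S = ∅ := (Set.ncard_eq_zero (Set.toFinite S)).1 (Nat.le_zero.1 hS)
      rw [h1]
      exact Triv.empty _
    | succ j ih =>
      intro S h0 hS
      by_cases hp : Periodic n S
      · exact (hper S h0 hp).sub (derG_top_le _ _)
      · have h1 := hw G φ hs hL S (derG (s + j * w) ⊤) (derG_top_normal _) (derG_top_phi φ _) ?_
        · rw [derG_add] at h1
          have e : s + (j + 1) * w = s + j * w + w := by ring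
          rw [e]
          exact h1
        · intro q hq hqn
          refine ih _ (fun h => h0 (Pq_sub n q S h)) ?_
          have hne : Pq n q S ≠ S := by
            intro h
            apply hp
            refine ⟨q, hq, hqn, fun d hd => ?_⟩
            rw [← h] at hd
            have := hd 1
            rwa [one_smul] at this
          have h2 : (Pq n q S).ncard < S.ncard :=
            Set.ncard_lt_ncard (lt_of_le_of_ne (Pq_sub n q S) hne) (Set.toFinite S)
          omega
  intro S h0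
  refine key n S h0 ?_
  have h1 : S.ncard ≤ (Set.univ : Set (ZMod n)).ncard :=
    Set.ncard_le_ncard (Set.subset_univ S) (Set.toFinite _)
  rwa [Set.ncard_univ, Nat.card_zmod] at h1

end Pool.Agent.ThR
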