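import Pool.Agent.ThR.Main

/-!
# Theorem R+ (helper10, note 2167), two-sided form without duality

`Pa n a S` = union of the cosets `d + ⟨b⟩ ⊆ S` with `a b ≠ 0`. Let `a₁ + a₂ ≡ 1` modulo `n`. If `N` acts
trivially on all graded algebras with support in `Pa n a₁ S` and on all with support in `Pa n a₂ S`, then
`⁅N, N⁆` acts trivially on `c^m D / B`, `m = 2 n² + 1`, in the situation `Op` with support `S` (`good_plus`), so that
`derG w N` acts trivially on all graded algebras with support in `S` (`thR_plus`). (`a₁ = 1`, `a₂ = 0` is Theorem R,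
`Pa n 1 S = Per n S`, `Pa n 0 S = ∅`. If `n` has at most two prime divisors and `S` is not periodic, choose
`a₁`, `a₂` by the Chinese remainder theorem: `Pa n a₁ S`, `Pa n a₂ S` are proper subsets of `S`.)
Hypothesis `hL`: every `t ∈ G` is of the form `h⁻¹ φ(h)` (true for finite `G` with `C_G(φ) = 1`).

PROOF. `R_a` = span of the homogeneous letters in `c` of degree `b` with `a b ≠ 0`. (1) `c ≤ R_(a₁) + R_(a₂)^g + c²` for
all `g`: `Φ^(a₁) x Φ^(-a₁) - x ∈ R_(a₁)`, `h x h⁻¹ - x ∈ R_(a₂)^g` for `h = r(g) Φ^(a₂) r(g)⁻¹`, and `Φ^(a₁) h` is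
conjugate to `Φ` by `hL`; sum over its powers. (2) pigeonhole: `e_d R_(a₁)^k D ≤ B` for `d ∉ Pa n a₁ S`, `k ≥ n²`,
and `R_(a₂)^k e_(d') D ≤ B` for `d' ∉ Pa n a₂ S`. (3) so `e_d c^j r(g) e_(d') D ≤ B` for `j ≥ 2 n²`. (4) by `rel`,
`(r(g) - 1) D ≤ D₂ := B + ∑ r(g) e_(d') D` and `(r(g) - 1) D₁ ≤ B` for `D₁ := {x ∈ D | e_d r(g) x ∈ B}`, and
`c^j D₂ ≤ D₁`: so `(r(g) - 1) c^j (r(h) - 1) D ≤ B` for `g, h ∈ N`. (5) telescoping gives
`(r(h) - 1) (r(g) - 1) c^(j+1) D ≤ B`.
-/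

set_option autoImplicit false

open scoped commutatorElement

namespace Pool.Agent.ThR

open Pool.Agent.LgP
open scoped Pointwise

/-- the union of all cosets `d + ⟨b⟩ ⊆ S` with `a b ≠ 0` -/
def Pa (n a : ℕ) (S : Set (ZMod n)) : Set (ZMod n) :=
  {c | ∃ b : ZMod n, a • b ≠ 0 ∧ ∀ k : ℕ, c + k • b ∈ S}

section aux

variable {O A : Type} [CommRing O] [Ring A] [Algebra O A] {n : ℕ} {ζ : O} {Φ Ψ : A}

/-- the letters of degree `b` with `a b ≠ 0` -/
def Plus_s (n a : ℕ) (ζ : O) (Φ : A) (c : Submodule O A) : Set A :=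
  {x | x ∈ c ∧ ∃ b, b < n ∧ ((a * b : ℕ) : ZMod n) ≠ 0 ∧ Hm ζ Φ b x}

theorem Plus_prod {G : Type} [Group G] {r : G →* A} {c D B : Submodule O A}
    (hO : Op n r Φ Ψ c D B) (l : List A) (hl : ∀ a ∈ l, a ∈ c) : ∀ x ∈ D, l.prod * x ∈ D := by
  induction l with
  | nil =>
    intro x hx
    simpa using hx
  | cons a l ih =>
    intro x hx
    rw [List.prod_cons, mul_assoc]
    exact hO.cD a (hl a List.mem_cons_self) _ (ih (fun b hb => hl b (List.mem_cons_of_mem _ hb)) x hx)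

theorem Plus_prodB {G : Type} [Group G] {r : G →* A} {c D B : Submodule O A}
    (hO : Op n r Φ Ψ c D B) (l : List A) (hl : ∀ a ∈ l, a ∈ c) : ∀ x ∈ B, l.prod * x ∈ B := by
  induction l with
  | nil =>
    intro x hx
    simpa using hx
  | cons a l ih =>
    intro x hx
    rw [List.prod_cons, mul_assoc]
    exact hO.cB a (hl a List.mem_cons_self) _ (ih (fun b hb => hl b (List.mem_cons_of_mem _ hb)) x hx)

theorem Plus_perm {G : Type} [Group G] {r : G →* A} {c D B : Submodule O A}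
    (hO : Op n r Φ Ψ c D B) {l l' : List A} (hp : l.Perm l') :
    (∀ a ∈ l, a ∈ c) → ∀ x ∈ D, (l.prod - l'.prod) * x ∈ B := by
  induction hp with
  | nil =>
    intro _ x _
    rw [sub_self, zero_mul]
    exact B.zero_mem
  | cons a _ ih =>
    intro hl x hx
    rw [List.prod_cons, List.prod_cons, ← mul_sub, mul_assoc]
    exact hO.cB a (hl a List.mem_cons_self) _
      (ih (fun b hb => hl b (List.mem_cons_of_mem _ hb)) x hx)
  | swap a b l =>
    intro hl x hx
    simp only [List.prod_cons]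
    have e : (b * (a * l.prod) - a * (b * l.prod)) * x = (b * a - a * b) * (l.prod * x) := by
      noncomm_ring
    rw [e]
    refine hO.comm b (hl b (by simp)) a (hl a (by simp)) _ (Plus_prod hO l ?_ x hx)
    intro y hy
    exact hl y (by simp [hy])
  | @trans l₁ l₂ l₃ h1 h2 ih1 ih2 =>
    intro hl x hx
    have e : (l₁.prod - l₃.prod) * x = (l₁.prod - l₂.prod) * x + (l₂.prod - l₃.prod) * x := by
      noncomm_ring
    rw [e]
    exact B.add_mem (ih1 hl x hx) (ih2 (fun a ha => hl a (h1.mem_iff.2 ha)) x hx)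

theorem Plus_hm (b : ℕ) (l : List A) (hl : ∀ a ∈ l, Hm ζ Φ b a) :
    Hm ζ Φ (l.length * b) l.prod := by
  induction l with
  | nil =>
    unfold Hm
    simp
  | cons a l ih =>
    have h1 := (hl a List.mem_cons_self).mul (ih fun c hc => hl c (List.mem_cons_of_mem _ hc))
    rw [List.prod_cons, List.length_cons]
    have e : (l.length + 1) * b = b + l.length * b := by ring
    rw [e]
    exact h1

theorem Plus_pigeon {X : Type} (f : X → ℕ) (N : ℕ) : ∀ (m : ℕ) (l : List X),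
    (∀ a ∈ l, f a < m) → m * (N - 1) < l.length →
    ∃ b < m, N ≤ (l.filter fun a => f a = b).length := by
  intro m
  induction m with
  | zero =>
    intro l hl h
    cases l with
    | nil => simp at h
    | cons a l => exact absurd (hl a List.mem_cons_self) (Nat.not_lt_zero _)
  | succ m ih =>
    intro l hl h
    by_cases hN : N ≤ (l.filter fun a => f a = m).length
    · exact ⟨m, Nat.lt_succ_self m, hN⟩
    have h1 := List.length_eq_length_filter_add (l := l) (fun a => decide (f a = m))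
    have h2 : m * (N - 1) < (l.filter fun a => !decide (f a = m)).length := by
      have h3 : (m + 1) * (N - 1) = m * (N - 1) + (N - 1) := by ring
      omega
    obtain ⟨b, hb, hb2⟩ := ih _ (fun a ha => by
      rw [List.mem_filter] at ha
      have h4 := hl a ha.1
      have h5 : f a ≠ m := by simpa using ha.2
      omega) h2
    refine ⟨b, hb.trans (Nat.lt_succ_self m), hb2.trans ?_⟩
    rw [List.filter_filter]
    refine List.Sublist.length_le (List.monotone_filter_right l ?_)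
    intro a ha
    simp only [Bool.and_eq_true] at ha
    exact ha.1

theorem Plus_degL (hn : 0 < n) {a : ℕ} {S : Set (ZMod n)} {d : ℕ}
    (hd : (d : ZMod n) ∉ Pa n a S) {b : ℕ} (hb : ((a * b : ℕ) : ZMod n) ≠ 0) :
    ∃ k e : ℕ, k < n ∧ (e : ZMod n) ∉ S ∧ (e + k * b) % n = d % n := by
  have h1 : ∃ k : ℕ, (d : ZMod n) + k • (-(b : ZMod n)) ∉ S := by
    by_contra h
    push Not at h
    refine hd ⟨-(b : ZMod n), ?_, h⟩
    rw [nsmul_eq_mul, mul_neg, neg_ne_zero]
    rwa [Nat.cast_mul] at hb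
  obtain ⟨k, hk⟩ := h1
  have hnz : NeZero n := ⟨hn.ne'⟩
  refine ⟨k % n, ((d : ZMod n) + k • (-(b : ZMod n))).val, Nat.mod_lt _ hn, ?_, ?_⟩
  · rw [ZMod.natCast_zmod_val]
    exact hk
  · have h2 : (((((d : ZMod n) + k • (-(b : ZMod n))).val + k % n * b : ℕ)) : ZMod n) =
        (d : ZMod n) := by
      rw [Nat.cast_add, ZMod.natCast_zmod_val, Nat.cast_mul, ZMod.natCast_mod, nsmul_eq_mul]
      ring
    exact (ZMod.natCast_eq_natCast_iff' _ _ _).1 h2

theorem Plus_degR (hn : 0 < n) {a : ℕ} {S : Set (ZMod n)} {d : ℕ}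
    (hd : (d : ZMod n) ∉ Pa n a S) {b : ℕ} (hb : ((a * b : ℕ) : ZMod n) ≠ 0) :
    ∃ k : ℕ, k < n ∧ ((d + k * b : ℕ) : ZMod n) ∉ S := by
  have h1 : ∃ k : ℕ, (d : ZMod n) + k • (b : ZMod n) ∉ S := by
    by_contra h
    push Not at h
    refine hd ⟨(b : ZMod n), ?_, h⟩
    rw [nsmul_eq_mul]
    rwa [Nat.cast_mul] at hb
  obtain ⟨k, hk⟩ := h1
  refine ⟨k % n, Nat.mod_lt _ hn, ?_⟩
  have h2 : ((d + k % n * b : ℕ) : ZMod n) = (d : ZMod n) + k • (b : ZMod n) := by
    rw [Nat.cast_add, Nat.cast_mul, ZMod.natCast_mod, nsmul_eq_mul]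
  rw [h2]
  exact hk

theorem Plus_killL (h : Dt n ζ Φ Ψ) {a : ℕ} {S : Set (ZMod n)} (hS : Sup n ζ Φ S)
    {d : ℕ} (hd : (d : ZMod n) ∉ Pa n a S) {b : ℕ} (hb : ((a * b : ℕ) : ZMod n) ≠ 0)
    (l : List A) (hln : n ≤ l.length) (hl : ∀ a ∈ l, Hm ζ Φ b a) :
    ide n ζ Φ d * l.prod = 0 := by
  obtain ⟨k, e, hk, he, hke⟩ := Plus_degL h.prim.pos hd hb
  have h1 : l.prod = (l.take k).prod * (l.drop k).prod := by
    rw [← List.prod_append, List.take_append_drop]
  have h2 : (l.take k).length = k := by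
    rw [List.length_take]
    omega
  have h3 := (Plus_hm b (l.take k) fun a ha => hl a (List.mem_of_mem_take ha)).ide h e
  rw [h2, ide_congr h hke, hS e he, mul_zero] at h3
  rw [h1, ← mul_assoc, ← h3, zero_mul]

theorem Plus_killR (h : Dt n ζ Φ Ψ) {a : ℕ} {S : Set (ZMod n)} (hS : Sup n ζ Φ S)
    {d : ℕ} (hd : (d : ZMod n) ∉ Pa n a S) {b : ℕ} (hb : ((a * b : ℕ) : ZMod n) ≠ 0)
    (l : List A) (hln : n ≤ l.length) (hl : ∀ a ∈ l, Hm ζ Φ b a) :
    l.prod * ide n ζ Φ d = 0 := by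
  obtain ⟨k, hk, he⟩ := Plus_degR h.prim.pos hd hb
  obtain ⟨j, hj⟩ : ∃ j, j = l.length - k := ⟨_, rfl⟩
  have h1 : l.prod = (l.take j).prod * (l.drop j).prod := by
    rw [← List.prod_append, List.take_append_drop]
  have h2 : (l.drop j).length = k := by
    rw [List.length_drop]
    omega
  have h3 := (Plus_hm b (l.drop j) fun a ha => hl a (List.mem_of_mem_drop ha)).ide h d
  rw [h2, hS _ he, zero_mul] at h3
  rw [h1, mul_assoc, h3, mul_zero]

/-- a word in `n * n` letters contains `n` letters of the same degree -/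
theorem Plus_split {a : ℕ} (hn : 0 < n) {c : Submodule O A} (l : List A)
    (hln : n * n ≤ l.length) (hl : ∀ x ∈ l, x ∈ Plus_s n a ζ Φ c) :
    ∃ (b : ℕ) (l1 l2 : List A), ((a * b : ℕ) : ZMod n) ≠ 0 ∧ n ≤ l1.length ∧
      (∀ x ∈ l1, Hm ζ Φ b x) ∧ l.Perm (l1 ++ l2) ∧ l.Perm (l2 ++ l1) := by
  classical
  obtain ⟨f, hf⟩ : ∃ f : A → ℕ, ∀ x, x ∈ Plus_s n a ζ Φ c →
      f x < n ∧ ((a * f x : ℕ) : ZMod n) ≠ 0 ∧ Hm ζ Φ (f x) x := by
    have h0 : ∀ x : A, ∃ b : ℕ, x ∈ Plus_s n a ζ Φ c →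
        b < n ∧ ((a * b : ℕ) : ZMod n) ≠ 0 ∧ Hm ζ Φ b x := by
      intro x
      by_cases hx : x ∈ Plus_s n a ζ Φ c
      · obtain ⟨b, hb⟩ := hx.2
        exact ⟨b, fun _ => hb⟩
      · exact ⟨0, fun h => absurd h hx⟩
    choose f hf using h0
    exact ⟨f, hf⟩
  have hlt : n * (n - 1) < l.length := by
    refine lt_of_lt_of_le ?_ hln
    exact Nat.mul_lt_mul_of_pos_left (by omega) hn
  obtain ⟨b, hbn, hb⟩ := Plus_pigeon f n n l (fun x hx => (hf x (hl x hx)).1) hlt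
  have hb0 : ((a * b : ℕ) : ZMod n) ≠ 0 := by
    have h1 : 0 < (l.filter fun x => f x = b).length := hn.trans_le hb
    obtain ⟨x, hx⟩ := List.exists_mem_of_length_pos h1
    rw [List.mem_filter] at hx
    have h2 : f x = b := by simpa using hx.2
    rw [← h2]
    exact (hf x (hl x hx.1)).2.1
  have hp : ((l.filter fun x => f x = b) ++ (l.filter fun x => !decide (f x = b))).Perm l :=
    List.filter_append_perm _ l
  refine ⟨b, l.filter fun x => f x = b, l.filter fun x => !decide (f x = b), hb0, hb, ?_, hp.symm,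
    hp.symm.trans List.perm_append_comm⟩
  intro x hx
  rw [List.mem_filter] at hx
  have h3 : f x = b := by simpa using hx.2
  rw [← h3]
  exact (hf x (hl x hx.1)).2.2

theorem Plus_wordL {G : Type} [Group G] {r : G →* A} (h : Dt n ζ Φ Ψ) {a : ℕ}
    {S : Set (ZMod n)} (hS : Sup n ζ Φ S) {c D B : Submodule O A}
    (hO : Op n r Φ Ψ c D B) {d : ℕ} (hd : (d : ZMod n) ∉ Pa n a S) (l : List A)
    (hln : n * n ≤ l.length) (hl : ∀ x ∈ l, x ∈ Plus_s n a ζ Φ c) (x : A) (hx : x ∈ D) :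
    ide n ζ Φ d * (l.prod * x) ∈ B := by
  obtain ⟨b, l1, l2, hb, h1n, h1, hp, -⟩ := Plus_split h.prim.pos l hln hl
  have h2 := Plus_perm hO hp (fun a ha => (hl a ha).1) x hx
  have h3 := Plus_killL h hS hd hb l1 h1n h1
  have h4 : ide n ζ Φ d * (l.prod * x) = ide n ζ Φ d * ((l.prod - (l1 ++ l2).prod) * x) := by
    rw [sub_mul, mul_sub, List.prod_append, mul_assoc l1.prod l2.prod x,
      ← mul_assoc (ide n ζ Φ d) l1.prod, h3, zero_mul, sub_zero]
  rw [h4]
  exact ide_stab hO.sB.p d _ h2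

theorem Plus_wordR {G : Type} [Group G] {r : G →* A} (h : Dt n ζ Φ Ψ) {a : ℕ}
    {S : Set (ZMod n)} (hS : Sup n ζ Φ S) {c D B : Submodule O A}
    (hO : Op n r Φ Ψ c D B) {d : ℕ} (hd : (d : ZMod n) ∉ Pa n a S) (l : List A)
    (hln : n * n ≤ l.length) (hl : ∀ x ∈ l, x ∈ Plus_s n a ζ Φ c) (x : A) (hx : x ∈ D) :
    l.prod * (ide n ζ Φ d * x) ∈ B := by
  obtain ⟨b, l1, l2, hb, h1n, h1, -, hp⟩ := Plus_split h.prim.pos l hln hl
  have h2 := Plus_perm hO hp (fun a ha => (hl a ha).1) _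
    (ide_stab (n := n) (ζ := ζ) hO.sD.p d x hx)
  have h3 := Plus_killR h hS hd hb l1 h1n h1
  have h4 : l.prod * (ide n ζ Φ d * x) = (l.prod - (l2 ++ l1).prod) * (ide n ζ Φ d * x) := by
    rw [sub_mul, List.prod_append, mul_assoc l2.prod l1.prod, ← mul_assoc l1.prod, h3, zero_mul,
      mul_zero, sub_zero]
  rw [h4]
  exact h2

theorem Plus_conj {c : Submodule O A} {u v : A} (hvu : v * u = 1)
    (hc : ∀ a ∈ c, u * a * v ∈ c) {D : Submodule O A} (hD : ∀ x ∈ D, u * x ∈ D) (m : ℕ) :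
    ∀ x ∈ c ^ m * D, u * x ∈ c ^ m * D := by
  induction m with
  | zero =>
    intro x hx
    rw [pow_zero, one_mul] at hx ⊢
    exact hD x hx
  | succ m ih =>
    intro x hx
    rw [pow_succ', mul_assoc] at hx ⊢
    induction hx using Submodule.mul_induction_on' with
    | mem_mul_mem a ha y hy =>
      have e : u * (a * y) = (u * a * v) * (u * y) := by
        calc u * (a * y) = u * a * (1 * y) := by rw [one_mul, mul_assoc]
          _ = u * a * (v * u * y) := by rw [hvu]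
          _ = (u * a * v) * (u * y) := by simp only [mul_assoc]
      rw [e]
      exact Submodule.mul_mem_mul (hc a ha) (ih y hy)
    | add x _ y _ h1 h2 =>
      rw [mul_add]
      exact Submodule.add_mem _ h1 h2

theorem Plus_powD {c D : Submodule O A} (hD : ∀ a ∈ c, ∀ x ∈ D, a * x ∈ D) (m : ℕ) :
    c ^ m * D ≤ D := by
  induction m with
  | zero => rw [pow_zero, one_mul]
  | succ m ih =>
    rw [pow_succ', mul_assoc]
    refine Submodule.mul_le.2 fun a ha x hx => hD a ha x (ih hx)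

theorem Plus_pow (c c1 : Submodule O A) (h1 : c1 ≤ c) (h : c ≤ c1 ⊔ c * c) (m : ℕ) :
    c ^ m ≤ c1 ^ m ⊔ c ^ (m + 1) := by
  induction m with
  | zero =>
    rw [pow_zero, pow_zero]
    exact le_sup_left
  | succ m ih =>
    have e1 : c ^ (m + 1) ≤ (c1 ^ m ⊔ c ^ (m + 1)) * c := by
      conv_lhs => rw [pow_succ]
      exact mul_le_mul' ih le_rfl
    refine e1.trans ?_
    rw [Submodule.sup_mul]
    refine sup_le ?_ ?_
    · refine (mul_le_mul' (le_refl (c1 ^ m)) h).trans ?_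
      rw [Submodule.mul_sup, ← pow_succ]
      refine sup_le_sup le_rfl ?_
      have e2 : c ^ (m + 1 + 1) = c ^ m * (c * c) := by
        rw [pow_succ, pow_succ, mul_assoc]
      rw [e2]
      exact mul_le_mul' (pow_le_pow_left' h1 m) le_rfl
    · rw [← pow_succ]
      exact le_sup_right

theorem Plus_hmconj (h : Dt n ζ Φ Ψ) {i : ℕ} {y : A} (hy : Hm ζ Φ i y) (a : ℕ) :
    Φ ^ a * y * Ψ ^ a = ζ ^ (a * i) • y := by
  have h1 : Φ ^ a * y = ζ ^ (a * i) • (y * Φ ^ a) := by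
    induction a with
    | zero => simp
    | succ a ih =>
      unfold Hm at hy
      rw [pow_succ', mul_assoc, ih, mul_smul_comm, ← mul_assoc, hy, smul_mul_assoc, smul_smul,
        ← pow_add, mul_assoc]
      congr 2
      ring
  rw [h1, smul_mul_assoc, mul_assoc, h.pow_pq, mul_one]

theorem Plus_diff {G : Type} [Group G] {r : G →* A} (h : Dt n ζ Φ Ψ)
    {c D B : Submodule O A} (hO : Op n r Φ Ψ c D B) (a : ℕ) (x : A) (hx : x ∈ c) :
    Φ ^ a * x * Ψ ^ a - x ∈ Submodule.span O (Plus_s n a ζ Φ c) := by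
  have e : Φ ^ a * x * Ψ ^ a - x =
      ∑ i ∈ Finset.range n, (ζ ^ (a * i) - 1) • cmp n ζ Φ Ψ i x := by
    have e1 : Φ ^ a * x * Ψ ^ a = ∑ i ∈ Finset.range n, ζ ^ (a * i) • cmp n ζ Φ Ψ i x := by
      conv_lhs => rw [← cmp_sum h x, Finset.mul_sum, Finset.sum_mul]
      exact Finset.sum_congr rfl fun i _ => Plus_hmconj h (cmp_hm h i x) a
    rw [e1]
    conv_lhs => rw [← cmp_sum h x]
    simp only [sub_smul, one_smul, Finset.sum_sub_distrib]
    congr 1
    rw [cmp_sum h x]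
  rw [e]
  refine Submodule.sum_mem _ fun i hi => ?_
  by_cases h0 : ((a * i : ℕ) : ZMod n) = 0
  · have h1 : ζ ^ (a * i) = 1 := by
      obtain ⟨k, hk⟩ := (ZMod.natCast_eq_zero_iff _ _).1 h0
      rw [hk, pow_mul, h.prim.pow, one_pow]
    rw [h1, sub_self, zero_smul]
    exact Submodule.zero_mem _
  · exact Submodule.smul_mem _ _ (Submodule.subset_span ⟨cmp_mem c hO.cp hx i, i,
      Finset.mem_range.1 hi, h0, cmp_hm h i x⟩)

/-- conjugates of letters -/
def Plus_t {G : Type} [Group G] (r : G →* A) (g : G) (n a : ℕ) (ζ : O) (Φ : A)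
    (c : Submodule O A) : Set A :=
  {x | ∃ y ∈ Plus_s n a ζ Φ c, x = r g * y * r g⁻¹}

theorem Plus_ts {G : Type} [Group G] (r : G →* A) (g : G) (a : ℕ) (c : Submodule O A) :
    ∀ w ∈ Submodule.span O (Plus_s n a ζ Φ c),
      r g * w * r g⁻¹ ∈ Submodule.span O (Plus_t r g n a ζ Φ c) := by
  intro w hw
  induction hw using Submodule.span_induction with
  | mem w hw => exact Submodule.subset_span ⟨w, hw, rfl⟩
  | zero => rw [mul_zero, zero_mul]; exact Submodule.zero_mem _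
  | add a b _ _ h1 h2 => rw [mul_add, add_mul]; exact Submodule.add_mem _ h1 h2
  | smul c a _ h1 => rw [mul_smul_comm, smul_mul_assoc]; exact Submodule.smul_mem _ c h1

theorem Plus_rinv {G : Type} [Group G] (r : G →* A) (g : G) : r g⁻¹ * r g = 1 := by
  rw [← map_mul, inv_mul_cancel, map_one]

theorem Plus_rinv' {G : Type} [Group G] (r : G →* A) (g : G) : r g * r g⁻¹ = 1 := by
  rw [← map_mul, mul_inv_cancel, map_one]

theorem Plus_cc {c : Submodule O A} {u v : A} (hvu : v * u = 1)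
    (hc : ∀ a ∈ c, u * a * v ∈ c) : ∀ x ∈ c * c, u * x * v ∈ c * c := by
  intro x hx
  induction hx using Submodule.mul_induction_on' with
  | mem_mul_mem a ha b hb =>
    have e : u * (a * b) * v = (u * a * v) * (u * b * v) := by
      calc u * (a * b) * v = u * a * (1 * (b * v)) := by rw [one_mul]; simp only [mul_assoc]
        _ = u * a * (v * u * (b * v)) := by rw [hvu]
        _ = (u * a * v) * (u * b * v) := by simp only [mul_assoc]
    rw [e]
    exact Submodule.mul_mem_mul (hc a ha) (hc b hb)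
  | add x _ y _ h1 h2 =>
    rw [mul_add, add_mul]
    exact Submodule.add_mem _ h1 h2

theorem Plus_inv_unique {u v w : A} (h1 : v * u = 1) (h2 : u * w = 1) : v = w := by
  calc v = v * (u * w) := by rw [h2, mul_one]
    _ = w := by rw [← mul_assoc, h1, one_mul]

theorem Plus_dec {G : Type} [Group G] {φ : G →* G} {r : G →* A}
    (h : GRep n φ ζ Φ Ψ r) (hL : ∀ t : G, ∃ s : G, t = s⁻¹ * φ s) {c D B : Submodule O A}
    (hO : Op n r Φ Ψ c D B) (a₁ a₂ : ℕ) (ha : (a₁ + a₂) % n = 1 % n) (g : G) :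
    c ≤ Submodule.span O (Plus_s n a₁ ζ Φ c ∪ Plus_t r g n a₂ ζ Φ c) ⊔ c * c := by
  obtain ⟨T, hT⟩ : ∃ T, T = Submodule.span O (Plus_s n a₁ ζ Φ c ∪ Plus_t r g n a₂ ζ Φ c) :=
    ⟨_, rfl⟩
  have hT1 : Submodule.span O (Plus_s n a₁ ζ Φ c) ≤ T := by
    rw [hT]; exact Submodule.span_mono Set.subset_union_left
  have hT2 : Submodule.span O (Plus_t r g n a₂ ζ Φ c) ≤ T := by
    rw [hT]; exact Submodule.span_mono Set.subset_union_right
  rw [← hT]
  have hΦr : ∀ g : G, Φ * r g = r (φ g) * Φ := by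
    intro g
    rw [← h.eq, mul_assoc, h.qp, mul_one]
  have hΦr' : ∀ (a : ℕ) (g : G), Φ ^ a * r g = r ((⇑φ)^[a] g) * Φ ^ a := by
    intro a g
    induction a with
    | zero => simp
    | succ a ih =>
      rw [pow_succ', mul_assoc, ih, ← mul_assoc, hΦr, mul_assoc, Function.iterate_succ_apply']
  have hΦa : Φ ^ (a₁ + a₂) = Φ := by
    have h1 : ∀ k : ℕ, Φ ^ k = Φ ^ (k % n) := by
      intro k
      conv_lhs => rw [← Nat.mod_add_div k n, pow_add, pow_mul, h.pow, one_pow, mul_one]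
    rw [h1, ha, ← h1, pow_one]
  obtain ⟨s, hs⟩ := hL ((⇑φ)^[a₁] g * φ g⁻¹)
  obtain ⟨u, hu⟩ : ∃ u, u = r s⁻¹ * Φ * r s := ⟨_, rfl⟩
  obtain ⟨v, hv⟩ : ∃ v, v = r s⁻¹ * Ψ * r s := ⟨_, rfl⟩
  have hvu : v * u = 1 := by
    rw [hv, hu]
    calc r s⁻¹ * Ψ * r s * (r s⁻¹ * Φ * r s) = r s⁻¹ * Ψ * (r s * r s⁻¹) * Φ * r s := by
          simp only [mul_assoc]
      _ = 1 := by rw [Plus_rinv', mul_one, mul_assoc (r s⁻¹), h.qp, mul_one, Plus_rinv]
  have hu2 : u = Φ ^ a₁ * (r g * Φ ^ a₂ * r g⁻¹) := by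
    have e1 : u = r ((⇑φ)^[a₁] g * φ g⁻¹) * Φ := by
      rw [hu, mul_assoc, hΦr, ← mul_assoc, ← map_mul, ← hs]
    have e2 : Φ ^ a₁ * (r g * Φ ^ a₂ * r g⁻¹) = r ((⇑φ)^[a₁] g) * (Φ ^ a₁ * Φ ^ a₂) * r g⁻¹ := by
      rw [← mul_assoc, ← mul_assoc, hΦr']
      simp only [mul_assoc]
    rw [e2, ← pow_add, hΦa, mul_assoc, hΦr, e1, map_mul, mul_assoc]
  have hv2 : v = r g * Ψ ^ a₂ * r g⁻¹ * Ψ ^ a₁ := by
    refine Plus_inv_unique hvu ?_
    rw [hu2]
    calc Φ ^ a₁ * (r g * Φ ^ a₂ * r g⁻¹) * (r g * Ψ ^ a₂ * r g⁻¹ * Ψ ^ a₁)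
        = Φ ^ a₁ * (r g * Φ ^ a₂ * (r g⁻¹ * r g) * Ψ ^ a₂ * r g⁻¹) * Ψ ^ a₁ := by
          simp only [mul_assoc]
      _ = 1 := by
          rw [Plus_rinv, mul_one, mul_assoc (r g), h.dt.pow_pq, mul_one, Plus_rinv', mul_one,
            h.dt.pow_pq]
  have hcu : ∀ x ∈ c, u * x * v ∈ c := by
    intro x hx
    have e : u * x * v = r s⁻¹ * (Φ * (r s * x * r s⁻¹) * Ψ) * r s := by
      rw [hu, hv]
      simp only [mul_assoc]
    rw [e]
    have h1 := hO.cg s⁻¹ _ (hO.cp _ (hO.cg s x hx))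
    rwa [inv_inv] at h1
  have hstep : ∀ x ∈ c, u * x * v - x ∈ T := by
    intro x hx
    obtain ⟨y, hy⟩ : ∃ y, y = r g⁻¹ * x * r g := ⟨_, rfl⟩
    have hyc : y ∈ c := by
      have h1 := hO.cg g⁻¹ x hx
      rw [inv_inv] at h1
      rw [hy]
      exact h1
    have hxy : x = r g * y * r g⁻¹ := by
      rw [hy]
      calc x = (r g * r g⁻¹) * x * (r g * r g⁻¹) := by rw [Plus_rinv', one_mul, mul_one]
        _ = _ := by simp only [mul_assoc]
    obtain ⟨z, hz⟩ : ∃ z, z = r g * (Φ ^ a₂ * y * Ψ ^ a₂) * r g⁻¹ := ⟨_, rfl⟩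
    have hzc : z ∈ c := by
      rw [hz]
      exact hO.cg g _ (iter_mem c hO.cp hyc a₂)
    have h1 : z - x ∈ T := by
      refine hT2 ?_
      have h2 := Plus_diff h.dt hO a₂ y hyc
      have e : z - x = r g * (Φ ^ a₂ * y * Ψ ^ a₂ - y) * r g⁻¹ := by
        rw [hz, mul_sub, sub_mul, ← hxy]
      rw [e]
      exact Plus_ts r g a₂ c _ h2
    have h3 : Φ ^ a₁ * z * Ψ ^ a₁ - z ∈ T := hT1 (Plus_diff h.dt hO a₁ z hzc)
    have e : u * x * v - x = (Φ ^ a₁ * z * Ψ ^ a₁ - z) + (z - x) := by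
      have e2 : u * x * v = Φ ^ a₁ * z * Ψ ^ a₁ := by
        rw [hu2, hv2, hz, hy]
        simp only [mul_assoc]
      rw [e2]
      abel
    rw [e]
    exact T.add_mem h3 h1
  intro x hx
  have hxj : ∀ j : ℕ, u ^ j * x * v ^ j ∈ c ∧ u ^ j * x * v ^ j - x ∈ T := by
    intro j
    induction j with
    | zero =>
      refine ⟨by simpa using hx, ?_⟩
      rw [pow_zero, pow_zero, one_mul, mul_one, sub_self]
      exact T.zero_mem
    | succ j ih =>
      have e : u ^ (j + 1) * x * v ^ (j + 1) = u * (u ^ j * x * v ^ j) * v := by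
        rw [pow_succ', pow_succ]
        simp only [mul_assoc]
      rw [e]
      refine ⟨hcu _ ih.1, ?_⟩
      have e2 : u * (u ^ j * x * v ^ j) * v - x =
          (u * (u ^ j * x * v ^ j) * v - u ^ j * x * v ^ j) + (u ^ j * x * v ^ j - x) := by abel
      rw [e2]
      exact T.add_mem (hstep _ ih.1) ih.2
  have huj : ∀ j : ℕ, u ^ j = r s⁻¹ * Φ ^ j * r s := by
    intro j
    induction j with
    | zero => rw [pow_zero, pow_zero, mul_one, Plus_rinv]
    | succ j ih =>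
      rw [pow_succ, ih, hu, pow_succ]
      calc r s⁻¹ * Φ ^ j * r s * (r s⁻¹ * Φ * r s)
          = r s⁻¹ * Φ ^ j * (r s * r s⁻¹) * Φ * r s := by simp only [mul_assoc]
        _ = _ := by rw [Plus_rinv', mul_one]; simp only [mul_assoc]
  have hvj : ∀ j : ℕ, v ^ j = r s⁻¹ * Ψ ^ j * r s := by
    intro j
    induction j with
    | zero => rw [pow_zero, pow_zero, mul_one, Plus_rinv]
    | succ j ih =>
      rw [pow_succ, ih, hv, pow_succ]
      calc r s⁻¹ * Ψ ^ j * r s * (r s⁻¹ * Ψ * r s)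
          = r s⁻¹ * Ψ ^ j * (r s * r s⁻¹) * Ψ * r s := by simp only [mul_assoc]
        _ = _ := by rw [Plus_rinv', mul_one]; simp only [mul_assoc]
  have hsum : ∑ j ∈ Finset.range n, u ^ j * x * v ^ j ∈ c * c := by
    have e : ∑ j ∈ Finset.range n, u ^ j * x * v ^ j =
        r s⁻¹ * (∑ j ∈ Finset.range n, Φ ^ j * (r s * x * r s⁻¹) * Ψ ^ j) * r s := by
      rw [Finset.mul_sum, Finset.sum_mul]
      refine Finset.sum_congr rfl fun j _ => ?_
      rw [huj, hvj]
      simp only [mul_assoc]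
    rw [e]
    have h1 := Plus_cc (c := c) (u := r s⁻¹) (v := r s) (Plus_rinv' r s) (fun a ha => by
      have := hO.cg s⁻¹ a ha
      rwa [inv_inv] at this) _ (hO.tr _ (hO.cg s x hx))
    exact h1
  have hn : (n : O) • x ∈ T ⊔ c * c := by
    have e : (n : O) • x = ∑ j ∈ Finset.range n, u ^ j * x * v ^ j -
        ∑ j ∈ Finset.range n, (u ^ j * x * v ^ j - x) := by
      rw [Finset.sum_sub_distrib, sub_sub_cancel, Finset.sum_const, Finset.card_range,
        Nat.cast_smul_eq_nsmul]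
    rw [e]
    exact Submodule.sub_mem _ (Submodule.mem_sup_right hsum)
      (Submodule.mem_sup_left (T.sum_mem fun j _ => (hxj j).2))
  have := Submodule.smul_mem _ (Ring.inverse (n : O)) hn
  rwa [zinv h.prim] at this

theorem Plus_tc {G : Type} [Group G] {r : G →* A} {c D B : Submodule O A}
    (hO : Op n r Φ Ψ c D B) (g : G) (a : ℕ) {x : A} (hx : x ∈ Plus_t r g n a ζ Φ c) : x ∈ c := by
  obtain ⟨y, hy, rfl⟩ := hx
  exact hO.cg g y hy.1

/-- conjugating back a word in conjugated letters -/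
theorem Plus_back {G : Type} [Group G] {r : G →* A} (g : G) (a : ℕ) {c : Submodule O A}
    (l : List A) (hl : ∀ x ∈ l, x ∈ Plus_t r g n a ζ Φ c) :
    ∃ l' : List A, l'.length = l.length ∧ (∀ x ∈ l', x ∈ Plus_s n a ζ Φ c) ∧
      l.prod * r g = r g * l'.prod := by
  induction l with
  | nil => exact ⟨[], rfl, by simp, by simp⟩
  | cons x l ih =>
    obtain ⟨l', h1, h2, h3⟩ := ih fun y hy => hl y (List.mem_cons_of_mem _ hy)
    obtain ⟨y, hy, hxy⟩ := hl x List.mem_cons_self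
    refine ⟨y :: l', by simp [h1], ?_, ?_⟩
    · intro z hz
      rcases List.mem_cons.1 hz with rfl | hz
      · exact hy
      · exact h2 z hz
    · rw [List.prod_cons, List.prod_cons, mul_assoc, h3, hxy]
      calc r g * y * r g⁻¹ * (r g * l'.prod) = r g * y * (r g⁻¹ * r g) * l'.prod := by
            simp only [mul_assoc]
        _ = r g * (y * l'.prod) := by rw [Plus_rinv, mul_one, mul_assoc]

theorem Plus_word {G : Type} [Group G] {r : G →* A} (h : Dt n ζ Φ Ψ)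
    {S : Set (ZMod n)} (hS : Sup n ζ Φ S) {c D B : Submodule O A}
    (hO : Op n r Φ Ψ c D B) (a₁ a₂ : ℕ) {d d' : ℕ} (hd : (d : ZMod n) ∉ Pa n a₁ S)
    (hd' : (d' : ZMod n) ∉ Pa n a₂ S) (g : G) (l : List A)
    (hln : 2 * (n * n) ≤ l.length)
    (hl : ∀ x ∈ l, x ∈ Plus_s n a₁ ζ Φ c ∪ Plus_t r g n a₂ ζ Φ c) (y : A) (hy : y ∈ D) :
    ide n ζ Φ d * (l.prod * (r g * (ide n ζ Φ d' * y))) ∈ B := by
  classical
  have hlc : ∀ x ∈ l, x ∈ c := by
    intro x hx
    rcases hl x hx with h1 | h1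
    · exact h1.1
    · exact Plus_tc hO g a₂ h1
  obtain ⟨l1, hl1⟩ : ∃ l1, l1 = l.filter fun x => x ∈ Plus_s n a₁ ζ Φ c := ⟨_, rfl⟩
  obtain ⟨l2, hl2⟩ : ∃ l2, l2 = l.filter fun x => !decide (x ∈ Plus_s n a₁ ζ Φ c) := ⟨_, rfl⟩
  have hp : (l1 ++ l2).Perm l := by
    rw [hl1, hl2]
    exact List.filter_append_perm _ l
  have h1s : ∀ x ∈ l1, x ∈ Plus_s n a₁ ζ Φ c := by
    intro x hx
    rw [hl1, List.mem_filter] at hx
    simpa using hx.2
  have h2s : ∀ x ∈ l2, x ∈ Plus_t r g n a₂ ζ Φ c := by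
    intro x hx
    rw [hl2, List.mem_filter] at hx
    have h3 : x ∉ Plus_s n a₁ ζ Φ c := by simpa using hx.2
    exact (hl x hx.1).resolve_left h3
  have hyD : r g * (ide n ζ Φ d' * y) ∈ D :=
    hO.sD.g g _ (ide_stab (n := n) (ζ := ζ) hO.sD.p d' y hy)
  have h3 := Plus_perm hO hp.symm hlc _ hyD
  have h4 : ide n ζ Φ d * (l.prod * (r g * (ide n ζ Φ d' * y))) =
      ide n ζ Φ d * ((l.prod - (l1 ++ l2).prod) * (r g * (ide n ζ Φ d' * y))) +
      ide n ζ Φ d * (l1.prod * (l2.prod * (r g * (ide n ζ Φ d' * y)))) := by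
    rw [List.prod_append, sub_mul, mul_sub, mul_assoc l1.prod l2.prod, sub_add_cancel]
  rw [h4]
  refine B.add_mem (ide_stab hO.sB.p d _ h3) ?_
  have hlen : l1.length + l2.length = l.length := by
    rw [← List.length_append]
    exact hp.length_eq
  rcases Nat.lt_or_ge l1.length (n * n) with h5 | h5
  · have h6 : n * n ≤ l2.length := by omega
    obtain ⟨l', h7, h8, h9⟩ := Plus_back g a₂ l2 h2s
    have h10 : l2.prod * (r g * (ide n ζ Φ d' * y)) = r g * (l'.prod * (ide n ζ Φ d' * y)) := by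
      rw [← mul_assoc, h9, mul_assoc]
    rw [h10]
    have h11 := Plus_wordR h hS hO hd' l' (by omega) h8 y hy
    exact ide_stab hO.sB.p d _ (Plus_prodB hO l1 (fun x hx => (h1s x hx).1) _ (hO.sB.g g _ h11))
  · exact Plus_wordL h hS hO hd l1 h5 h1s _
      (Plus_prod hO l2 (fun x hx => Plus_tc hO g a₂ (h2s x hx)) _ hyD)

theorem Plus_powB {G : Type} [Group G] {r : G →* A} {c D B : Submodule O A}
    (hO : Op n r Φ Ψ c D B) (m : ℕ) : ∀ z ∈ c ^ m, ∀ x ∈ B, z * x ∈ B := fun _ hz _ hx =>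
  Plus_powD hO.cB m (Submodule.mul_mem_mul hz hx)

theorem Plus_powDD {G : Type} [Group G] {r : G →* A} {c D B : Submodule O A}
    (hO : Op n r Φ Ψ c D B) (m : ℕ) : ∀ z ∈ c ^ m, ∀ x ∈ D, z * x ∈ D := fun _ hz _ hx =>
  Plus_powD hO.cD m (Submodule.mul_mem_mul hz hx)

theorem Plus_mid {G : Type} [Group G] {φ : G →* G} {r : G →* A}
    (h : GRep n φ ζ Φ Ψ r) (hL : ∀ t : G, ∃ s : G, t = s⁻¹ * φ s) {S : Set (ZMod n)}
    (hS : Sup n ζ Φ S) {c D B : Submodule O A}
    (hO : Op n r Φ Ψ c D B) (a₁ a₂ : ℕ) (ha : (a₁ + a₂) % n = 1 % n) {d d' : ℕ}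
    (hd : (d : ZMod n) ∉ Pa n a₁ S) (hd' : (d' : ZMod n) ∉ Pa n a₂ S) (g : G) (j : ℕ)
    (hj : 2 * (n * n) ≤ j) (y : A) (hy : y ∈ D) :
    ∀ z ∈ c ^ j, ide n ζ Φ d * (z * (r g * (ide n ζ Φ d' * y))) ∈ B := by
  have hyD : r g * (ide n ζ Φ d' * y) ∈ D :=
    hO.sD.g g _ (ide_stab (n := n) (ζ := ζ) hO.sD.p d' y hy)
  obtain ⟨T, hT⟩ : ∃ T : Submodule O A, ∀ z, z ∈ T ↔
      ide n ζ Φ d * (z * (r g * (ide n ζ Φ d' * y))) ∈ B :=
    ⟨B.comap ((LinearMap.mulLeft O (ide n ζ Φ d)).comp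
      (LinearMap.mulRight O (r g * (ide n ζ Φ d' * y)))), fun z => Iff.rfl⟩
  obtain ⟨c1, hc1⟩ : ∃ c1, c1 = Submodule.span O (Plus_s n a₁ ζ Φ c ∪ Plus_t r g n a₂ ζ Φ c) :=
    ⟨_, rfl⟩
  have h1c : c1 ≤ c := by
    rw [hc1]
    refine Submodule.span_le.2 ?_
    rintro a (ha | ha)
    · exact ha.1
    · exact Plus_tc hO g a₂ ha
  have hcc : c ≤ c1 ⊔ c * c := hc1 ▸ Plus_dec h hL hO a₁ a₂ ha g
  have hw : ∀ j, 2 * (n * n) ≤ j → c1 ^ j ≤ T := by
    intro j hj
    rw [hc1, Submodule.span_pow]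
    refine Submodule.span_le.2 ?_
    intro u hu
    rw [Set.mem_pow] at hu
    obtain ⟨f, rfl⟩ := hu
    rw [SetLike.mem_coe, hT]
    refine Plus_word h.dt hS hO a₁ a₂ hd hd' g _ (by rw [List.length_ofFn]; exact hj) ?_ y hy
    intro a ha
    rw [List.mem_ofFn] at ha
    obtain ⟨i, rfl⟩ := ha
    exact (f i).2
  have hstep : ∀ k : ℕ, c ^ j ≤ T ⊔ c ^ (j + k) := by
    intro k
    induction k with
    | zero => exact le_sup_right
    | succ k ih =>
      refine ih.trans (sup_le le_sup_left ?_)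
      refine (Plus_pow c c1 h1c hcc (j + k)).trans ?_
      exact sup_le_sup (hw _ (by omega)) le_rfl
  obtain ⟨K, hK⟩ := hO.nil
  have hKT : c ^ (j + K) ≤ T := by
    intro z hz
    rw [hT]
    have h1 : z * (r g * (ide n ζ Φ d' * y)) ∈ c ^ j * (c ^ K * D) := by
      rw [← mul_assoc, ← pow_add]
      exact Submodule.mul_mem_mul hz hyD
    have h2 : c ^ j * (c ^ K * D) ≤ B := (mul_le_mul' le_rfl hK).trans (Plus_powD hO.cB j)
    exact ide_stab hO.sB.p d _ (h2 h1)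
  intro z hz
  rw [← hT]
  exact (sup_le le_rfl hKT) (hstep K hz)

/-- powers of `c` are stable under conjugation -/
theorem Plus_cpow {c : Submodule O A} {u v : A} (hvu : v * u = 1) (huv : u * v = 1)
    (hc : ∀ a ∈ c, u * a * v ∈ c) (m : ℕ) : ∀ x ∈ c ^ m, u * x * v ∈ c ^ m := by
  induction m with
  | zero =>
    intro x hx
    rw [pow_zero] at hx ⊢
    obtain ⟨o, rfl⟩ := Submodule.mem_one.1 hx
    rw [Algebra.algebraMap_eq_smul_one, mul_smul_comm, smul_mul_assoc, mul_one, huv]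
    exact Submodule.smul_mem _ _ (Submodule.mem_one.2 ⟨1, map_one _⟩)
  | succ m ih =>
    intro x hx
    rw [pow_succ'] at hx ⊢
    induction hx using Submodule.mul_induction_on' with
    | mem_mul_mem a ha b hb =>
      have e : u * (a * b) * v = (u * a * v) * (u * b * v) := by
        calc u * (a * b) * v = u * a * (1 * (b * v)) := by rw [one_mul]; simp only [mul_assoc]
          _ = u * a * (v * u * (b * v)) := by rw [hvu]
          _ = (u * a * v) * (u * b * v) := by simp only [mul_assoc]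
      rw [e]
      exact Submodule.mul_mem_mul (hc a ha) (ih b hb)
    | add x _ y _ h1 h2 =>
      rw [mul_add, add_mul]
      exact Submodule.add_mem _ h1 h2

/-- elements of `c` commute with elements of `c^m` modulo `B` -/
theorem Plus_comm {G : Type} [Group G] {r : G →* A} {c D B : Submodule O A}
    (hO : Op n r Φ Ψ c D B) (m : ℕ) : ∀ z ∈ c ^ m, ∀ b ∈ c, ∀ x ∈ D,
      (b * z - z * b) * x ∈ B := by
  induction m with
  | zero =>
    intro z hz b _ x _
    rw [pow_zero] at hz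
    obtain ⟨o, rfl⟩ := Submodule.mem_one.1 hz
    have e : b * algebraMap O A o - algebraMap O A o * b = 0 := by
      rw [← Algebra.commutes, sub_self]
    rw [e, zero_mul]
    exact B.zero_mem
  | succ m ih =>
    intro z hz b hb x hx
    rw [pow_succ'] at hz
    induction hz using Submodule.mul_induction_on' with
    | mem_mul_mem a ha w hw =>
      have e : (b * (a * w) - a * w * b) * x = (b * a - a * b) * (w * x) +
          a * ((b * w - w * b) * x) := by noncomm_ring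
      rw [e]
      exact B.add_mem (hO.comm b hb a ha _ (Plus_powDD hO m w hw x hx))
        (hO.cB a ha _ (ih w hw b hb x hx))
    | add y _ z _ h1 h2 =>
      have e : (b * (y + z) - (y + z) * b) * x = (b * y - y * b) * x + (b * z - z * b) * x := by
        noncomm_ring
      rw [e]
      exact B.add_mem h1 h2

/-- telescoping -/
theorem Plus_tel {G : Type} [Group G] {r : G →* A} {c D B : Submodule O A}
    (hO : Op n r Φ Ψ c D B) (N : Subgroup G) (I : Submodule O A)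
    (hI : ∀ g ∈ N, ∀ x ∈ D, (r g - 1) * x ∈ I) (g : G) (hg : g ∈ N) (j : ℕ) :
    ∀ z ∈ c ^ (j + 1), ∀ x ∈ D, (r g * z * r g⁻¹ - z) * x ∈ c ^ j * I ⊔ c ^ (j + 1) * I ⊔ B := by
  have h1 : ∀ a ∈ c, ∀ x ∈ D, ∃ y ∈ I, ∃ w ∈ I, (r g * a * r g⁻¹ - a) * x = y + a * w := by
    intro a ha x hx
    refine ⟨(r g - 1) * (a * (r g⁻¹ * x)), hI g hg _ (hO.cD a ha _ (hO.sD.g _ x hx)),
      (r g⁻¹ - 1) * x, hI _ (N.inv_mem hg) x hx, ?_⟩
    noncomm_ring
  induction j with
  | zero =>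
    intro z hz x hx
    rw [zero_add, pow_one] at hz ⊢
    obtain ⟨y, hy, w, hw, e⟩ := h1 z hz x hx
    rw [e, pow_zero, one_mul]
    exact Submodule.mem_sup_left (Submodule.add_mem_sup hy (Submodule.mul_mem_mul hz hw))
  | succ j ih =>
    intro z hz x hx
    rw [pow_succ'] at hz
    induction hz using Submodule.mul_induction_on' with
    | mem_mul_mem a ha z hz =>
      have hag : r g * a * r g⁻¹ ∈ c := hO.cg g a ha
      have e : (r g * (a * z) * r g⁻¹ - a * z) * x =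
          (r g * a * r g⁻¹) * ((r g * z * r g⁻¹ - z) * x) +
          (((r g * a * r g⁻¹ - a) * z - z * (r g * a * r g⁻¹ - a)) * x +
            z * ((r g * a * r g⁻¹ - a) * x)) := by
        have e1 : r g * (a * z) * r g⁻¹ = (r g * a * r g⁻¹) * (r g * z * r g⁻¹) := by
          calc r g * (a * z) * r g⁻¹ = r g * a * (1 * (z * r g⁻¹)) := by
                rw [one_mul]; simp only [mul_assoc]
            _ = r g * a * (r g⁻¹ * r g * (z * r g⁻¹)) := by rw [Plus_rinv]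
            _ = _ := by simp only [mul_assoc]
        rw [e1]
        noncomm_ring
      rw [e]
      refine Submodule.add_mem _ ?_ (Submodule.add_mem _ ?_ ?_)
      · have h2 : c * (c ^ j * I ⊔ c ^ (j + 1) * I ⊔ B) ≤
            c ^ (j + 1) * I ⊔ c ^ (j + 1 + 1) * I ⊔ B := by
          rw [Submodule.mul_sup, Submodule.mul_sup, ← mul_assoc, ← mul_assoc, ← pow_succ',
            ← pow_succ']
          refine sup_le_sup le_rfl ?_
          exact Submodule.mul_le.2 fun a ha x hx => hO.cB a ha x hx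
        exact h2 (Submodule.mul_mem_mul hag (ih z hz x hx))
      · exact Submodule.mem_sup_right (Plus_comm hO (j + 1) z hz _
          (Submodule.sub_mem _ hag ha) x hx)
      · obtain ⟨y, hy, w, hw, e2⟩ := h1 a ha x hx
        rw [e2, mul_add, ← mul_assoc]
        refine Submodule.mem_sup_left (Submodule.add_mem_sup (Submodule.mul_mem_mul hz hy)
          (Submodule.mul_mem_mul ?_ hw))
        rw [pow_succ]
        exact Submodule.mul_mem_mul hz ha
    | add y _ z _ h2 h3 =>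
      have e : (r g * (y + z) * r g⁻¹ - (y + z)) * x =
          (r g * y * r g⁻¹ - y) * x + (r g * z * r g⁻¹ - z) * x := by noncomm_ring
      rw [e]
      exact Submodule.add_mem _ h2 h3

end aux

/-- **Theorem R+**, the basic step -/
theorem good_plus {G : Type} [Group G] (n : ℕ) (φ : G →* G)
    (hL : ∀ t : G, ∃ s : G, t = s⁻¹ * φ s) (S : Set (ZMod n)) (N : Subgroup G) (a₁ a₂ : ℕ)
    (ha : (a₁ + a₂) % n = 1 % n) (h₁ : Triv n φ (Pa n a₁ S) N) (h₂ : Triv n φ (Pa n a₂ S) N) :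
    Good n φ S ⁅N, N⁆ (2 * (n * n) + 1) := by
  intro O A _ _ _ ζ Φ Ψ r h hS c D B hO k hk w hw
  have hΦr : ∀ g : G, Φ * r g = r (φ g) * Φ := by
    intro g
    rw [← h.eq, mul_assoc, h.qp, mul_one]
  have hrΦ : ∀ g : G, ∃ g' : G, r g * Φ = Φ * r g' := by
    intro g
    refine ⟨(⇑φ)^[n - 1] g, ?_⟩
    have h1 : Φ ^ (n - 1) * r g = r ((⇑φ)^[n - 1] g) * Φ ^ (n - 1) := by
      generalize n - 1 = a
      induction a with
      | zero => simp
      | succ a ih =>
        rw [pow_succ', mul_assoc, ih, ← mul_assoc, hΦr, mul_assoc, Function.iterate_succ_apply']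
    have h2 : Φ * Φ ^ (n - 1) = 1 := by rw [← h.dt.psi]; exact h.pq
    have h3 : Φ ^ (n - 1) * Φ = 1 := by rw [← h.dt.psi]; exact h.qp
    calc r g * Φ = Φ * (Φ ^ (n - 1) * r g) * Φ := by rw [← mul_assoc, h2, one_mul]
      _ = Φ * (r ((⇑φ)^[n - 1] g) * Φ ^ (n - 1)) * Φ := by rw [h1]
      _ = Φ * r ((⇑φ)^[n - 1] g) * (Φ ^ (n - 1) * Φ) := by simp only [mul_assoc]
      _ = Φ * r ((⇑φ)^[n - 1] g) := by rw [h3, mul_one]
  -- the submodule `D₂`
  obtain ⟨D2, hD2⟩ : ∃ D2 : Submodule O A, D2 = Submodule.span O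
    {x | ∃ (g : G) (d : ℕ) (y : A), (d : ZMod n) ∉ Pa n a₂ S ∧ y ∈ D ∧
      x = r g * (ide n ζ Φ d * y)} ⊔ B := ⟨_, rfl⟩
  have hD2s : Stab r Φ D2 := by
    rw [hD2]
    constructor
    · intro g x hx
      obtain ⟨u, hu, b, hb, rfl⟩ := Submodule.mem_sup.1 hx
      rw [mul_add]
      refine Submodule.add_mem_sup ?_ (hO.sB.g g b hb)
      clear hx
      induction hu using Submodule.span_induction with
      | mem u hu =>
        obtain ⟨g', d, y, hd, hy, rfl⟩ := hu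
        refine Submodule.subset_span ⟨g * g', d, y, hd, hy, ?_⟩
        rw [map_mul, mul_assoc]
      | zero => rw [mul_zero]; exact Submodule.zero_mem _
      | add a b _ _ h1 h2 => rw [mul_add]; exact Submodule.add_mem _ h1 h2
      | smul c a _ h1 => rw [mul_smul_comm]; exact Submodule.smul_mem _ c h1
    · intro x hx
      obtain ⟨u, hu, b, hb, rfl⟩ := Submodule.mem_sup.1 hx
      rw [mul_add]
      refine Submodule.add_mem_sup ?_ (hO.sB.p b hb)
      clear hx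
      induction hu using Submodule.span_induction with
      | mem u hu =>
        obtain ⟨g', d, y, hd, hy, rfl⟩ := hu
        have e : Φ * (r g' * (ide n ζ Φ d * y)) = ζ ^ d • (r (φ g') * (ide n ζ Φ d * y)) := by
          rw [← mul_assoc, hΦr, mul_assoc, ← mul_assoc Φ, ide_phi h.dt, smul_mul_assoc,
            mul_smul_comm]
        rw [e]
        exact Submodule.smul_mem _ _ (Submodule.subset_span ⟨φ g', d, y, hd, hy, rfl⟩)
      | zero => rw [mul_zero]; exact Submodule.zero_mem _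
      | add a b _ _ h1 h2 => rw [mul_add]; exact Submodule.add_mem _ h1 h2
      | smul c a _ h1 => rw [mul_smul_comm]; exact Submodule.smul_mem _ c h1
  have hD2D : D2 ≤ D := by
    rw [hD2]
    refine sup_le (Submodule.span_le.2 ?_) hO.le
    rintro x ⟨g', d, y, hd, hy, rfl⟩
    exact hO.sD.g _ _ (ide_stab (n := n) (ζ := ζ) hO.sD.p d y hy)
  have hN2 : ∀ g ∈ N, ∀ x ∈ D, (r g - 1) * x ∈ D2 := by
    refine rel n φ (Pa n a₂ S) N h₂ ζ Φ Ψ r h D2 D hD2D hO.sD hD2s ?_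
    intro i hi x hx
    rw [hD2]
    refine Submodule.mem_sup_left (Submodule.subset_span ⟨1, i, x, hi, hx, ?_⟩)
    rw [map_one, one_mul]
  -- the submodule `D₁`
  obtain ⟨D1, hD1⟩ : ∃ D1 : Submodule O A, ∀ x, x ∈ D1 ↔ (x ∈ D ∧ ∀ (g : G) (d : ℕ),
      (d : ZMod n) ∉ Pa n a₁ S → ide n ζ Φ d * (r g * x) ∈ B) := by
    refine ⟨{ carrier := {x | x ∈ D ∧ ∀ (g : G) (d : ℕ),
        (d : ZMod n) ∉ Pa n a₁ S → ide n ζ Φ d * (r g * x) ∈ B}
              add_mem' := ?_, zero_mem' := ?_, smul_mem' := ?_ }, fun x => Iff.rfl⟩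
    · rintro a b ⟨ha, ha'⟩ ⟨hb, hb'⟩
      refine ⟨D.add_mem ha hb, fun g d hd => ?_⟩
      rw [mul_add, mul_add]
      exact B.add_mem (ha' g d hd) (hb' g d hd)
    · refine ⟨D.zero_mem, fun g d hd => ?_⟩
      rw [mul_zero, mul_zero]
      exact B.zero_mem
    · rintro o a ⟨ha, ha'⟩
      refine ⟨D.smul_mem o ha, fun g d hd => ?_⟩
      rw [mul_smul_comm, mul_smul_comm]
      exact B.smul_mem o (ha' g d hd)
  have hD1s : Stab r Φ D1 := by
    constructor
    · intro g x hx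
      rw [hD1] at hx ⊢
      refine ⟨hO.sD.g g x hx.1, fun g' d hd => ?_⟩
      rw [← mul_assoc (r g'), ← map_mul]
      exact hx.2 _ d hd
    · intro x hx
      rw [hD1] at hx ⊢
      refine ⟨hO.sD.p x hx.1, fun g' d hd => ?_⟩
      obtain ⟨g'', hg''⟩ := hrΦ g'
      rw [← mul_assoc (r g'), hg'', mul_assoc, ← mul_assoc, ← ide_comm, mul_assoc]
      exact hO.sB.p _ (hx.2 g'' d hd)
  have hBD1 : B ≤ D1 := by
    intro x hx
    rw [hD1]
    exact ⟨hO.le hx, fun g d hd => ide_stab hO.sB.p d _ (hO.sB.g g x hx)⟩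
  have hN1 : ∀ g ∈ N, ∀ x ∈ D1, (r g - 1) * x ∈ B := by
    refine rel n φ (Pa n a₁ S) N h₁ ζ Φ Ψ r h B D1 hBD1 hD1s hO.sB ?_
    intro i hi x hx
    rw [hD1] at hx
    have h1 := hx.2 1 i hi
    rwa [map_one, one_mul] at h1
  have h12 : ∀ j, 2 * (n * n) ≤ j → ∀ z ∈ c ^ j, ∀ x ∈ D2, z * x ∈ D1 := by
    intro j hj z hz x hx
    rw [hD1]
    refine ⟨Plus_powDD hO j z hz x (hD2D hx), fun g d hd => ?_⟩
    rw [hD2] at hx
    obtain ⟨u, hu, b, hb, rfl⟩ := Submodule.mem_sup.1 hx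
    rw [mul_add, mul_add, mul_add]
    refine B.add_mem ?_ (ide_stab hO.sB.p d _ (hO.sB.g g _ (Plus_powB hO j z hz b hb)))
    clear hx
    induction hu using Submodule.span_induction with
    | mem u hu =>
      obtain ⟨g', d', y, hd', hy, rfl⟩ := hu
      have e : r g * (z * (r g' * (ide n ζ Φ d' * y))) =
          (r g * z * r g⁻¹) * (r (g * g') * (ide n ζ Φ d' * y)) := by
        rw [map_mul]
        calc r g * (z * (r g' * (ide n ζ Φ d' * y)))
            = r g * z * 1 * (r g' * (ide n ζ Φ d' * y)) := by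
              rw [mul_one]; simp only [mul_assoc]
          _ = r g * z * (r g⁻¹ * r g) * (r g' * (ide n ζ Φ d' * y)) := by rw [Plus_rinv]
          _ = _ := by simp only [mul_assoc]
      rw [e]
      exact Plus_mid h hL hS hO a₁ a₂ ha hd hd' _ j hj y hy _
        (Plus_cpow (Plus_rinv r g) (Plus_rinv' r g) (hO.cg g) j z hz)
    | zero => rw [mul_zero, mul_zero, mul_zero]; exact B.zero_mem
    | add a b _ _ h1 h2 =>
      rw [mul_add, mul_add, mul_add]
      exact B.add_mem h1 h2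
    | smul c a _ h1 =>
      rw [mul_smul_comm, mul_smul_comm, mul_smul_comm]
      exact B.smul_mem c h1
  -- `(r g - 1) c^j (r h - 1) D ≤ B`
  obtain ⟨I, hI⟩ : ∃ I : Submodule O A, I = Submodule.span O
    {x | ∃ (g : G) (y : A), g ∈ N ∧ y ∈ D ∧ x = (r g - 1) * y} := ⟨_, rfl⟩
  have hIm : ∀ g ∈ N, ∀ x ∈ D, (r g - 1) * x ∈ I := fun g hg x hx => by
    rw [hI]; exact Submodule.subset_span ⟨g, x, hg, hx, rfl⟩
  have hID2 : I ≤ D2 := by
    rw [hI]
    refine Submodule.span_le.2 ?_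
    rintro x ⟨g, y, hg, hy, rfl⟩
    exact hN2 g hg y hy
  have hmid : ∀ j, 2 * (n * n) ≤ j → ∀ g ∈ N, ∀ x ∈ c ^ j * I, (r g - 1) * x ∈ B := by
    intro j hj g hg x hx
    refine hN1 g hg x ?_
    have h1 : c ^ j * I ≤ D1 := Submodule.mul_le.2 fun z hz x hx => h12 j hj z hz x (hID2 hx)
    exact h1 hx
  obtain ⟨J, hJ⟩ : ∃ J, J = 2 * (n * n) := ⟨_, rfl⟩
  rw [← hJ] at hw
  -- `(r g' - 1) (r g - 1) c^(J+1) D ≤ B`
  have htwo : ∀ g' ∈ N, ∀ g ∈ N, ∀ x ∈ c ^ (J + 1) * D, (r g' - 1) * ((r g - 1) * x) ∈ B := by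
    intro g' hg' g hg x hx
    induction hx using Submodule.mul_induction_on' with
    | mem_mul_mem z hz x hx =>
      have e : (r g - 1) * (z * x) = (r g * z * r g⁻¹) * ((r g - 1) * x) +
          (r g * z * r g⁻¹ - z) * x := by
        have e1 : r g * z = (r g * z * r g⁻¹) * r g := by
          rw [mul_assoc, Plus_rinv, mul_one]
        calc (r g - 1) * (z * x) = (r g * z) * x - z * x := by noncomm_ring
          _ = ((r g * z * r g⁻¹) * r g) * x - z * x := by rw [← e1]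
          _ = _ := by noncomm_ring
      rw [e, mul_add]
      refine B.add_mem ?_ ?_
      · refine hmid (J + 1) (by omega) g' hg' _ (Submodule.mul_mem_mul
          (Plus_cpow (Plus_rinv r g) (Plus_rinv' r g) (hO.cg g) _ z hz) (hIm g hg x hx))
      · have h1 := Plus_tel hO N I hIm g hg J z hz x hx
        obtain ⟨u, hu, b, hb, e2⟩ := Submodule.mem_sup.1 h1
        obtain ⟨u1, hu1, u2, hu2, e3⟩ := Submodule.mem_sup.1 hu
        rw [← e2, ← e3, mul_add, mul_add]
        refine B.add_mem (B.add_mem (hmid J (by omega) g' hg' _ hu1)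
          (hmid (J + 1) (by omega) g' hg' _ hu2)) ?_
        rw [sub_mul, one_mul]
        exact B.sub_mem (hO.sB.g g' b hb) hb
    | add x _ y _ h1 h2 =>
      rw [mul_add, mul_add]
      exact B.add_mem h1 h2
  have hDs : ∀ g : G, ∀ x ∈ c ^ (J + 1) * D, r g * x ∈ c ^ (J + 1) * D := fun g =>
    Plus_conj (Plus_rinv r g) (hO.cg g) (hO.sD.g g) _
  -- the subgroup acting trivially
  let Y : Subgroup G :=
    { carrier := {k | ∀ x ∈ c ^ (J + 1) * D, (r k - 1) * x ∈ B}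
      mul_mem' := by
        intro a b ha hb x hx
        have e : (r (a * b) - 1) * x = r a * ((r b - 1) * x) + (r a - 1) * x := by
          rw [map_mul]; noncomm_ring
        rw [e]
        exact B.add_mem (hO.sB.g a _ (hb x hx)) (ha x hx)
      one_mem' := by
        intro x _
        rw [map_one, sub_self, zero_mul]
        exact B.zero_mem
      inv_mem' := by
        intro a ha x hx
        have e : (r a⁻¹ - 1) * x = -(r a⁻¹ * ((r a - 1) * x)) := by
          have e1 : r a⁻¹ * ((r a - 1) * x) = (r a⁻¹ * r a) * x - r a⁻¹ * x := by noncomm_ring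
          rw [e1, Plus_rinv]
          noncomm_ring
        rw [e]
        exact B.neg_mem (hO.sB.g _ _ (ha x hx)) }
  have hY : ⁅N, N⁆ ≤ Y := by
    rw [Subgroup.commutator_le]
    intro a ha b hb x hx
    have e : (r ⁅a, b⁆ - 1) * x = (r a - 1) * ((r b - 1) * (r (a⁻¹ * b⁻¹) * x)) -
        (r b - 1) * ((r a - 1) * (r (a⁻¹ * b⁻¹) * x)) := by
      have e1 : r ⁅a, b⁆ = r a * r b * r (a⁻¹ * b⁻¹) := by
        rw [← map_mul, ← map_mul, commutatorElement_def]
        congr 1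
        group
      have e2 : r b * r a * r (a⁻¹ * b⁻¹) = 1 := by
        rw [← map_mul, ← map_mul]
        have : b * a * (a⁻¹ * b⁻¹) = 1 := by group
        rw [this, map_one]
      have e3 : (r a - 1) * ((r b - 1) * (r (a⁻¹ * b⁻¹) * x)) -
          (r b - 1) * ((r a - 1) * (r (a⁻¹ * b⁻¹) * x)) =
          (r a * r b * r (a⁻¹ * b⁻¹)) * x - (r b * r a * r (a⁻¹ * b⁻¹)) * x := by
        noncomm_ring
      rw [e3, e2, e1, sub_mul]
    rw [e]
    exact B.sub_mem (htwo a ha b hb _ (hDs _ x hx)) (htwo b hb a ha _ (hDs _ x hx))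
  exact hY hk w hw

/-- **Theorem R+** -/
theorem thR_plus (n : ℕ) : ∃ w : ℕ, ∀ (G : Type) [Group G] (φ : G →* G),
    Split n φ → (∀ t : G, ∃ s : G, t = s⁻¹ * φ s) → ∀ (S : Set (ZMod n)) (N : Subgroup G),
    N.Normal → (∀ g ∈ N, φ g ∈ N) → ∀ a₁ a₂ : ℕ, (a₁ + a₂) % n = 1 % n →
    Triv n φ (Pa n a₁ S) N → Triv n φ (Pa n a₂ S) N → Triv n φ S (derG w N) := by
  obtain ⟨w, hw⟩ := thR_good n (2 * (n * n) + 1)
  refine ⟨w + 1, ?_⟩
  intro G _ φ hs hL S N hN hNφ a₁ a₂ ha h₁ h₂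
  have h1 := hw G φ hs S ⁅N, N⁆ (Subgroup.commutator_normal N N) ?_
    (good_plus n φ hL S N a₁ a₂ ha h₁ h₂)
  · have e : ∀ w, derG w ⁅N, N⁆ = derG (w + 1) N := by
      intro w
      induction w with
      | zero => rfl
      | succ w ih =>
        show ⁅derG w ⁅N, N⁆, derG w ⁅N, N⁆⁆ = ⁅derG (w + 1) N, derG (w + 1) N⁆
        rw [ih]
    rwa [e] at h1
  · have h2 : ⁅N, N⁆ ≤ (⁅N, N⁆ : Subgroup G).comap φ := by
      rw [Subgroup.commutator_le]
      intro a ha b hb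
      rw [Subgroup.mem_comap, map_commutatorElement]
      exact Subgroup.commutator_mem_commutator (hNφ a ha) (hNφ b hb)
    exact fun g hg => h2 hg

end Pool.Agent.ThR
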