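import Pool.Agent.ThR.Deg

/-!
# Trivial action on quotients

`Triv n φ P N` is applied to the algebra `E = Module.End O (D / B)`.
Let `R : Subalgebra O A`, `R = {a | a D ⊆ D, a B ⊆ B}` and `θ : R →ₐ[O] E` the action of `R` on `D / B`. `r g`, `Φ`
and `Ψ = Φ^(n-1)` (`Dt.psi`) lie in `R`; `ρ g = θ (r g)`, `Φ' = θ Φ`, `Ψ' = θ Ψ`.
`GRep n φ ζ Φ' Ψ' ρ`: only nilpotency needs an argument: `aug O ρ` is the image under `θ` of
`aug O r_R` (`r_R : G →* R`), whose powers are `⊥` since they embed into `A`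
(`Submodule.map_pow`, injectivity of `R.val`). `ide n ζ Φ' i = θ (ide n ζ Φ i) = 0` for `i ∉ P` by `hP`
(use `ide_stab` for membership). So `ρ g = 1` for `g ∈ N`, which is the claim.
-/

set_option autoImplicit false

namespace Pool.Agent.ThR

open Pool.Agent.LgP

/-- the elements stabilising `M` and `M'` -/
def Rel_S {O E : Type} [CommRing O] [Ring E] [Algebra O E] (M M' : Submodule O E) :
    Subalgebra O E where
  carrier := {e | (∀ x ∈ M, e * x ∈ M) ∧ ∀ x ∈ M', e * x ∈ M'}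
  mul_mem' := by
    rintro a b ⟨ha, ha'⟩ ⟨hb, hb'⟩
    refine ⟨fun x hx => ?_, fun x hx => ?_⟩
    · rw [mul_assoc]; exact ha _ (hb _ hx)
    · rw [mul_assoc]; exact ha' _ (hb' _ hx)
  add_mem' := by
    rintro a b ⟨ha, ha'⟩ ⟨hb, hb'⟩
    refine ⟨fun x hx => ?_, fun x hx => ?_⟩
    · rw [add_mul]; exact M.add_mem (ha _ hx) (hb _ hx)
    · rw [add_mul]; exact M'.add_mem (ha' _ hx) (hb' _ hx)
  algebraMap_mem' := by
    intro r
    refine ⟨fun x hx => ?_, fun x hx => ?_⟩
    · rw [← Algebra.smul_def]; exact M.smul_mem _ hx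
    · rw [← Algebra.smul_def]; exact M'.smul_mem _ hx

/-- the action on the quotient -/
def Rel_L {O E : Type} [CommRing O] [Ring E] [Algebra O E] (M M' : Submodule O E) :
    Rel_S M M' →ₐ[O] Module.End O (↥M ⧸ M'.submoduleOf M) where
  toFun e := Submodule.mapQ (M'.submoduleOf M) (M'.submoduleOf M)
    ((LinearMap.mulLeft O (e : E)).restrict (fun x hx => e.2.1 x hx))
    (fun x hx => e.2.2 x.1 hx)
  map_one' := by
    apply Submodule.linearMap_qext
    ext x
    simp only [LinearMap.coe_comp, Function.comp_apply, Submodule.mkQ_apply, Submodule.mapQ_apply]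
    exact congrArg _ (Subtype.ext (one_mul _))
  map_mul' := by
    intro a b
    apply Submodule.linearMap_qext
    ext x
    exact congrArg (Submodule.Quotient.mk (p := M'.submoduleOf M)) (Subtype.ext (mul_assoc _ _ _))
  map_zero' := by
    apply Submodule.linearMap_qext
    ext x
    exact congrArg (Submodule.Quotient.mk (p := M'.submoduleOf M)) (Subtype.ext (zero_mul _))
  map_add' := by
    intro a b
    apply Submodule.linearMap_qext
    ext x
    exact congrArg (Submodule.Quotient.mk (p := M'.submoduleOf M)) (Subtype.ext (add_mul _ _ _))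
  commutes' := by
    intro r
    apply Submodule.linearMap_qext
    ext x
    exact congrArg (Submodule.Quotient.mk (p := M'.submoduleOf M))
      (Subtype.ext (Algebra.smul_def _ _).symm)

theorem Rel_L_apply {O E : Type} [CommRing O] [Ring E] [Algebra O E]
    (M M' : Submodule O E) (e : Rel_S M M') (x : M) :
    Rel_L M M' e (Submodule.Quotient.mk x) =
      Submodule.Quotient.mk (⟨(e : E) * x, e.2.1 x x.2⟩ : M) := rfl

theorem Rel_ide {n : ℕ} {O A B : Type} [CommRing O] [Ring A] [Algebra O A] [Ring B]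
    [Algebra O B] {ζ : O} (f : A →ₐ[O] B) (Φ : A) (i : ℕ) :
    f (ide n ζ Φ i) = ide n ζ (f Φ) i := by
  unfold ide
  rw [map_smul, map_sum]
  simp only [map_smul, map_pow]

theorem Rel_aug {O A B G : Type} [CommRing O] [Ring A] [Algebra O A] [Ring B]
    [Algebra O B] [Group G] (f : A →ₐ[O] B) (ρ : G →* A) :
    aug O ((f : A →* B).comp ρ) = (aug O ρ).map f.toLinearMap := by
  unfold aug
  rw [Submodule.map_span, ← Set.range_comp]
  congr 1
  congr 1
  funext x
  simp

theorem rel {G : Type} [Group G] (n : ℕ) (φ : G →* G) (P : Set (ZMod n)) (N : Subgroup G)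
    (hN : Triv n φ P N) {O A : Type} [CommRing O] [Ring A] [Algebra O A] (ζ : O) (Φ Ψ : A)
    (r : G →* A) (h : GRep n φ ζ Φ Ψ r) (B D : Submodule O A) (hBD : B ≤ D) (hD : Stab r Φ D)
    (hB : Stab r Φ B) (hP : ∀ i : ℕ, (i : ZMod n) ∉ P → ∀ x ∈ D, ide n ζ Φ i * x ∈ B) :
    ∀ g ∈ N, ∀ x ∈ D, (r g - 1) * x ∈ B := by
  have hΦ : Φ ∈ Rel_S D B := ⟨hD.p, hB.p⟩
  have hΨ : Ψ ∈ Rel_S D B := by
    rw [h.dt.psi]
    exact pow_mem hΦ _
  have hρ : ∀ g, r g ∈ Rel_S D B := fun g => ⟨hD.g g, hB.g g⟩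
  let ρS : G →* Rel_S D B :=
    { toFun := fun g => ⟨r g, hρ g⟩
      map_one' := Subtype.ext (map_one r)
      map_mul' := fun a b => Subtype.ext (map_mul r a b) }
  let L := Rel_L D B
  have hval : ((Rel_S D B).val : Rel_S D B →* A).comp ρS = r := by
    ext g
    rfl
  have hrep : GRep n φ ζ (L ⟨Φ, hΦ⟩) (L ⟨Ψ, hΨ⟩) ((L : Rel_S D B →* _).comp ρS) := by
    refine ⟨h.prim, ?_, ?_, ?_, ?_, ?_⟩
    · rw [← map_mul, ← map_one L]
      exact congrArg L (Subtype.ext h.pq)
    · rw [← map_mul, ← map_one L]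
      exact congrArg L (Subtype.ext h.qp)
    · rw [← map_pow, ← map_one L]
      exact congrArg L (Subtype.ext h.pow)
    · intro g
      have h1 := h.eq g
      have h' : (⟨Φ, hΦ⟩ : Rel_S D B) * ρS g * ⟨Ψ, hΨ⟩ = ρS (φ g) := Subtype.ext h1
      have := congrArg L h'
      rw [map_mul, map_mul] at this
      exact this
    · obtain ⟨K, hK⟩ := h.nil
      refine ⟨K, ?_⟩
      rw [Rel_aug L ρS]
      have h0 : (aug O ρS) ^ K = ⊥ := by
        have h1 : ((aug O ρS) ^ K).map (Rel_S D B).val.toLinearMap = ⊥ := by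
          rw [Submodule.map_pow, ← Rel_aug (Rel_S D B).val ρS, hval, hK]
        rw [eq_bot_iff]
        intro x hx
        have hx' : (Rel_S D B).val x ∈ ((aug O ρS) ^ K).map (Rel_S D B).val.toLinearMap :=
          Submodule.mem_map_of_mem hx
        rw [h1, Submodule.mem_bot] at hx'
        rw [Submodule.mem_bot]
        exact Subtype.ext hx'
      rw [← Submodule.map_pow, h0, Submodule.map_bot]
  have hsupp : Sup n ζ (L ⟨Φ, hΦ⟩) P := by
    intro i hi
    rw [← Rel_ide L (⟨Φ, hΦ⟩ : Rel_S D B) i]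
    apply LinearMap.ext
    intro q
    obtain ⟨x, rfl⟩ := Submodule.Quotient.mk_surjective _ q
    have hval2 : ((ide n ζ (⟨Φ, hΦ⟩ : Rel_S D B) i : Rel_S D B) : A) = ide n ζ Φ i :=
      Rel_ide (Rel_S D B).val (⟨Φ, hΦ⟩ : Rel_S D B) i
    rw [Rel_L_apply, LinearMap.zero_apply, Submodule.Quotient.mk_eq_zero]
    change ((ide n ζ (⟨Φ, hΦ⟩ : Rel_S D B) i : Rel_S D B) : A) * (x : A) ∈ B
    rw [hval2]
    exact hP i hi x x.2
  have key := hN O _ ζ (L ⟨Φ, hΦ⟩) (L ⟨Ψ, hΨ⟩) ((L : Rel_S D B →* _).comp ρS) hrep hsupp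
  intro g hg x hx
  have h1 := key g hg
  have h' : L (ρS g) (Submodule.Quotient.mk (⟨x, hx⟩ : D)) =
      Submodule.Quotient.mk (⟨x, hx⟩ : D) := by
    have := congrArg (fun u : Module.End O (↥D ⧸ B.submoduleOf D) =>
      u (Submodule.Quotient.mk (⟨x, hx⟩ : D))) h1
    exact this
  rw [Rel_L_apply, Submodule.Quotient.eq] at h'
  have h'' : r g * x - x ∈ B := h'
  rw [sub_mul, one_mul]
  exact h''

end Pool.Agent.ThR
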